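import Pool.Agent.Y895.PS.T4
import Pool.Agent.Y895.OL.A6

set_option autoImplicit false

/-!
# The law for rough parts at almost every point, constants close to the right one

Adapted from `Pool.Agent.Y895.OL.A5` and `Pool.Agent.Y895.OL.A6`.
-/

open Filter Topology MeasureTheory Finset
open scoped Real

namespace Pool.Agent.Y895.PT

open Pool.Agent.TH888.R (wt wt_nonneg VS cS)
open Pool.Agent.H305R2 (roughPart)
open Pool.Agent.Y895.PM (U01 fn fn01 pow_exp)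
open Pool.Agent.Y895.PS (cnt_asy row_sharp)
open Pool.Agent.Y895.OL (AdmD lv gF gM gF_meas gF_nonneg gF_le_one Row Ordr VI FI VI_prime FI_prime
  cS_le_card fin_of_conv)

/-- **The law.** -/
theorem asy_fb : ∀ ε : ℝ, 0 < ε → ε < 1 → ∃ δ : ℝ, 0 < δ ∧ δ < 1 ∧ ∀ α : ℝ, 1 < α →
    ∀ b : ℕ, 2 ≤ b → ∀ c C : ℝ, 0 < c → 0 < C → ∀ A m : ℕ → ℕ,
    (∀ᶠ p in atTop, m p ≤ m (p + 1)) →
    (∀ᶠ p : ℕ in atTop, c * α ^ p ≤ A p ∧ (A p : ℝ) ≤ C * α ^ p ∧ b ^ m p ≤ A p ∧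
      (p : ℝ) * (1 - δ) * Real.log α ≤ m p * Real.log b) →
    ∀ S : Set ℕ, ∀ᵐ t : ℝ, 0 ≤ t → t < 1 →
      Ordr (fun p => A p + ⌊(b : ℝ) ^ m p * t⌋₊)
        ((1 - ε) * (Real.exp Real.eulerMascheroniConstant / Real.log α))
        ((1 + ε) * (Real.exp Real.eulerMascheroniConstant / Real.log α)) S := by
  intro ε hε hε1
  obtain ⟨δ, hδ, hδ1, h⟩ := row_asy (ε / 2) (by positivity) (by linarith)
  refine ⟨δ, hδ, hδ1, fun α hα => ?_⟩
  obtain ⟨K, hK, hrow⟩ := h α hα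
  have hlb : 0 < Real.log α := Real.log_pos hα
  set G := Real.exp Real.eulerMascheroniConstant / Real.log α with hG
  have hG0 : 0 < G := div_pos (Real.exp_pos _) hlb
  intro b hb c C hc hC A m hm hA S
  obtain ⟨P, hP⟩ := (hm.and hA).exists_forall_of_atTop
  have hadm : AdmD b α δ c C A m P := by
    refine ⟨fun p hp q hq => ?_, fun p hp => (hP p hp).2.1, fun p hp => (hP p hp).2.2.1,
      fun p hp => (hP p hp).2.2.2.1, fun p hp => (hP p hp).2.2.2.2⟩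
    induction q, hq using Nat.le_induction with
    | base => exact le_rfl
    | succ q hq ih => exact ih.trans (hP q (le_trans hp hq)).1
  obtain ⟨Q, hR, hlo, hup, hone⟩ := hrow b hb c C hc hC A m P hadm
  have hc0 : 0 < (1 - ε / 2) * G := mul_pos (by linarith) hG0
  have hc1 : 0 < (1 - ε) * G := mul_pos (by linarith) hG0
  have ec1 : (1 - ε / 2) * G - ε / 2 * G = (1 - ε) * G := by ring
  have ec2 : (1 + ε / 2) * G + ε / 2 * G = (1 + ε) * G := by ring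
  have main : ∀ᵐ t ∂U01, Ordr (fun p => A p + ⌊(b : ℝ) ^ m p * t⌋₊) ((1 - ε) * G) ((1 + ε) * G) S := by
    by_cases hdiv : Tendsto (VS S) atTop atTop
    · have h1 := row_sharp hR (c0 := (1 - ε / 2) * G) (K := (1 + ε / 2) * G) (e := ε / 2 * G)
        hc0 (by positivity) (by positivity) hlo hup S (by rw [VI_prime]; exact hdiv)
      filter_upwards [h1] with t ht
      have hlaw : ∀ᶠ n : ℕ in atTop, (1 - ε) * G * VS S n ≤
          cS S (fun p => A p + ⌊(b : ℝ) ^ m p * t⌋₊) n ∧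
          (cS S (fun p => A p + ⌊(b : ℝ) ^ m p * t⌋₊) n : ℝ) ≤ (1 + ε) * G * VS S n := by
        filter_upwards [ht] with n hn
        rw [VI_prime, ec1, ec2] at hn
        have e : FI {p : ℕ | p.Prime} (gF fn b A m) S n t =
            (cS S (fun p => A p + ⌊(b : ℝ) ^ m p * t⌋₊) n : ℝ) :=
          FI_prime (fun q => rfl) S n
        rw [e] at hn
        exact hn
      refine ⟨fun _ => hlaw, ⟨fun _ => hdiv, fun _ hfin => ?_⟩⟩
      set M := hfin.toFinset.card with hM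
      have hbd : ∀ n : ℕ, cS S (fun p => A p + ⌊(b : ℝ) ^ m p * t⌋₊) n ≤ M :=
        fun n => cS_le_card hfin n
      have h2 := hdiv.eventually (eventually_gt_atTop ((M : ℝ) / ((1 - ε) * G)))
      obtain ⟨n, g1, g2⟩ := (hlaw.and h2).exists
      rw [div_lt_iff₀ hc1] at g2
      have h3 : (cS S (fun p => A p + ⌊(b : ℝ) ^ m p * t⌋₊) n : ℝ) ≤ M := by exact_mod_cast hbd n
      linarith [g1.1]
    · have h1 := fin_of_conv (μ := U01) (f := gF fn b A m) (I := {p : ℕ | p.Prime}) (w := wt) (P := Q)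
        (gF_meas fn b A m) (gF_nonneg fn01 b A m) (gF_le_one fn01 b A m) wt_nonneg hK.le hone S
        (by rw [VI_prime]; exact hdiv)
      filter_upwards [h1] with t ht
      refine ⟨fun hd => absurd hd hdiv, ⟨fun hi => ?_, fun hd => absurd hd hdiv⟩⟩
      exfalso
      apply hi
      refine ht.subset fun q hq => ?_
      obtain ⟨g1, g2, g3⟩ := hq
      refine ⟨g2, g1, ?_⟩
      show fn q (A q + ⌊(b : ℝ) ^ m q * t⌋₊) = 1
      unfold fn
      rw [if_pos g3]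
  unfold U01 at main
  rw [ae_restrict_iff' measurableSet_Ico] at main
  filter_upwards [main] with t ht h0 h1
  exact ht ⟨h0, h1⟩

/-- a truncated sequence -/
lemma trunc_aux2 {b : ℕ} (hb : 2 ≤ b) {α c C : ℝ} (hα : 1 < α) (hc : 0 < c) {Q m p : ℕ}
    (h1 : b ^ m ≤ Q) (q1 : c * α ^ p ≤ Q) (q2 : (Q : ℝ) ≤ C * α ^ p) :
    c / 2 * α ^ p ≤ (b ^ m * (Q / b ^ m) : ℕ) ∧ ((b ^ m * (Q / b ^ m) : ℕ) : ℝ) ≤ C * α ^ p ∧
    b ^ m ≤ b ^ m * (Q / b ^ m) ∧ p * Real.log α - (|Real.log c| + Real.log 2) -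
      Real.log (Q / b ^ m : ℕ) ≤ m * Real.log b := by
  have hbr : (2 : ℝ) ≤ b := by exact_mod_cast hb
  have hb0 : (0 : ℝ) < b := by linarith
  have hα0 : 0 < α := by linarith
  have hpos : 0 < b ^ m := by positivity
  have hposR : (0 : ℝ) < (b : ℝ) ^ m := by positivity
  set k := Q / b ^ m with hk'
  have hk1 : 1 ≤ k := by
    rw [hk', Nat.le_div_iff_mul_le hpos, one_mul]
    exact h1
  have h4 : Q < b ^ m * k + b ^ m := by
    have := Nat.div_add_mod Q (b ^ m)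
    have h5 := Nat.mod_lt Q hpos
    rw [← hk'] at this
    omega
  have h5 : b ^ m * k ≤ Q := Nat.mul_div_le _ _
  have h6 : b ^ m ≤ b ^ m * k := Nat.le_mul_of_pos_right _ hk1
  have h7 : Q ≤ 2 * (b ^ m * k) := by omega
  have h7' : (Q : ℝ) ≤ 2 * ((b ^ m * k : ℕ) : ℝ) := by exact_mod_cast h7
  have h5' : ((b ^ m * k : ℕ) : ℝ) ≤ Q := by exact_mod_cast h5
  have hkR : (1 : ℝ) ≤ k := by exact_mod_cast hk1
  refine ⟨by linarith, by linarith, h6, ?_⟩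
  have h8 : Real.log (c * α ^ p) ≤ Real.log (2 * ((b ^ m * k : ℕ) : ℝ)) :=
    Real.log_le_log (by positivity) (q1.trans h7')
  have e1 : Real.log (2 * ((b ^ m * k : ℕ) : ℝ)) =
      Real.log 2 + (m * Real.log b + Real.log k) := by
    push_cast
    rw [Real.log_mul (by norm_num) (by positivity), Real.log_mul (by positivity) (by positivity),
      Real.log_pow]
  rw [e1, Real.log_mul hc.ne' (by positivity), Real.log_pow] at h8
  have h9 := neg_abs_le (Real.log c)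
  linarith

/-- **The law for truncated sequences.** -/
theorem asy_trunc : ∀ ε : ℝ, 0 < ε → ε < 1 → ∃ δ : ℝ, 0 < δ ∧ δ < 1 ∧ ∀ α : ℝ, 1 < α →
    ∀ b : ℕ, 2 ≤ b → ∀ c C : ℝ, 0 < c → 0 < C → ∀ Q m : ℕ → ℕ,
    (∀ᶠ p : ℕ in atTop, c * α ^ p ≤ Q p ∧ (Q p : ℝ) ≤ C * α ^ p) →
    (∀ᶠ p in atTop, m p ≤ m (p + 1)) → (∀ᶠ p in atTop, b ^ m p ≤ Q p) →
    (∀ᶠ p : ℕ in atTop, Real.log (Q p / b ^ m p : ℕ) ≤ δ * Real.log α * p) →
    ∀ S : Set ℕ, ∀ᵐ t : ℝ, 0 ≤ t → t < 1 →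
      Ordr (fun p => b ^ m p * (Q p / b ^ m p) + ⌊(b : ℝ) ^ m p * t⌋₊)
        ((1 - ε) * (Real.exp Real.eulerMascheroniConstant / Real.log α))
        ((1 + ε) * (Real.exp Real.eulerMascheroniConstant / Real.log α)) S := by
  intro ε hε hε1
  obtain ⟨δ, hδ, hδ1, h⟩ := asy_fb ε hε hε1
  refine ⟨δ / 2, by positivity, by linarith, fun α hα b hb c C hc hC Q m hQ hm ht hk S => ?_⟩
  refine h α hα b hb (c / 2) C (by positivity) hC (fun p => b ^ m p * (Q p / b ^ m p)) m hm ?_ S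
  have hlb : 0 < Real.log α := Real.log_pos hα
  have hk2 : ∀ᶠ p : ℕ in atTop, (|Real.log c| + Real.log 2) / (δ / 2 * Real.log α) ≤ p :=
    tendsto_natCast_atTop_atTop.eventually_ge_atTop _
  filter_upwards [hQ, ht, hk, hk2] with p hp h1 h2 h3
  rw [div_le_iff₀ (by positivity)] at h3
  obtain ⟨a1, a2, a3, a4⟩ := trunc_aux2 hb hα hc h1 hp.1 hp.2
  refine ⟨a1, a2, a3, ?_⟩
  linarith

/-- **The law for digits in the base of growth.** -/
theorem asy_pm : ∀ ε : ℝ, 0 < ε → ε < 1 → ∃ δ : ℝ, 0 < δ ∧ δ < 1 ∧ ∀ b : ℕ, 2 ≤ b →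
    ∀ c C : ℝ, 0 < c → 0 < C → ∀ A m : ℕ → ℕ, (∀ᶠ p in atTop, m p ≤ m (p + 1)) →
    (∀ᶠ p : ℕ in atTop, c * (b : ℝ) ^ p ≤ A p ∧ (A p : ℝ) ≤ C * (b : ℝ) ^ p ∧ b ^ m p ≤ A p ∧
      (1 - δ) * p ≤ m p) →
    ∀ S : Set ℕ, ∀ᵐ t : ℝ, 0 ≤ t → t < 1 →
      Ordr (fun p => A p + ⌊(b : ℝ) ^ m p * t⌋₊)
        ((1 - ε) * (Real.exp Real.eulerMascheroniConstant / Real.log b))
        ((1 + ε) * (Real.exp Real.eulerMascheroniConstant / Real.log b)) S := by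
  intro ε hε hε1
  obtain ⟨δ, hδ, hδ1, h⟩ := asy_fb ε hε hε1
  refine ⟨δ, hδ, hδ1, fun b hb c C hc hC A m hm hA S => ?_⟩
  have hb1 : (1 : ℝ) < b := by exact_mod_cast (by omega : 1 < b)
  have hlb : 0 < Real.log b := Real.log_pos hb1
  refine h b hb1 b hb c C hc hC A m hm ?_ S
  filter_upwards [hA] with p hp
  obtain ⟨h1, h2, h3, h4⟩ := hp
  refine ⟨h1, h2, h3, ?_⟩
  have := mul_le_mul_of_nonneg_right h4 hlb.le
  linarith

/-- **The law for truncated sequences of size `b ^ p`.** -/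
theorem asy_pm_trunc : ∀ ε : ℝ, 0 < ε → ε < 1 → ∃ δ : ℝ, 0 < δ ∧ δ < 1 ∧ ∀ b : ℕ, 2 ≤ b →
    ∀ c C : ℝ, 0 < c → 0 < C → ∀ Q m : ℕ → ℕ,
    (∀ᶠ p : ℕ in atTop, c * (b : ℝ) ^ p ≤ Q p ∧ (Q p : ℝ) ≤ C * (b : ℝ) ^ p) →
    (∀ᶠ p in atTop, m p ≤ m (p + 1)) → (∀ᶠ p in atTop, b ^ m p ≤ Q p) →
    (∀ᶠ p : ℕ in atTop, (1 - δ) * p ≤ m p) →
    ∀ S : Set ℕ, ∀ᵐ t : ℝ, 0 ≤ t → t < 1 →
      Ordr (fun p => b ^ m p * (Q p / b ^ m p) + ⌊(b : ℝ) ^ m p * t⌋₊)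
        ((1 - ε) * (Real.exp Real.eulerMascheroniConstant / Real.log b))
        ((1 + ε) * (Real.exp Real.eulerMascheroniConstant / Real.log b)) S := by
  intro ε hε hε1
  obtain ⟨δ, hδ, hδ1, h⟩ := asy_fb ε hε hε1
  refine ⟨δ, hδ, hδ1, fun b hb c C hc hC Q m hQ hm ht hk S => ?_⟩
  have hb1 : (1 : ℝ) < b := by exact_mod_cast (by omega : 1 < b)
  have hlb : 0 < Real.log b := Real.log_pos hb1
  refine h b hb1 b hb (c / 2) C (by positivity) hC (fun p => b ^ m p * (Q p / b ^ m p)) m hm ?_ S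
  filter_upwards [hQ, ht, hk] with p hp h1 h2
  obtain ⟨a1, a2, a3, -⟩ := trunc_aux2 hb hb1 hc h1 hp.1 hp.2
  refine ⟨a1, a2, a3, ?_⟩
  have := mul_le_mul_of_nonneg_right h2 hlb.le
  linarith

/-- constants arbitrarily close to `c` give the limit `c` -/
lemma lim_of_close2 {F V : ℕ → ℝ} {c : ℝ} (hc : 0 < c)
    (hV : Tendsto V atTop atTop)
    (h : ∀ k : ℕ, ∀ᶠ n : ℕ in atTop, (1 - 1 / ((k : ℝ) + 2)) * c * V n ≤ F n ∧
      F n ≤ (1 + 1 / ((k : ℝ) + 2)) * c * V n) :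
    Tendsto (fun n => F n / V n) atTop (𝓝 c) := by
  rw [Metric.tendsto_nhds]
  intro e he
  obtain ⟨k, hk⟩ := exists_nat_gt (c / e)
  have hk2 : (0 : ℝ) < (k : ℝ) + 2 := by positivity
  have h1 : c * (1 / ((k : ℝ) + 2)) < e := by
    rw [mul_one_div, div_lt_iff₀ hk2]
    rw [div_lt_iff₀ he] at hk
    linarith
  filter_upwards [h k, hV.eventually_gt_atTop 0] with n hn hn0
  rw [Real.dist_eq, abs_lt]
  have h2 : F n / V n ≤ (1 + 1 / ((k : ℝ) + 2)) * c := by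
    rw [div_le_iff₀ hn0]
    exact hn.2
  have h3 : (1 - 1 / ((k : ℝ) + 2)) * c ≤ F n / V n := by
    rw [le_div_iff₀ hn0]
    exact hn.1
  constructor <;> linarith

end Pool.Agent.Y895.PT
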