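import Pool.Agent.Y895.PS.R3
import Pool.Agent.Y895.SQ.S12

set_option autoImplicit false

/-!
# Truncated sequences, and the limit form
-/

open Finset Filter Topology MeasureTheory Asymptotics

namespace Pool.Agent.Y895.PS

open Pool.Agent.Y895.SQ

/-- **The law for truncated sequences, constants close to the right one.** -/
theorem asy_prime_trunc : ∀ ε : ℝ, 0 < ε → ε < 1 → ∃ δ : ℝ, 0 < δ ∧ δ < 1 ∧
    ∀ α : ℝ, 1 < α → ∀ b : ℕ, 2 ≤ b → ∀ c C : ℝ, 0 < c → 0 < C → ∀ Q m : ℕ → ℕ,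
    (∀ᶠ p : ℕ in atTop, c * α ^ p ≤ Q p ∧ (Q p : ℝ) ≤ C * α ^ p) →
    (∀ᶠ p in atTop, m p ≤ m (p + 1)) → Grow m → (∀ᶠ p in atTop, b ^ m p ≤ Q p) →
    (∀ᶠ p : ℕ in atTop, Real.log (Q p / b ^ m p : ℕ) ≤ δ * Real.log α * p) →
    ∀ S : Set ℕ, ∀ᵐ t : ℝ, 0 ≤ t → t < 1 →
      OrdN (fun p => b ^ m p * (Q p / b ^ m p) + ⌊(b : ℝ) ^ m p * t⌋₊)
        ((1 - ε) / Real.log α) ((1 + ε) / Real.log α) S := by
  intro ε hε hε1
  obtain ⟨δ, hδ, hδ1, h⟩ := asy_prime ε hε hε1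
  refine ⟨δ / 2, by positivity, by linarith,
    fun α hα b hb c C hc hC Q m hQ hm hg ht hk S => ?_⟩
  refine h α hα b hb (c / 2) C (by positivity) hC (fun p => b ^ m p * (Q p / b ^ m p)) m hm hg ?_ S
  have hlb : 0 < Real.log α := Real.log_pos hα
  filter_upwards [hQ, ht, hk, ev_lin ((|Real.log c| + Real.log 2) / (δ / 2 * Real.log α))]
    with p hp h1 h2 h3
  rw [div_le_iff₀ (by positivity)] at h3
  obtain ⟨a1, a2, a3, a4⟩ := trunc_aux hb hα hc h1 hp.1 hp.2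
  refine ⟨a1, a2, a3, ?_⟩
  linarith

/-- **The law, base `b` and growth `b ^ n`, constants close to the right one.** -/
theorem asy_base_trunc : ∀ ε : ℝ, 0 < ε → ε < 1 → ∃ δ : ℝ, 0 < δ ∧ δ < 1 ∧ ∀ b : ℕ, 2 ≤ b →
    ∀ c C : ℝ, 0 < c → 0 < C → ∀ Q m : ℕ → ℕ,
    (∀ᶠ p : ℕ in atTop, c * (b : ℝ) ^ p ≤ Q p ∧ (Q p : ℝ) ≤ C * (b : ℝ) ^ p) →
    (∀ᶠ p in atTop, m p ≤ m (p + 1)) → Grow m → (∀ᶠ p in atTop, b ^ m p ≤ Q p) →
    (∀ᶠ p : ℕ in atTop, (1 - δ) * p ≤ m p) →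
    ∀ S : Set ℕ, ∀ᵐ t : ℝ, 0 ≤ t → t < 1 →
      OrdN (fun p => b ^ m p * (Q p / b ^ m p) + ⌊(b : ℝ) ^ m p * t⌋₊)
        ((1 - ε) / Real.log b) ((1 + ε) / Real.log b) S := by
  intro ε hε hε1
  obtain ⟨δ, hδ, hδ1, h⟩ := asy_prime ε hε hε1
  refine ⟨δ, hδ, hδ1, fun b hb c C hc hC Q m hQ hm hg ht hk S => ?_⟩
  have hb1 : (1 : ℝ) < b := by exact_mod_cast (by omega : 1 < b)
  have hlb : 0 < Real.log b := Real.log_pos hb1
  refine h b hb1 b hb (c / 2) C (by positivity) hC (fun p => b ^ m p * (Q p / b ^ m p)) m hm hg ?_ S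
  filter_upwards [hQ, ht, hk] with p hp h1 h2
  obtain ⟨a1, a2, a3, -⟩ := trunc_aux hb hb1 hc h1 hp.1 hp.2
  refine ⟨a1, a2, a3, ?_⟩
  have := mul_le_mul_of_nonneg_right h2 hlb.le
  linarith

/-- constants arbitrarily close to `c` give the limit `c` -/
lemma lim_of_close {F V : ℕ → ℝ} {c : ℝ} (hc : 0 < c)
    (hV : Tendsto V atTop atTop)
    (h : ∀ k : ℕ, ∀ᶠ n : ℕ in atTop, (1 - 1 / ((k : ℝ) + 2)) * c * V n ≤ F n ∧
      F n ≤ (1 + 1 / ((k : ℝ) + 2)) * c * V n) :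
    Tendsto (fun n => F n / V n) atTop (𝓝 c) := by
  rw [Metric.tendsto_nhds]
  intro e he
  obtain ⟨k, hk⟩ := exists_nat_gt (c / e)
  have hk2 : (0 : ℝ) < (k : ℝ) + 2 := by positivity
  have h1 : c * (1 / ((k : ℝ) + 2)) < e := by
    rw [mul_one_div, div_lt_iff₀ hk2]
    rw [div_lt_iff₀ he] at hk
    linarith
  filter_upwards [h k, hV.eventually_gt_atTop 0] with n hn hn0
  rw [Real.dist_eq, abs_lt]
  have h2 : F n / V n ≤ (1 + 1 / ((k : ℝ) + 2)) * c := by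
    rw [div_le_iff₀ hn0]
    exact hn.2
  have h3 : (1 - 1 / ((k : ℝ) + 2)) * c ≤ F n / V n := by
    rw [le_div_iff₀ hn0]
    exact hn.1
  constructor <;> linarith

end Pool.Agent.Y895.PS
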