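import Pool.Agent.W66.ZC

set_option autoImplicit false

/-!
# A linear bound for the logarithmic derivative of the zeta function to the right of one
-/

open Complex Filter Topology Set MeasureTheory Metric

namespace Pool.Agent.Y895.PS

open Pool.Agent.W66

/-- the Dirichlet series is dominated by its value at the real part -/
lemma norm_LS {σ t : ℝ} (hσ : 1 < σ) :
    ‖LSeries (fun n => (ArithmeticFunction.vonMangoldt n : ℂ)) ⟨σ, t⟩‖ ≤
      ‖LSeries (fun n => (ArithmeticFunction.vonMangoldt n : ℂ)) (σ : ℂ)‖ := by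
  set f : ℕ → ℂ := fun n => (ArithmeticFunction.vonMangoldt n : ℂ) with hf
  have h1 : LSeriesSummable f ⟨σ, t⟩ :=
    ArithmeticFunction.LSeriesSummable_vonMangoldt (s := ⟨σ, t⟩) hσ
  have h2 : LSeriesSummable f (σ : ℂ) :=
    ArithmeticFunction.LSeriesSummable_vonMangoldt (s := (σ : ℂ)) (by simpa using hσ)
  have e1 : ∀ n, ‖LSeries.term f ⟨σ, t⟩ n‖ = ‖LSeries.term f (σ : ℂ) n‖ := by
    intro n
    rw [LSeries.norm_term_eq, LSeries.norm_term_eq]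
    simp
  have e2 : ∀ n, LSeries.term f (σ : ℂ) n = ((‖LSeries.term f (σ : ℂ) n‖ : ℝ) : ℂ) := by
    intro n
    rw [LSeries.norm_term_eq, LSeries.term]
    split_ifs with h
    · simp
    · simp only [hf, Complex.norm_real, ofReal_re]
      rw [Real.norm_of_nonneg ArithmeticFunction.vonMangoldt_nonneg]
      push_cast
      rw [Complex.ofReal_cpow (by positivity)]
      push_cast
      rfl
  have e3 : LSeries f (σ : ℂ) = ((∑' n, ‖LSeries.term f (σ : ℂ) n‖ : ℝ) : ℂ) := by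
    rw [LSeries, ofReal_tsum]
    exact tsum_congr e2
  rw [e3, Complex.norm_real, Real.norm_of_nonneg (tsum_nonneg fun _ => norm_nonneg _), LSeries]
  refine (norm_tsum_le_tsum_norm ?_).trans (le_of_eq (tsum_congr e1))
  exact h1.norm

lemma DD_far : ∃ C : ℝ, 0 < C ∧ ∀ t σ : ℝ, 1 < σ → σ ≤ 2 →
    ‖DD ⟨σ, t⟩‖ ≤ 2 / (σ - 1) + C := by
  obtain ⟨c, C, hc, hc8, hC, hzf⟩ := zf_bound
  have hell := one_le_ell 0
  refine ⟨C * (ell 0) ^ 2, by positivity, fun t σ h1 h2 => ?_⟩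
  have h3 : (1 : ℝ) < (⟨σ, t⟩ : ℂ).re := h1
  have h4 : (1 : ℝ) < ((σ : ℂ)).re := by simpa using h1
  have e1 := LSeries_eq_DD h3
  have e2 := LSeries_eq_DD h4
  have h5 := norm_LS (t := t) h1
  have h6 : ‖DD (σ : ℂ)‖ ≤ C * (ell 0) ^ 2 := by
    have := (hzf (σ : ℂ) (by
      simp only [ofReal_im, ofReal_re]
      have : 0 ≤ c / ell 0 := by positivity
      linarith) (by simpa using h2)).2
    simpa using this
  have h7 : ‖1 / ((σ : ℂ) - 1)‖ = 1 / (σ - 1) := by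
    rw [norm_div, norm_one]
    have : (σ : ℂ) - 1 = ((σ - 1 : ℝ) : ℂ) := by push_cast; ring
    rw [this, Complex.norm_real, Real.norm_of_nonneg (by linarith)]
  have h8 : ‖1 / ((⟨σ, t⟩ : ℂ) - 1)‖ ≤ 1 / (σ - 1) := by
    rw [norm_div, norm_one]
    apply one_div_le_one_div_of_le (by linarith)
    have := (le_abs_self _).trans (Complex.abs_re_le_norm ((⟨σ, t⟩ : ℂ) - 1))
    simpa using this
  have e3 : DD ⟨σ, t⟩ = 1 / ((⟨σ, t⟩ : ℂ) - 1) -
      LSeries (fun n => (ArithmeticFunction.vonMangoldt n : ℂ)) ⟨σ, t⟩ := by rw [e1]; ring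
  rw [e3]
  refine (norm_sub_le _ _).trans ?_
  have h9 : ‖LSeries (fun n => (ArithmeticFunction.vonMangoldt n : ℂ)) (σ : ℂ)‖ ≤
      1 / (σ - 1) + C * (ell 0) ^ 2 := by
    rw [e2]
    refine (norm_sub_le _ _).trans ?_
    rw [h7]
    linarith
  have : 2 / (σ - 1) = 1 / (σ - 1) + 1 / (σ - 1) := by ring
  linarith

/-- comparison of the sums over zeros at two points -/
lemma sum_cmp {σ σ0 t a Q l : ℝ} (hl : 0 < l) (h1 : 1 < σ) (h01 : σ ≤ σ0) (h0 : σ0 = 1 + l)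
    (ha : 0 < a) (hQ : 1 + l / a ≤ Q) (m : Multiset ℂ) (hm : ∀ ρ ∈ m, ρ.re ≤ 1 - a) :
    ‖(m.map (fun ρ => 1 / ((⟨σ, t⟩ : ℂ) - ρ))).sum - (m.map (fun ρ => 1 / ((⟨σ0, t⟩ : ℂ) - ρ))).sum‖
      ≤ Q * ((m.map (fun ρ => 1 / ((⟨σ0, t⟩ : ℂ) - ρ))).sum).re := by
  induction m using Multiset.induction_on with
  | empty => simp
  | cons ρ m ih =>
    have hρ := hm ρ (Multiset.mem_cons_self ρ m)
    have ih' := ih fun r hr => hm r (Multiset.mem_cons_of_mem hr)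
    rw [Multiset.map_cons, Multiset.sum_cons, Multiset.map_cons, Multiset.sum_cons, add_re, mul_add]
    have e : 1 / ((⟨σ, t⟩ : ℂ) - ρ) + (m.map (fun ρ => 1 / ((⟨σ, t⟩ : ℂ) - ρ))).sum -
        (1 / ((⟨σ0, t⟩ : ℂ) - ρ) + (m.map (fun ρ => 1 / ((⟨σ0, t⟩ : ℂ) - ρ))).sum) =
        (1 / ((⟨σ, t⟩ : ℂ) - ρ) - 1 / ((⟨σ0, t⟩ : ℂ) - ρ)) +
        ((m.map (fun ρ => 1 / ((⟨σ, t⟩ : ℂ) - ρ))).sum -
          (m.map (fun ρ => 1 / ((⟨σ0, t⟩ : ℂ) - ρ))).sum) := by ring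
    rw [e]
    refine (norm_add_le _ _).trans (add_le_add ?_ ih')
    set u : ℂ := (⟨σ, t⟩ : ℂ) - ρ with hu
    set v : ℂ := (⟨σ0, t⟩ : ℂ) - ρ with hv
    have hure : a ≤ u.re := by
      rw [hu, sub_re]
      simp only
      linarith
    have hvre : l ≤ v.re := by
      rw [hv, sub_re]
      simp only
      linarith
    have hun : a ≤ ‖u‖ := hure.trans ((le_abs_self _).trans (Complex.abs_re_le_norm u))
    have hvn : l ≤ ‖v‖ := hvre.trans ((le_abs_self _).trans (Complex.abs_re_le_norm v))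
    have hu0 : 0 < ‖u‖ := by linarith
    have hv0 : 0 < ‖v‖ := by linarith
    have hune : u ≠ 0 := norm_pos_iff.1 hu0
    have hvne : v ≠ 0 := norm_pos_iff.1 hv0
    have hvu : v - u = ((σ0 - σ : ℝ) : ℂ) := by
      rw [hu, hv]
      apply Complex.ext <;> simp
    have hvun : ‖v - u‖ ≤ l := by
      rw [hvu, Complex.norm_real, Real.norm_of_nonneg (by linarith)]
      linarith
    have hvle : ‖v‖ ≤ Q * ‖u‖ := by
      have h2 : ‖v‖ ≤ ‖v - u‖ + ‖u‖ := by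
        calc ‖v‖ = ‖(v - u) + u‖ := by rw [sub_add_cancel]
          _ ≤ _ := norm_add_le _ _
      have h3 : l ≤ l / a * ‖u‖ := by
        calc l = l / a * a := by field_simp
          _ ≤ l / a * ‖u‖ := mul_le_mul_of_nonneg_left hun (by positivity)
      have h4 := mul_le_mul_of_nonneg_right hQ hu0.le
      linarith
    have e2 : 1 / u - 1 / v = (v - u) / (u * v) := by
      field_simp
    have e3 : (1 / v).re = v.re / ‖v‖ ^ 2 := by
      rw [one_div, Complex.inv_re, Complex.normSq_eq_norm_sq]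
    rw [e2, e3, norm_div, norm_mul]
    have h5 : ‖v - u‖ / (‖u‖ * ‖v‖) ≤ l / (‖u‖ * ‖v‖) :=
      div_le_div_of_nonneg_right hvun (by positivity)
    have h6 : l / (‖u‖ * ‖v‖) ≤ Q * (l / ‖v‖ ^ 2) := by
      rw [div_le_iff₀ (by positivity)]
      have : Q * (l / ‖v‖ ^ 2) * (‖u‖ * ‖v‖) = l * (Q * ‖u‖) / ‖v‖ := by field_simp
      rw [this, le_div_iff₀ hv0]
      exact mul_le_mul_of_nonneg_left hvle hl.le
    have hQ0 : 0 ≤ Q := by
      have : 0 ≤ l / a := by positivity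
      linarith
    have h7 : Q * (l / ‖v‖ ^ 2) ≤ Q * (v.re / ‖v‖ ^ 2) :=
      mul_le_mul_of_nonneg_left (div_le_div_of_nonneg_right hvre (by positivity)) hQ0
    linarith

theorem zlin : ∃ C : ℝ, 0 < C ∧ ∀ t σ : ℝ, 1 < σ → σ ≤ 2 → ‖DD ⟨σ, t⟩‖ ≤ C * ell t := by
  obtain ⟨c, hc, hc1, hzf⟩ := zf
  obtain ⟨C0, hC0, hfar⟩ := DD_far
  obtain ⟨K0, hK0, hball⟩ := Z1_ball
  set K1 : ℝ := 2 * (K0 + K0 / Real.log (7 / 4 / (3 / 2)) * Real.log (3 / 2 / (7 / 4 - 3 / 2)) + 1) *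
    (11 / 8) / (3 / 2 - 11 / 8) / (11 / 8 - 9 / 8) with hK1
  have hl1 : 0 < Real.log (7 / 4 / (3 / 2)) := Real.log_pos (by norm_num)
  have hl2 : 0 < Real.log (3 / 2 / (7 / 4 - 3 / 2)) := Real.log_pos (by norm_num)
  have hK1pos : 0 < K1 := by
    rw [hK1]
    have : 0 < K0 / Real.log (7 / 4 / (3 / 2)) * Real.log (3 / 2 / (7 / 4 - 3 / 2)) := by positivity
    have h2 : (0 : ℝ) < 3 / 2 - 11 / 8 := by norm_num
    have h3 : (0 : ℝ) < 11 / 8 - 9 / 8 := by norm_num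
    positivity
  set K2 : ℝ := 2 + C0 with hK2
  set Q : ℝ := 1 + 2 / c with hQ
  have hQ0 : 0 < Q := by positivity
  have hK20 : 0 < K2 := by positivity
  refine ⟨K1 + Q * (K1 + K2) + (K1 + K2), by positivity, fun t σ h1 h2 => ?_⟩
  have hell := one_le_ell t
  have hell0 : 0 < ell t := by linarith
  have hinv : 1 / ell t ≤ 1 := by
    rw [div_le_one hell0]
    exact hell
  have hinv0 : 0 < 1 / ell t := by positivity
  have hfar' : ∀ σ : ℝ, 1 + 1 / ell t ≤ σ → σ ≤ 2 → ‖DD ⟨σ, t⟩‖ ≤ K2 * ell t := by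
    intro σ h3 h4
    refine (hfar t σ (by linarith) h4).trans ?_
    have h5 : 2 / (σ - 1) ≤ 2 * ell t := by
      rw [div_le_iff₀ (by linarith)]
      have : 1 / ell t ≤ σ - 1 := by linarith
      have h6 := mul_le_mul_of_nonneg_left this hell0.le
      rw [mul_one_div_cancel hell0.ne'] at h6
      linarith
    have h6 : C0 ≤ C0 * ell t := le_mul_of_one_le_right hC0.le hell
    rw [hK2, add_mul]
    linarith
  by_cases hcase : 1 + 1 / ell t ≤ σ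
  · refine (hfar' σ hcase h2).trans ?_
    apply mul_le_mul_of_nonneg_right _ hell0.le
    have : 0 < Q * (K1 + K2) := by positivity
    linarith
  push Not at hcase
  set σ0 : ℝ := 1 + 1 / ell t with hσ0
  obtain ⟨M, hM1, hMb, hl0, hlK⟩ := hball t
  have hcn : Z1 ⟨2, t⟩ ≠ 0 := Z1_ne_zero (by norm_num)
  have hcb : ‖Z1 ⟨2, t⟩‖ ≤ M := hMb _ (mem_closedBall_self (by norm_num))
  obtain ⟨s, hs1, hs2, hs3⟩ := landau_re (f := Z1) (c := ⟨2, t⟩) (r := 3 / 2) (r1 := 11 / 8)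
    (r2 := 9 / 8) (R := 7 / 4) (M := M) (by norm_num) (by norm_num) (by norm_num) (by norm_num)
    (by norm_num) hM1 hcb (fun z _ => Z1_diff.analyticAt z) hcn hMb
  have hz : ∀ σ : ℝ, 1 < σ → σ ≤ 2 → (⟨σ, t⟩ : ℂ) ∈ closedBall (⟨2, t⟩ : ℂ) (9 / 8) := by
    intro σ h1 h2
    rw [mem_closedBall, dist_eq_norm]
    have e : (⟨σ, t⟩ : ℂ) - ⟨2, t⟩ = ((σ - 2 : ℝ) : ℂ) := by
      apply Complex.ext <;> simp
    rw [e, Complex.norm_real, Real.norm_eq_abs, abs_le]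
    constructor <;> linarith
  set a : ℝ := c / (2 * ell t) with ha
  have ha0 : 0 < a := by positivity
  have hre : ∀ ρ ∈ s, ρ.re ≤ 1 - a := by
    intro ρ hρ
    obtain ⟨h3, h4⟩ := hs1 ρ hρ
    have h5 := hzf ρ h4
    rw [mem_closedBall, dist_eq_norm] at h3
    have h6 := (Complex.abs_im_le_norm (ρ - ⟨2, t⟩)).trans h3
    simp only [sub_im] at h6
    have h7 : ell ρ.im ≤ 2 * ell t := ell_near (by linarith)
    have h8 : 0 < ell ρ.im := by linarith [one_le_ell ρ.im]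
    have h9 : c / (2 * ell t) ≤ c / ell ρ.im := div_le_div_of_nonneg_left hc.le h8 h7
    linarith
  have hzne : ∀ σ : ℝ, 1 < σ → ∀ ρ ∈ s, (⟨σ, t⟩ : ℂ) ≠ ρ := by
    intro σ h1 ρ hρ he
    have := hre ρ hρ
    rw [← he] at this
    simp at this
    linarith
  have hbd : 2 * (Real.log (M / ‖Z1 ⟨2, t⟩‖) + Real.log (M / ‖Z1 ⟨2, t⟩‖) /
      Real.log (7 / 4 / (3 / 2)) * Real.log (3 / 2 / (7 / 4 - 3 / 2)) + 1) * (11 / 8) /
      (3 / 2 - 11 / 8) / (11 / 8 - 9 / 8) ≤ K1 * ell t := by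
    have e1 : Real.log (M / ‖Z1 ⟨2, t⟩‖) + Real.log (M / ‖Z1 ⟨2, t⟩‖) /
      Real.log (7 / 4 / (3 / 2)) * Real.log (3 / 2 / (7 / 4 - 3 / 2)) + 1 ≤
      (K0 + K0 / Real.log (7 / 4 / (3 / 2)) * Real.log (3 / 2 / (7 / 4 - 3 / 2)) + 1) * ell t := by
      have e2 : Real.log (M / ‖Z1 ⟨2, t⟩‖) /
        Real.log (7 / 4 / (3 / 2)) * Real.log (3 / 2 / (7 / 4 - 3 / 2)) ≤
        (K0 * ell t) / Real.log (7 / 4 / (3 / 2)) * Real.log (3 / 2 / (7 / 4 - 3 / 2)) := by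
        gcongr
      have e3 : (K0 * ell t) / Real.log (7 / 4 / (3 / 2)) * Real.log (3 / 2 / (7 / 4 - 3 / 2)) =
        K0 / Real.log (7 / 4 / (3 / 2)) * Real.log (3 / 2 / (7 / 4 - 3 / 2)) * ell t := by ring
      rw [e3] at e2
      nlinarith
    have h3 : (0 : ℝ) < 3 / 2 - 11 / 8 := by norm_num
    have h4 : (0 : ℝ) < 11 / 8 - 9 / 8 := by norm_num
    calc _ ≤ 2 * ((K0 + K0 / Real.log (7 / 4 / (3 / 2)) * Real.log (3 / 2 / (7 / 4 - 3 / 2)) + 1) *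
        ell t) * (11 / 8) / (3 / 2 - 11 / 8) / (11 / 8 - 9 / 8) := by gcongr
      _ = K1 * ell t := by rw [hK1]; ring
  have m1 := (hs3 _ (hz σ h1 h2) (hzne σ h1)).trans hbd
  have m2 := (hs3 _ (hz σ0 (by linarith) (by linarith)) (hzne σ0 (by linarith))).trans hbd
  have m3 := hfar' σ0 le_rfl (by linarith)
  have m4 := sum_cmp (σ := σ) (σ0 := σ0) (t := t) (a := a) (Q := Q) hinv0 h1 hcase.le rfl ha0
    (by
      rw [hQ, ha]
      have : 1 / ell t / (c / (2 * ell t)) = 2 / c := by field_simp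
      rw [this]) s hre
  have m5 := Complex.re_le_norm ((s.map (fun ρ => 1 / ((⟨σ0, t⟩ : ℂ) - ρ))).sum)
  set A := (s.map (fun ρ => 1 / ((⟨σ, t⟩ : ℂ) - ρ))).sum with hA
  set B := (s.map (fun ρ => 1 / ((⟨σ0, t⟩ : ℂ) - ρ))).sum with hB
  have m6 : ‖B‖ ≤ K1 * ell t + K2 * ell t := by
    have e : B = DD ⟨σ0, t⟩ - (deriv Z1 ⟨σ0, t⟩ / Z1 ⟨σ0, t⟩ - B) := by
      unfold DD
      ring
    rw [e]
    refine (norm_sub_le _ _).trans ?_
    linarith
  have m7 : ‖A‖ ≤ ‖B‖ + Q * ‖B‖ := by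
    have e : A = B + (A - B) := by ring
    rw [e]
    refine (norm_add_le _ _).trans ?_
    have := mul_le_mul_of_nonneg_left m5 hQ0.le
    linarith
  have m8 : ‖DD ⟨σ, t⟩‖ ≤ K1 * ell t + ‖A‖ := by
    have e : DD ⟨σ, t⟩ = (deriv Z1 ⟨σ, t⟩ / Z1 ⟨σ, t⟩ - A) + A := by
      unfold DD
      ring
    rw [e]
    refine (norm_add_le _ _).trans ?_
    linarith
  have m9 := mul_le_mul_of_nonneg_left m6 hQ0.le
  have e : (K1 + Q * (K1 + K2) + (K1 + K2)) * ell t = K1 * ell t +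
    Q * (K1 * ell t + K2 * ell t) + (K1 * ell t + K2 * ell t) := by ring
  rw [e]
  linarith

end Pool.Agent.Y895.PS
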