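import Mathlib
import Pool.Agent.Helper625.Planch

set_option autoImplicit false

/-!
# A bound for triple convolutions by the supremum of the Fourier transform
-/

open MeasureTheory Filter Topology FourierTransform Convolution

namespace Pool.Agent.Y895.PS

/-- convolution of real functions -/
noncomputable def cnv (f g : ℝ → ℝ) (v : ℝ) : ℝ := ∫ u, f u * g (v - u)

lemma cnv_eq (f g : ℝ → ℝ) (v : ℝ) :
    ((fun x => (f x : ℂ)) ⋆[ContinuousLinearMap.mul ℂ ℂ, volume] (fun x => (g x : ℂ))) v =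
      ((cnv f g v : ℝ) : ℂ) := by
  unfold MeasureTheory.convolution cnv
  rw [← integral_complex_ofReal]
  simp

/-- the integrand of a convolution of an integrable and a bounded function -/
lemma cnv_int {f g : ℝ → ℝ} (hf : Integrable f) (hg : Measurable g) {B : ℝ}
    (hB : ∀ x, |g x| ≤ B) (v : ℝ) : Integrable fun u => f u * g (v - u) := by
  refine hf.mul_bdd (c := B) ?_ (Eventually.of_forall fun u => ?_)
  · exact (hg.comp (measurable_const.sub measurable_id)).aestronglyMeasurable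
  · rw [Real.norm_eq_abs]
    exact hB _

lemma cnv_integrable {f g : ℝ → ℝ} (hf : Integrable f) (hg : Integrable g) :
    Integrable (cnv f g) := by
  have h := hf.ofReal (𝕜 := ℂ) |>.integrable_convolution (ContinuousLinearMap.mul ℂ ℂ)
    (hg.ofReal (𝕜 := ℂ))
  have h2 : Integrable fun v => ((cnv f g v : ℝ) : ℂ) := by
    refine h.congr (Eventually.of_forall fun v => ?_)
    exact cnv_eq f g v
  have h3 := h2.re
  simpa using h3

lemma cnv_abs_le {f g : ℝ → ℝ} (hf : Integrable f) (hg : Measurable g) {B : ℝ}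
    (hB : ∀ x, |g x| ≤ B) (v : ℝ) : |cnv f g v| ≤ (∫ u, |f u|) * B := by
  unfold cnv
  refine (abs_integral_le_integral_abs).trans ?_
  rw [← integral_mul_const]
  refine integral_mono (cnv_int hf hg hB v).abs (hf.abs.mul_const B) fun u => ?_
  simp only [abs_mul]
  exact mul_le_mul_of_nonneg_left (hB _) (abs_nonneg _)

lemma memLp_of {f : ℝ → ℝ} (hf : Integrable f) {B : ℝ} (hB : ∀ x, |f x| ≤ B) : MemLp f 2 := by
  rw [memLp_two_iff_integrable_sq hf.aestronglyMeasurable]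
  have : (fun x => f x ^ 2) = fun x => f x * f x := by
    funext x
    ring
  rw [this]
  refine hf.mul_bdd (c := B) hf.aestronglyMeasurable (Eventually.of_forall fun u => ?_)
  rw [Real.norm_eq_abs]
  exact hB _

lemma sq_int_of {f : ℝ → ℝ} (hf : Integrable f) {B : ℝ} (hB : ∀ x, |f x| ≤ B) :
    Integrable fun x => f x ^ 2 :=
  (memLp_two_iff_integrable_sq hf.aestronglyMeasurable).1 (memLp_of hf hB)

/-- Cauchy-Schwarz -/
lemma cs {f g : ℝ → ℝ} (hf : MemLp f 2) (hg : MemLp g 2) :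
    (∫ x, |f x| * |g x|) ^ 2 ≤ (∫ x, f x ^ 2) * ∫ x, g x ^ 2 := by
  have h := integral_mul_norm_le_Lp_mul_Lq (μ := volume) (f := f) (g := g)
    Real.HolderConjugate.two_two (by simpa using hf) (by simpa using hg)
  have e : ∀ k : ℝ → ℝ, ∫ x, ‖k x‖ ^ (2 : ℝ) = ∫ x, k x ^ 2 := by
    intro k
    refine integral_congr_ae (Eventually.of_forall fun x => ?_)
    simp only [Real.norm_eq_abs, Real.rpow_two, sq_abs]
  rw [e, e] at h
  have h0 : ∀ k : ℝ → ℝ, 0 ≤ ∫ x, k x ^ 2 := fun k => integral_nonneg fun x => sq_nonneg _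
  have h1 : 0 ≤ ∫ x, |f x| * |g x| := integral_nonneg fun x => by positivity
  have h2 : ∫ x, ‖f x‖ * ‖g x‖ = ∫ x, |f x| * |g x| := rfl
  rw [h2, ← Real.sqrt_eq_rpow, ← Real.sqrt_eq_rpow] at h
  calc (∫ x, |f x| * |g x|) ^ 2 ≤ (√(∫ x, f x ^ 2) * √(∫ x, g x ^ 2)) ^ 2 :=
        pow_le_pow_left₀ h1 h 2
    _ = _ := by rw [mul_pow, Real.sq_sqrt (h0 f), Real.sq_sqrt (h0 g)]

lemma norm_int_sq (f : ℝ → ℝ) : ∫ x, ‖((f x : ℝ) : ℂ)‖ ^ 2 = ∫ x, f x ^ 2 := by
  refine integral_congr_ae (Eventually.of_forall fun x => ?_)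
  simp

/-- **Mean square of a convolution square.** -/
lemma cnv_sq {g : ℝ → ℝ} (hg : Integrable g) (hm : Measurable g) {B S : ℝ} (hB : ∀ x, |g x| ≤ B)
    (hS : ∀ ξ, ‖𝓕 (fun x => (g x : ℂ)) ξ‖ ≤ S) :
    ∫ x, cnv g g x ^ 2 ≤ S ^ 2 * ∫ x, g x ^ 2 := by
  have hc := cnv_integrable hg hg
  have hcB : ∀ x, |cnv g g x| ≤ (∫ u, |g u|) * B := fun x => cnv_abs_le hg hm hB x
  have h1 := Pool.Agent.Helper625.Planch.plancherel (fun x => ((cnv g g x : ℝ) : ℂ)) hc.ofReal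
    (memLp_of hc hcB).ofReal
  have h2 := Pool.Agent.Helper625.Planch.plancherel (fun x => ((g x : ℝ) : ℂ)) hg.ofReal
    (memLp_of hg hB).ofReal
  have hF : 𝓕 (fun x => ((cnv g g x : ℝ) : ℂ)) = fun ξ => 𝓕 (fun x => (g x : ℂ)) ξ *
      𝓕 (fun x => (g x : ℂ)) ξ := by
    funext ξ
    have h3 := Real.fourier_mul_convolution_eq (R := ℂ) (f₁ := fun x => ((g x : ℝ) : ℂ))
      (f₂ := fun x => ((g x : ℝ) : ℂ)) hg.ofReal hg.ofReal ξ
    have h4 : (fun x => ((cnv g g x : ℝ) : ℂ)) = ((fun x => ((g x : ℝ) : ℂ))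
        ⋆[ContinuousLinearMap.mul ℂ ℂ, volume] (fun x => ((g x : ℝ) : ℂ))) := by
      funext v
      exact (cnv_eq g g v).symm
    rw [h4, h3]
  rw [← norm_int_sq, ← h1.2, ← norm_int_sq g, ← h2.2, hF, ← integral_const_mul]
  have hi : Integrable fun ξ => ‖𝓕 (fun x => (g x : ℂ)) ξ‖ ^ 2 :=
    (memLp_two_iff_integrable_sq_norm h2.1.aestronglyMeasurable).1 h2.1
  have hS0 : 0 ≤ S := (norm_nonneg _).trans (hS 0)
  refine integral_mono_of_nonneg (Eventually.of_forall fun ξ => by positivity)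
    (hi.const_mul (S ^ 2)) (Eventually.of_forall fun ξ => ?_)
  simp only [norm_mul]
  have h4 : ‖𝓕 (fun x => (g x : ℂ)) ξ‖ ^ 2 ≤ S ^ 2 := pow_le_pow_left₀ (norm_nonneg _) (hS ξ) 2
  calc (‖𝓕 (fun x => (g x : ℂ)) ξ‖ * ‖𝓕 (fun x => (g x : ℂ)) ξ‖) ^ 2 =
      ‖𝓕 (fun x => (g x : ℂ)) ξ‖ ^ 2 * ‖𝓕 (fun x => (g x : ℂ)) ξ‖ ^ 2 := by ring
    _ ≤ S ^ 2 * ‖𝓕 (fun x => (g x : ℂ)) ξ‖ ^ 2 := mul_le_mul_of_nonneg_right h4 (by positivity)

/-- **Triple convolutions.** -/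
theorem cnv3 {g : ℝ → ℝ} (hg : Integrable g) (hm : Measurable g) {B S : ℝ} (hB : ∀ x, |g x| ≤ B)
    (hS : ∀ ξ, ‖𝓕 (fun x => (g x : ℂ)) ξ‖ ≤ S) (z : ℝ) :
    |cnv (cnv g g) g z| ≤ S * ∫ x, g x ^ 2 := by
  have hS0 : 0 ≤ S := (norm_nonneg _).trans (hS 0)
  have hG0 : 0 ≤ ∫ x, g x ^ 2 := integral_nonneg fun x => sq_nonneg _
  have hc := cnv_integrable hg hg
  have hcB : ∀ x, |cnv g g x| ≤ (∫ u, |g u|) * B := fun x => cnv_abs_le hg hm hB x
  have hgz : Integrable fun u => g (z - u) := hg.comp_sub_left z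
  have h1 : |cnv (cnv g g) g z| ≤ ∫ u, |cnv g g u| * |g (z - u)| := by
    unfold cnv
    refine (abs_integral_le_integral_abs).trans (le_of_eq ?_)
    refine integral_congr_ae (Eventually.of_forall fun u => ?_)
    simp only [abs_mul]
  have h2 := cs (memLp_of hc hcB) (memLp_of hgz (fun x => hB (z - x)))
  have h3 : ∫ x, g (z - x) ^ 2 = ∫ x, g x ^ 2 :=
    integral_sub_left_eq_self (fun x => g x ^ 2) volume z
  rw [h3] at h2
  have h4 := cnv_sq hg hm hB hS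
  have h5 : (∫ u, |cnv g g u| * |g (z - u)|) ^ 2 ≤ (S * ∫ x, g x ^ 2) ^ 2 := by
    refine h2.trans ((mul_le_mul_of_nonneg_right h4 hG0).trans (le_of_eq ?_))
    ring
  exact h1.trans (abs_le_of_sq_le_sq' h5 (by positivity)).2

end Pool.Agent.Y895.PS
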