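import Pool.Agent.Y895.PS.P1

set_option autoImplicit false

/-!
# Calculus of convolutions of bounded integrable functions
-/

open MeasureTheory Filter Topology Set

namespace Pool.Agent.Y895.PS

/-- bounded, measurable and integrable -/
structure BI (f : ℝ → ℝ) (B : ℝ) : Prop where
  int : Integrable f
  meas : Measurable f
  bd : ∀ x, |f x| ≤ B

lemma cnv_meas {f g : ℝ → ℝ} (hf : Measurable f) (hg : Measurable g) : Measurable (cnv f g) := by
  unfold cnv
  have h : StronglyMeasurable (Function.uncurry fun v u : ℝ => f u * g (v - u)) := by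
    apply Measurable.stronglyMeasurable
    exact (hf.comp measurable_snd).mul (hg.comp (measurable_fst.sub measurable_snd))
  exact h.integral_prod_right.measurable

lemma cnv_comm (f g : ℝ → ℝ) (v : ℝ) : cnv f g v = cnv g f v := by
  unfold cnv
  rw [← integral_sub_left_eq_self (fun u => f u * g (v - u)) volume v]
  refine integral_congr_ae (Eventually.of_forall fun u => ?_)
  simp only [sub_sub_cancel]
  ring

lemma BI.cnv {f g : ℝ → ℝ} {B C : ℝ} (hf : BI f B) (hg : BI g C) :
    BI (cnv f g) ((∫ u, |f u|) * C) :=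
  ⟨cnv_integrable hf.int hg.int, cnv_meas hf.meas hg.meas, fun x => cnv_abs_le hf.int hg.meas hg.bd x⟩

lemma BI.cnv_le {f g : ℝ → ℝ} {B C : ℝ} (hf : BI f B) (hg : BI g C) (v : ℝ) :
    |Pool.Agent.Y895.PS.cnv f g v| ≤ (∫ u, |f u|) * C := cnv_abs_le hf.int hg.meas hg.bd v

lemma BI.cnv_le' {f g : ℝ → ℝ} {B C : ℝ} (hf : BI f B) (hg : BI g C) (v : ℝ) :
    |Pool.Agent.Y895.PS.cnv f g v| ≤ B * ∫ u, |g u| := by
  rw [cnv_comm, mul_comm]
  exact hg.cnv_le hf v

lemma cnv_add_left {f g k : ℝ → ℝ} {B C D : ℝ} (hf : BI f B) (hg : BI g C) (hk : BI k D) (v : ℝ) :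
    cnv (fun x => f x + g x) k v = cnv f k v + cnv g k v := by
  unfold cnv
  rw [← integral_add (cnv_int hf.int hk.meas hk.bd v) (cnv_int hg.int hk.meas hk.bd v)]
  refine integral_congr_ae (Eventually.of_forall fun u => ?_)
  simp only
  ring

lemma cnv_add_right {f g k : ℝ → ℝ} {B C D : ℝ} (hf : BI f B) (hg : BI g C) (hk : BI k D) (v : ℝ) :
    cnv k (fun x => f x + g x) v = cnv k f v + cnv k g v := by
  rw [cnv_comm, cnv_add_left hf hg hk, cnv_comm f k, cnv_comm g k]

lemma BI.add {f g : ℝ → ℝ} {B C : ℝ} (hf : BI f B) (hg : BI g C) : BI (fun x => f x + g x) (B + C) :=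
  ⟨hf.int.add hg.int, hf.meas.add hg.meas, fun x => (abs_add_le _ _).trans
    (add_le_add (hf.bd x) (hg.bd x))⟩

/-- the `L¹` norm of a convolution -/
lemma cnv_l1 {f g : ℝ → ℝ} {B C : ℝ} (hf : BI f B) (hg : BI g C) :
    ∫ v, |cnv f g v| ≤ (∫ u, |f u|) * ∫ u, |g u| := by
  have hi : Integrable (Function.uncurry fun v u : ℝ => |f u| * |g (v - u)|) := by
    have h := (hf.int.abs).convolution_integrand (ContinuousLinearMap.mul ℝ ℝ) (hg.int.abs)
    refine h.congr (Eventually.of_forall fun p => ?_)
    rfl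
  have h1 : ∀ v, |cnv f g v| ≤ ∫ u, |f u| * |g (v - u)| := by
    intro v
    unfold cnv
    refine (abs_integral_le_integral_abs).trans (le_of_eq ?_)
    refine integral_congr_ae (Eventually.of_forall fun u => ?_)
    simp only [abs_mul]
  calc ∫ v, |cnv f g v| ≤ ∫ v, ∫ u, |f u| * |g (v - u)| :=
        integral_mono (cnv_integrable hf.int hg.int).abs hi.integral_prod_left h1
    _ = ∫ u, ∫ v, |f u| * |g (v - u)| := integral_integral_swap hi
    _ = ∫ u, |f u| * ∫ v, |g v| := by
        refine integral_congr_ae (Eventually.of_forall fun u => ?_)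
        simp only
        rw [integral_const_mul, integral_sub_right_eq_self (fun v => |g v|) u]
    _ = _ := integral_mul_const _ _

/-- symmetrisation -/
lemma cnv_sym {f : ℝ → ℝ} {B : ℝ} (hf : BI f B) (hw : Integrable fun u => u * f u) (v : ℝ) :
    ∫ w, w * f w * f (v - w) = v / 2 * cnv f f v := by
  have hi : Integrable fun w => w * f w * f (v - w) := by
    have := cnv_int hw hf.meas hf.bd v
    exact this
  have h1 : ∫ w, w * f w * f (v - w) = ∫ w, (v - w) * f (v - w) * f w := by
    rw [← integral_sub_left_eq_self (fun w => w * f w * f (v - w)) volume v]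
    refine integral_congr_ae (Eventually.of_forall fun u => ?_)
    simp only [sub_sub_cancel]
  have h2 : ∫ w, (v - w) * f (v - w) * f w = v * cnv f f v - ∫ w, w * f w * f (v - w) := by
    unfold cnv
    rw [← integral_const_mul, ← integral_sub ((cnv_int hf.int hf.meas hf.bd v).const_mul v) hi]
    refine integral_congr_ae (Eventually.of_forall fun u => ?_)
    simp only
    ring
  linarith

end Pool.Agent.Y895.PS
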