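import Pool.Agent.Y895.PS.P2

set_option autoImplicit false

/-!
# The convolution identity, and bounds for the terms in it
-/

open MeasureTheory Filter Topology Set

namespace Pool.Agent.Y895.PS

/-- the normalised kernel on `[0, h]` -/
noncomputable def kr (h : ℝ) : ℝ → ℝ := (Icc 0 h).indicator fun _ => 1 / h

lemma kr_nonneg {h : ℝ} (hh : 0 < h) (x : ℝ) : 0 ≤ kr h x := by
  unfold kr
  exact indicator_nonneg (fun _ _ => by positivity) x

lemma kr_zero {h x : ℝ} (hx : ¬ (0 ≤ x ∧ x ≤ h)) : kr h x = 0 := by
  unfold kr
  rw [indicator_of_notMem]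
  exact hx

lemma kr_BI {h : ℝ} (hh : 0 < h) : BI (kr h) (1 / h) := by
  refine ⟨?_, measurable_const.indicator measurableSet_Icc, fun x => ?_⟩
  · unfold kr
    rw [integrable_indicator_iff measurableSet_Icc]
    exact integrableOn_const (by simp) (by simp)
  · rw [abs_of_nonneg (kr_nonneg hh x)]
    unfold kr
    exact indicator_le_self' (fun _ _ => by positivity) x |>.trans le_rfl

lemma kr_int {h : ℝ} (hh : 0 < h) : ∫ x, kr h x = 1 := by
  unfold kr
  rw [integral_indicator measurableSet_Icc, setIntegral_const]
  simp only [smul_eq_mul, Measure.real, Real.volume_Icc, sub_zero]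
  rw [ENNReal.toReal_ofReal hh.le]
  field_simp

lemma kr_abs_int {h : ℝ} (hh : 0 < h) : ∫ x, |kr h x| = 1 := by
  rw [← kr_int hh]
  refine integral_congr_ae (Eventually.of_forall fun x => ?_)
  simp only
  exact abs_of_nonneg (kr_nonneg hh x)

/-- weighted averages over `[0, h]` -/
lemma kr_avg_le {h : ℝ} (hh : 0 < h) {g : ℝ → ℝ} (hg : Measurable g) {K : ℝ}
    (hK : ∀ y, 0 ≤ y → y ≤ h → |g y| ≤ K) :
    Integrable (fun y => kr h y * g y) ∧ |∫ y, kr h y * g y| ≤ K := by
  have hpt : ∀ y, |kr h y * g y| ≤ kr h y * K := by
    intro y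
    rw [abs_mul, abs_of_nonneg (kr_nonneg hh y)]
    by_cases hy : 0 ≤ y ∧ y ≤ h
    · exact mul_le_mul_of_nonneg_left (hK y hy.1 hy.2) (kr_nonneg hh y)
    · rw [kr_zero hy]
      simp
  have hi : Integrable fun y => kr h y * g y :=
    ((kr_BI hh).int.mul_const K).mono' ((kr_BI hh).meas.mul hg).aestronglyMeasurable
      (Eventually.of_forall fun y => by rw [Real.norm_eq_abs]; exact hpt y)
  refine ⟨hi, (abs_integral_le_integral_abs).trans ?_⟩
  calc ∫ y, |kr h y * g y| ≤ ∫ y, kr h y * K :=
        integral_mono hi.abs ((kr_BI hh).int.mul_const K) hpt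
    _ = K := by rw [integral_mul_const, kr_int hh, one_mul]

section

variable {f : ℝ → ℝ} {B C z v0 v1 h : ℝ}

/-- **The convolution identity.** -/
lemma ident (hf : BI f B) (hw : Integrable fun u => u * f u) (hh : 0 < h) :
    cnv (fun u => u * cnv (kr h) f u) f z =
      ∫ y, kr h y * ((z + y) / 2 * cnv f f (z - y)) := by
  have hk := kr_BI hh
  have hwz : Integrable fun u => u * f (z - u) := by
    have h1 : Integrable fun u => (z - u) * f (z - u) := hw.comp_sub_left z
    have h2 : Integrable fun u => z * f (z - u) := (hf.int.comp_sub_left z).const_mul z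
    refine (h2.sub h1).congr (Eventually.of_forall fun u => ?_)
    simp only [Pi.sub_apply]
    ring
  have hi : Integrable (Function.uncurry fun u y : ℝ => kr h y * f (u - y) * (u * f (z - u)))
      (volume.prod volume) := by
    have h1 : Integrable (fun p : ℝ × ℝ => (p.1 * f (z - p.1)) * kr h p.2) (volume.prod volume) :=
      hwz.mul_prod hk.int
    have h2 : Integrable (fun p : ℝ × ℝ => (p.1 * f (z - p.1)) * kr h p.2 * f (p.1 - p.2))
        (volume.prod volume) := by
      refine h1.mul_bdd (c := B) ?_ (Eventually.of_forall fun p => ?_)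
      · exact (hf.meas.comp (measurable_fst.sub measurable_snd)).aestronglyMeasurable
      · rw [Real.norm_eq_abs]
        exact hf.bd _
    refine h2.congr (Eventually.of_forall fun p => ?_)
    simp only [Function.uncurry]
    ring
  calc cnv (fun u => u * cnv (kr h) f u) f z =
      ∫ u, ∫ y, kr h y * f (u - y) * (u * f (z - u)) := by
        unfold cnv
        refine integral_congr_ae (Eventually.of_forall fun u => ?_)
        simp only
        rw [integral_mul_const]
        ring
    _ = ∫ y, ∫ u, kr h y * f (u - y) * (u * f (z - u)) := integral_integral_swap hi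
    _ = ∫ y, kr h y * ((z + y) / 2 * cnv f f (z - y)) := by
        refine integral_congr_ae (Eventually.of_forall fun y => ?_)
        simp only
        have e1 : ∫ u, kr h y * f (u - y) * (u * f (z - u)) =
            kr h y * ∫ u, (u - y + y) * f (u - y) * f (z - y - (u - y)) := by
          rw [← integral_const_mul]
          refine integral_congr_ae (Eventually.of_forall fun u => ?_)
          simp only
          rw [show z - y - (u - y) = z - u by ring]
          ring
        rw [e1, integral_sub_right_eq_self (fun w => (w + y) * f w * f (z - y - w)) y]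
        congr 1
        have h3 := cnv_sym hf hw (z - y)
        have h4 : ∫ w, (w + y) * f w * f (z - y - w) =
            (∫ w, w * f w * f (z - y - w)) + y * cnv f f (z - y) := by
          unfold cnv
          rw [← integral_const_mul, ← integral_add (cnv_int hw hf.meas hf.bd (z - y))
            ((cnv_int hf.int hf.meas hf.bd (z - y)).const_mul y)]
          refine integral_congr_ae (Eventually.of_forall fun u => ?_)
          simp only
          ring
        rw [h4, h3]
        ring

/-- low and high parts -/
lemma ind_BI {S : Set ℝ} (hS : MeasurableSet S) (hf : BI f B) : BI (S.indicator f) B :=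
  ⟨hf.int.indicator hS, hf.meas.indicator hS, fun x => by
    by_cases hx : x ∈ S
    · rw [indicator_of_mem hx]; exact hf.bd x
    · rw [indicator_of_notMem hx, abs_zero]; exact (abs_nonneg _).trans (hf.bd x)⟩

end

end Pool.Agent.Y895.PS
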