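import Pool.Agent.Y895.PS.P3

set_option autoImplicit false

/-!
# From the approximate convolution equation to a pointwise bound
-/

open MeasureTheory Filter Topology Set

namespace Pool.Agent.Y895.PS

lemma ind_const_int {C a : ℝ} (ha : 0 ≤ a) :
    Integrable ((Icc 0 a).indicator fun _ => C) ∧ ∫ u, (Icc 0 a).indicator (fun _ => C) u = C * a := by
  constructor
  · rw [integrable_indicator_iff measurableSet_Icc]
    exact integrableOn_const (by simp) (by simp)
  · rw [integral_indicator measurableSet_Icc, setIntegral_const]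
    simp only [smul_eq_mul, Measure.real, Real.volume_Icc, sub_zero]
    rw [ENNReal.toReal_ofReal ha]
    ring

section

variable {f : ℝ → ℝ} {B C z v0 v1 h : ℝ}

/-- integral of the modulus over `u < a` -/
lemma low_int (hf : BI f B) (hC0 : 0 ≤ C) (hv0 : 0 ≤ v0) (hneg : ∀ u, u < 0 → f u = 0)
    (hC1 : ∀ u, v0 ≤ u → |f u| ≤ C) (hL : ∫ u, |(Iio v0).indicator f u| ≤ C * v0) {a : ℝ}
    (ha : v0 ≤ a) : ∫ u, |(Iio a).indicator f u| ≤ 2 * C * a := by
  obtain ⟨h1, h2⟩ := ind_const_int (C := C) (hv0.trans ha)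
  have h3 : ∫ u, |(Iio a).indicator f u| ≤
      ∫ u, (|(Iio v0).indicator f u| + (Icc 0 a).indicator (fun _ => C) u) := by
    refine integral_mono (ind_BI measurableSet_Iio hf).int.abs
      ((ind_BI measurableSet_Iio hf).int.abs.add h1) fun u => ?_
    simp only
    by_cases hu : u < a
    · rw [indicator_of_mem (show u ∈ Iio a from hu)]
      by_cases hu0 : u < v0
      · rw [indicator_of_mem (show u ∈ Iio v0 from hu0)]
        have : 0 ≤ (Icc 0 a).indicator (fun _ => C) u := indicator_nonneg (fun _ _ => hC0) u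
        linarith
      · rw [indicator_of_mem (show u ∈ Icc 0 a from ⟨hv0.trans (not_lt.1 hu0), hu.le⟩)]
        have := hC1 u (not_lt.1 hu0)
        have := abs_nonneg ((Iio v0).indicator f u)
        linarith
    · rw [indicator_of_notMem (show u ∉ Iio a from hu), abs_zero]
      have : 0 ≤ (Icc 0 a).indicator (fun _ => C) u := indicator_nonneg (fun _ _ => hC0) u
      have := abs_nonneg ((Iio v0).indicator f u)
      linarith
  rw [integral_add (ind_BI measurableSet_Iio hf).int.abs h1, h2] at h3
  have h4 : C * v0 ≤ C * a := mul_le_mul_of_nonneg_left ha hC0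
  linarith

lemma high_int (hf : BI f B) (hC0 : 0 ≤ C) (hz : 0 ≤ z) (hv0 : 0 ≤ v0)
    (hbig : ∀ u, z < u → f u = 0) (hC1 : ∀ u, v0 ≤ u → |f u| ≤ C) :
    ∫ u, |(Ici v0).indicator f u| ≤ C * z := by
  obtain ⟨h1, h2⟩ := ind_const_int (C := C) hz
  rw [← h2]
  refine integral_mono (ind_BI measurableSet_Ici hf).int.abs h1 fun u => ?_
  simp only
  have h0 : 0 ≤ (Icc 0 z).indicator (fun _ => C) u := indicator_nonneg (fun _ _ => hC0) u
  by_cases hu0 : v0 ≤ u
  · rw [indicator_of_mem (show u ∈ Ici v0 from hu0)]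
    by_cases huz : u ≤ z
    · rw [indicator_of_mem (show u ∈ Icc 0 z from ⟨hv0.trans hu0, huz⟩)]
      exact hC1 u hu0
    · rw [hbig u (not_le.1 huz), abs_zero]
      exact h0
  · rw [indicator_of_notMem (show u ∉ Ici v0 from hu0), abs_zero]
    exact h0

lemma split_eq (f : ℝ → ℝ) (v0 : ℝ) :
    f = fun x => (Iio v0).indicator f x + (Ici v0).indicator f x := by
  funext x
  by_cases hx : x < v0
  · rw [indicator_of_mem (show x ∈ Iio v0 from hx),
      indicator_of_notMem (show x ∉ Ici v0 from not_le.2 hx), add_zero]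
  · rw [indicator_of_notMem (show x ∉ Iio v0 from hx),
      indicator_of_mem (show x ∈ Ici v0 from not_lt.1 hx), zero_add]

lemma high_BI (hf : BI f B) (hC0 : 0 ≤ C) (hC1 : ∀ u, v0 ≤ u → |f u| ≤ C) :
    BI ((Ici v0).indicator f) C :=
  ⟨(ind_BI measurableSet_Ici hf).int, (ind_BI measurableSet_Ici hf).meas, fun x => by
    by_cases hx : v0 ≤ x
    · rw [indicator_of_mem (show x ∈ Ici v0 from hx)]; exact hC1 x hx
    · rw [indicator_of_notMem (show x ∉ Ici v0 from hx), abs_zero]; exact hC0⟩

/-- **The terms of the triple convolution with a low factor.** -/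
lemma triple_rest (hf : BI f B) (hC0 : 0 ≤ C) (hv0 : 0 < v0) (hz : 3 * v0 ≤ z)
    (hbig : ∀ u, z < u → f u = 0)
    (hC1 : ∀ u, v0 ≤ u → |f u| ≤ C) (hL : ∫ u, |(Iio v0).indicator f u| ≤ C * v0) :
    |cnv (cnv f f) f z - cnv (cnv ((Ici v0).indicator f) ((Ici v0).indicator f))
      ((Ici v0).indicator f) z| ≤ 8 * C ^ 3 * v0 * z := by
  set L := (Iio v0).indicator f with hLd
  set H := (Ici v0).indicator f with hHd
  have hLB : BI L B := ind_BI measurableSet_Iio hf
  have hHB : BI H C := high_BI hf hC0 hC1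
  have hfe : f = fun x => L x + H x := split_eq f v0
  have hz0 : 0 ≤ z := by linarith
  have hHi : ∫ u, |H u| ≤ C * z := high_int hf hC0 hz0 hv0.le hbig hC1
  have hL0 : 0 ≤ ∫ u, |L u| := integral_nonneg fun _ => abs_nonneg _
  have hH0 : 0 ≤ ∫ u, |H u| := integral_nonneg fun _ => abs_nonneg _
  have bLL := hLB.cnv hLB
  have bLH := hLB.cnv hHB
  have bHH := hHB.cnv hHB
  have hff : cnv f f = fun v => (cnv L L v + (cnv L H v + cnv L H v)) + cnv H H v := by
    funext v
    have e1 : cnv f f v = cnv (fun x => L x + H x) (fun x => L x + H x) v := by rw [← hfe]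
    rw [e1, cnv_add_left hLB hHB (hLB.add hHB), cnv_add_right hLB hHB hLB,
      cnv_add_right hLB hHB hHB, cnv_comm H L]
    ring
  have b2 := bLH.add bLH
  have b12 := bLL.add b2
  have hexp : cnv (cnv f f) f z = (cnv (cnv L L) L z + (cnv (cnv L H) L z + cnv (cnv L H) L z) +
      cnv (cnv H H) L z) + (cnv (cnv L L) H z + (cnv (cnv L H) H z + cnv (cnv L H) H z) +
      cnv (cnv H H) H z) := by
    have e1 : cnv (cnv f f) f z = cnv (cnv f f) (fun x => L x + H x) z := by rw [← hfe]
    rw [e1, hff, cnv_add_right hLB hHB (b12.add bHH), cnv_add_left b12 bHH hLB,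
      cnv_add_left b12 bHH hHB, cnv_add_left bLL b2 hLB, cnv_add_left bLL b2 hHB,
      cnv_add_left bLH bLH hLB, cnv_add_left bLH bLH hHB]
  -- the term without high factors vanishes
  have hLLL : cnv (cnv L L) L z = 0 := by
    unfold cnv
    rw [integral_eq_zero_of_ae]
    refine Eventually.of_forall fun u => ?_
    simp only [Pi.zero_apply]
    by_cases hu : z - u < v0
    · have hz2 : ∫ w, L w * L (u - w) = 0 := by
        rw [integral_eq_zero_of_ae]
        refine Eventually.of_forall fun w => ?_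
        simp only [Pi.zero_apply]
        by_cases hw : w < v0
        · have : L (u - w) = 0 := by
            rw [hLd]
            apply indicator_of_notMem
            simp only [mem_Iio, not_lt]
            linarith
          rw [this, mul_zero]
        · have : L w = 0 := by
            rw [hLd]
            apply indicator_of_notMem
            simpa using hw
          rw [this, zero_mul]
      rw [hz2, zero_mul]
    · have : L (z - u) = 0 := by
        rw [hLd]
        apply indicator_of_notMem
        simpa using hu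
      rw [this, mul_zero]
  have t1 : |cnv (cnv L H) L z| ≤ (C * v0 * C) * (C * v0) := by
    refine (bLH.cnv_le' hLB z).trans ?_
    exact mul_le_mul (mul_le_mul_of_nonneg_right hL hC0) hL hL0 (by positivity)
  have t2 : |cnv (cnv H H) L z| ≤ (C * z * C) * (C * v0) := by
    refine (bHH.cnv_le' hLB z).trans ?_
    exact mul_le_mul (mul_le_mul_of_nonneg_right hHi hC0) hL hL0 (by positivity)
  have t3 : |cnv (cnv L L) H z| ≤ ((C * v0) * (C * v0)) * C := by
    refine (bLL.cnv_le hHB z).trans (mul_le_mul_of_nonneg_right ?_ hC0)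
    exact (cnv_l1 hLB hLB).trans (mul_le_mul hL hL hL0 (by positivity))
  have t4 : |cnv (cnv L H) H z| ≤ ((C * v0) * (C * z)) * C := by
    refine (bLH.cnv_le hHB z).trans (mul_le_mul_of_nonneg_right ?_ hC0)
    exact (cnv_l1 hLB hHB).trans (mul_le_mul hL hHi hH0 (by positivity))
  rw [hexp, hLLL]
  have hvz : C ^ 3 * v0 * v0 ≤ C ^ 3 * v0 * (z / 3) :=
    mul_le_mul_of_nonneg_left (by linarith) (by positivity)
  have hp : 0 ≤ C ^ 3 * v0 * z := by positivity
  rw [abs_le] at t1 t2 t3 t4 ⊢
  constructor <;> linarith [t1.1, t1.2, t2.1, t2.2, t3.1, t3.2, t4.1, t4.2]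

end

end Pool.Agent.Y895.PS
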