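import Pool.Agent.Y895.PS.P4

set_option autoImplicit false

/-!
# The abstract bound
-/

open MeasureTheory Filter Topology Set

namespace Pool.Agent.Y895.PS

section

variable {f : ℝ → ℝ} {B C z v0 v1 h ε : ℝ}

/-- the function `E` -/
noncomputable def EE (f : ℝ → ℝ) (h : ℝ) (v : ℝ) : ℝ := v * cnv (kr h) f v + cnv f f v

lemma kf_zero_neg (hneg : ∀ u, u < 0 → f u = 0) {v : ℝ} (hv : v < 0) :
    cnv (kr h) f v = 0 := by
  unfold cnv
  rw [integral_eq_zero_of_ae]
  refine Eventually.of_forall fun u => ?_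
  simp only [Pi.zero_apply]
  by_cases hu : 0 ≤ u
  · rw [hneg (v - u) (by linarith), mul_zero]
  · rw [kr_zero (fun h => hu h.1), zero_mul]

lemma kf_zero_big (hbig : ∀ u, z < u → f u = 0) {v : ℝ} (hv : z + h < v) :
    cnv (kr h) f v = 0 := by
  unfold cnv
  rw [integral_eq_zero_of_ae]
  refine Eventually.of_forall fun u => ?_
  simp only [Pi.zero_apply]
  by_cases hu : u ≤ h
  · rw [hbig (v - u) (by linarith), mul_zero]
  · rw [kr_zero (fun h => hu h.2), zero_mul]

lemma f_w (hf : BI f B) (hz : 0 ≤ z) (hneg : ∀ u, u < 0 → f u = 0) (hbig : ∀ u, z < u → f u = 0) :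
    Integrable fun u => u * f u := by
  refine (hf.int.abs.const_mul z).mono' (measurable_id.mul hf.meas).aestronglyMeasurable
    (Eventually.of_forall fun u => ?_)
  rw [Real.norm_eq_abs, abs_mul]
  by_cases h1 : u < 0
  · rw [hneg u h1]; simp
  · by_cases h2 : z < u
    · rw [hbig u h2]; simp
    · rw [abs_of_nonneg (not_lt.1 h1)]
      exact mul_le_mul_of_nonneg_right (not_lt.1 h2) (abs_nonneg _)

/-- the function `v (k * f) (v)` -/
lemma vkf_BI (hf : BI f B) (hz : 0 ≤ z) (hh : 0 < h) (hneg : ∀ u, u < 0 → f u = 0)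
    (hbig : ∀ u, z < u → f u = 0) : BI (fun v => v * cnv (kr h) f v) ((z + h) * B) := by
  have hk := (kr_BI hh).cnv hf
  have hB0 : 0 ≤ B := (abs_nonneg _).trans (hf.bd 0)
  rw [kr_abs_int hh, one_mul] at hk
  have hb : ∀ v, |v * cnv (kr h) f v| ≤ (z + h) * |cnv (kr h) f v| := by
    intro v
    rw [abs_mul]
    by_cases h1 : v < 0
    · rw [kf_zero_neg hneg h1]; simp
    · by_cases h2 : z + h < v
      · rw [kf_zero_big hbig h2]; simp
      · rw [abs_of_nonneg (not_lt.1 h1)]
        exact mul_le_mul_of_nonneg_right (not_lt.1 h2) (abs_nonneg _)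
  refine ⟨(hk.int.abs.const_mul (z + h)).mono' (measurable_id.mul hk.meas).aestronglyMeasurable
    (Eventually.of_forall fun v => ?_), measurable_id.mul hk.meas, fun v => ?_⟩
  · rw [Real.norm_eq_abs]
    exact hb v
  · exact (hb v).trans (mul_le_mul_of_nonneg_left (hk.bd v) (by positivity))

lemma EE_BI (hf : BI f B) (hz : 0 ≤ z) (hh : 0 < h) (hneg : ∀ u, u < 0 → f u = 0)
    (hbig : ∀ u, z < u → f u = 0) : BI (EE f h) ((z + h) * B + (∫ u, |f u|) * B) :=
  (vkf_BI hf hz hh hneg hbig).add (hf.cnv hf)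

lemma full_int (hf : BI f B) (hC0 : 0 ≤ C) (hv0 : 0 ≤ v0) (hz : v0 ≤ z)
    (hbig : ∀ u, z < u → f u = 0) (hC1 : ∀ u, v0 ≤ u → |f u| ≤ C)
    (hL : ∫ u, |(Iio v0).indicator f u| ≤ C * v0) : ∫ u, |f u| ≤ 2 * C * z := by
  obtain ⟨g1, g2⟩ := ind_const_int (C := C) (hv0.trans hz)
  have h3 : ∫ u, |f u| ≤ ∫ u, (|(Iio v0).indicator f u| + (Icc 0 z).indicator (fun _ => C) u) := by
    refine integral_mono hf.int.abs ((ind_BI measurableSet_Iio hf).int.abs.add g1) fun u => ?_
    simp only
    have h0 : 0 ≤ (Icc 0 z).indicator (fun _ => C) u := indicator_nonneg (fun _ _ => hC0) u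
    by_cases hu0 : u < v0
    · rw [indicator_of_mem (show u ∈ Iio v0 from hu0)]
      linarith
    · have h4 := abs_nonneg ((Iio v0).indicator f u)
      by_cases huz : z < u
      · rw [hbig u huz, abs_zero]
        linarith
      · rw [indicator_of_mem (show u ∈ Icc 0 z from ⟨hv0.trans (not_lt.1 hu0), not_lt.1 huz⟩)]
        have := hC1 u (not_lt.1 hu0)
        linarith
  rw [integral_add (ind_BI measurableSet_Iio hf).int.abs g1, g2] at h3
  have h4 : C * v0 ≤ C * z := mul_le_mul_of_nonneg_left hz hC0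
  linarith

/-- **The contribution of the error term.** -/
lemma E_bound (hf : BI f B) (hC1' : 1 ≤ C) (hh : 0 < h) (hv0 : 1 ≤ v0) (h01 : v0 ≤ v1)
    (h1z : v1 + v0 ≤ z) (hε : 0 ≤ ε) (hneg : ∀ u, u < 0 → f u = 0) (hbig : ∀ u, z < u → f u = 0)
    (hC1 : ∀ u, v0 ≤ u → |f u| ≤ C) (hL : ∫ u, |(Iio v0).indicator f u| ≤ C * v0)
    (hS : ∀ v, v1 ≤ v → v ≤ z → |EE f h v| ≤ ε * z) :
    |cnv (EE f h) f z| ≤ 6 * C ^ 3 * v1 ^ 2 + 2 * C * ε * z ^ 2 := by
  have hz0 : 0 ≤ z := by linarith
  have hC0 : 0 ≤ C := by linarith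
  have hv00 : 0 ≤ v0 := by linarith
  have hv10 : 0 ≤ v1 := by linarith
  have hE := EE_BI hf hz0 hh hneg hbig
  set f1 := (Iio v1).indicator f with hf1
  have hf1B : BI f1 B := ind_BI measurableSet_Iio hf
  have hl1 : ∫ u, |f1 u| ≤ 2 * C * v1 := low_int hf hC0 hv00 hneg hC1 hL h01
  have hl10 : 0 ≤ ∫ u, |f1 u| := integral_nonneg fun _ => abs_nonneg _
  have hfz : ∫ u, |f u| ≤ 2 * C * z := full_int hf hC0 hv00 (by linarith) hbig hC1 hL
  set E1 := (Iio v1).indicator (EE f h) with hE1
  have hE1B := ind_BI (S := Iio v1) measurableSet_Iio hE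
  have hk1 := (kr_BI hh).cnv hf1B
  have hE1i : ∫ u, |E1 u| ≤ v1 * (2 * C * v1) + (2 * C * v1) * (2 * C * v1) := by
    have h1 : ∫ u, |E1 u| ≤ ∫ u, (v1 * |cnv (kr h) f1 u| + |cnv f1 f1 u|) := by
      refine integral_mono hE1B.int.abs ((hk1.int.abs.const_mul v1).add (hf1B.cnv hf1B).int.abs)
        fun u => ?_
      simp only
      by_cases hu : u < v1
      · have e0 : E1 u = EE f h u := indicator_of_mem (show u ∈ Iio v1 from hu) _
        rw [e0]
        have e1 : cnv (kr h) f u = cnv (kr h) f1 u := by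
          unfold cnv
          refine integral_congr_ae (Eventually.of_forall fun y => ?_)
          simp only
          by_cases hy : 0 ≤ y
          · rw [hf1, indicator_of_mem (show u - y ∈ Iio v1 from by simp only [mem_Iio]; linarith)]
          · rw [kr_zero (fun h => hy h.1), zero_mul, zero_mul]
        have e2 : cnv f f u = cnv f1 f1 u := by
          unfold cnv
          refine integral_congr_ae (Eventually.of_forall fun y => ?_)
          simp only
          by_cases hy : 0 ≤ y
          · rw [hf1, indicator_of_mem (show u - y ∈ Iio v1 from by simp only [mem_Iio]; linarith)]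
            by_cases hy1 : y < v1
            · rw [indicator_of_mem (show y ∈ Iio v1 from hy1)]
            · rw [hneg (u - y) (by linarith), mul_zero, mul_zero]
          · have h0 := hneg y (not_le.1 hy)
            rw [h0, zero_mul]
            have : f1 y = 0 := by
              rw [hf1]
              rw [indicator_of_mem (show y ∈ Iio v1 from by simp only [mem_Iio]; linarith)]
              exact h0
            rw [this, zero_mul]
        unfold EE
        rw [← e1, ← e2]
        refine (abs_add_le _ _).trans (add_le_add ?_ le_rfl)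
        rw [abs_mul]
        by_cases hu0 : u < 0
        · rw [kf_zero_neg hneg hu0]; simp
        · rw [abs_of_nonneg (not_lt.1 hu0)]
          exact mul_le_mul_of_nonneg_right hu.le (abs_nonneg _)
      · have e0 : E1 u = 0 := indicator_of_notMem (show u ∉ Iio v1 from hu) _
        rw [e0, abs_zero]
        positivity
    rw [integral_add (hk1.int.abs.const_mul v1) (hf1B.cnv hf1B).int.abs, integral_const_mul] at h1
    have h2 := cnv_l1 (kr_BI hh) hf1B
    rw [kr_abs_int hh, one_mul] at h2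
    have h3 := cnv_l1 hf1B hf1B
    have h4 : v1 * ∫ u, |cnv (kr h) f1 u| ≤ v1 * (2 * C * v1) :=
      mul_le_mul_of_nonneg_left (h2.trans hl1) hv10
    have h5 : (∫ u, |f1 u|) * ∫ u, |f1 u| ≤ (2 * C * v1) * (2 * C * v1) :=
      mul_le_mul hl1 hl1 hl10 (by positivity)
    linarith
  have hmain : |cnv (EE f h) f z| ≤ C * (∫ u, |E1 u|) + ε * z * ∫ u, |f u| := by
    have hfz' : Integrable fun u => |f (z - u)| := (hf.int.comp_sub_left z).abs
    unfold cnv
    refine (abs_integral_le_integral_abs).trans ?_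
    calc ∫ u, |EE f h u * f (z - u)| ≤ ∫ u, (C * |E1 u| + ε * z * |f (z - u)|) := by
          refine integral_mono (cnv_int hE.int hf.meas hf.bd z).abs
            ((hE1B.int.abs.const_mul C).add (hfz'.const_mul (ε * z))) fun u => ?_
          simp only [abs_mul]
          have p1 : 0 ≤ C * |E1 u| := by positivity
          have p2 : 0 ≤ ε * z * |f (z - u)| := by positivity
          by_cases hu : u < v1
          · have e : E1 u = EE f h u := indicator_of_mem (show u ∈ Iio v1 from hu) _
            rw [e]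
            have := hC1 (z - u) (by linarith)
            have h5 := mul_le_mul_of_nonneg_left this (abs_nonneg (EE f h u))
            linarith
          · by_cases huz : u ≤ z
            · have h5 := mul_le_mul_of_nonneg_right (hS u (not_lt.1 hu) huz)
                (abs_nonneg (f (z - u)))
              linarith
            · rw [hneg (z - u) (by linarith)]
              simp only [abs_zero, mul_zero, add_zero]
              exact p1
      _ = _ := by
          rw [integral_add (hE1B.int.abs.const_mul C) (hfz'.const_mul (ε * z)),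
            integral_const_mul, integral_const_mul,
            integral_sub_left_eq_self (fun u => |f u|) volume z]
  refine hmain.trans ?_
  have h6 : C * (∫ u, |E1 u|) ≤ C * (v1 * (2 * C * v1) + (2 * C * v1) * (2 * C * v1)) :=
    mul_le_mul_of_nonneg_left hE1i hC0
  have h7 : ε * z * ∫ u, |f u| ≤ ε * z * (2 * C * z) := mul_le_mul_of_nonneg_left hfz (by positivity)
  have h8 : C ^ 2 * v1 ^ 2 ≤ C ^ 3 * v1 ^ 2 := by
    apply mul_le_mul_of_nonneg_right _ (sq_nonneg v1)
    exact pow_le_pow_right₀ hC1' (by norm_num)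
  nlinarith

/-- **The abstract bound.** -/
theorem abstract_bound {T3 : ℝ} (hf : BI f B) (hC1' : 1 ≤ C) (hh : 0 < h) (hh1 : h ≤ 1)
    (hv0 : 1 ≤ v0) (h01 : 2 * v0 + 2 ≤ v1) (h1z : v1 + v0 + 2 ≤ z) (hε : 0 ≤ ε)
    (hneg : ∀ u, u < 0 → f u = 0)
    (hbig : ∀ u, z < u → f u = 0) (hC1 : ∀ u, v0 ≤ u → |f u| ≤ C)
    (hL : ∫ u, |(Iio v0).indicator f u| ≤ C * v0)
    (hT : |cnv (cnv ((Ici v0).indicator f) ((Ici v0).indicator f)) ((Ici v0).indicator f) z| ≤ T3)
    (hS : ∀ v, v1 ≤ v → v ≤ z → |EE f h v| ≤ ε * z) :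
    |cnv (kr h) (cnv (kr h) f) z| ≤ 5 * C * ε + 12 * C ^ 3 * (v1 / z) ^ 2 + 2 * T3 / z ^ 2 +
      16 * C ^ 3 * (v0 / z) + 4 * C ^ 2 * (h / z) := by
  have hC0 : 0 ≤ C := by linarith
  have hz0 : 0 < z := by linarith
  have hv00 : 0 ≤ v0 := by linarith
  have hk := kr_BI hh
  have hQ := hf.cnv hf
  have hkf := hk.cnv hf
  have hV := vkf_BI hf hz0.le hh hneg hbig
  have hEB := EE_BI hf hz0.le hh hneg hbig
  have hw := f_w hf hz0.le hneg hbig
  have h1 := ident (z := z) hf hw hh
  have h2 : cnv (EE f h) f z = cnv (fun v => v * cnv (kr h) f v) f z + cnv (cnv f f) f z :=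
    cnv_add_left hV hQ hf z
  have hfull := full_int hf hC0 hv00 (by linarith) hbig hC1 hL
  have hQb : ∀ v, z - h ≤ v → |cnv f f v| ≤ 3 * C ^ 2 * z := by
    intro v hv
    have hLB := ind_BI (S := Iio v0) measurableSet_Iio hf
    have hfz' : Integrable fun u => |f (v - u)| := (hf.int.comp_sub_left v).abs
    have h3 : |cnv f f v| ≤ ∫ u, (|(Iio v0).indicator f u| * C + C * |f (v - u)|) := by
      unfold cnv
      refine (abs_integral_le_integral_abs).trans ?_
      refine integral_mono (cnv_int hf.int hf.meas hf.bd v).abs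
        ((hLB.int.abs.mul_const C).add (hfz'.const_mul C)) fun u => ?_
      simp only [abs_mul]
      by_cases hu : u < v0
      · rw [indicator_of_mem (show u ∈ Iio v0 from hu)]
        have h4 := mul_le_mul_of_nonneg_left (hC1 (v - u) (by linarith)) (abs_nonneg (f u))
        have h5 : 0 ≤ C * |f (v - u)| := by positivity
        linarith
      · have h4 := mul_le_mul_of_nonneg_right (hC1 u (not_lt.1 hu)) (abs_nonneg (f (v - u)))
        have h5 : 0 ≤ |(Iio v0).indicator f u| * C := by positivity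
        linarith
    rw [integral_add (hLB.int.abs.mul_const C) (hfz'.const_mul C), integral_mul_const,
      integral_const_mul, integral_sub_left_eq_self (fun u => |f u|) volume v] at h3
    have h6 := mul_le_mul_of_nonneg_right hL hC0
    have h7 := mul_le_mul_of_nonneg_left hfull hC0
    have h8 : C * v0 * C ≤ C ^ 2 * z := by
      have : C ^ 2 * v0 ≤ C ^ 2 * z := mul_le_mul_of_nonneg_left (by linarith) (sq_nonneg C)
      linarith
    linarith
  set A := ∫ y, kr h y * cnv f f (z - y) with hA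
  have hzm : Measurable fun y : ℝ => z - y := measurable_const.sub measurable_id
  have hQm : Measurable fun y : ℝ => cnv f f (z - y) := hQ.meas.comp hzm
  obtain ⟨i1, b1⟩ := kr_avg_le (h := h) hh (g := fun y => y / 2 * cnv f f (z - y))
    (K := h / 2 * (3 * C ^ 2 * z)) ((measurable_id.div_const 2).mul hQm) (fun y hy0 hyh => by
      rw [abs_mul, abs_of_nonneg (by linarith)]
      exact mul_le_mul (by linarith) (hQb _ (by linarith)) (abs_nonneg _) (by linarith))
  obtain ⟨i2, -⟩ := kr_avg_le (h := h) hh (g := fun y => cnv f f (z - y)) (K := 3 * C ^ 2 * z)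
    hQm (fun y hy0 hyh => hQb _ (by linarith))
  have h3 : ∫ y, kr h y * ((z + y) / 2 * cnv f f (z - y)) =
      z / 2 * A + ∫ y, kr h y * (y / 2 * cnv f f (z - y)) := by
    rw [hA, ← integral_const_mul, ← integral_add (i2.const_mul (z / 2)) i1]
    refine integral_congr_ae (Eventually.of_forall fun y => ?_)
    simp only
    ring
  have hkm : Measurable fun y : ℝ => cnv (kr h) f (z - y) := hkf.meas.comp hzm
  have hkb : ∀ v, z - h ≤ v → |cnv (kr h) f v| ≤ C := by
    intro v hv
    exact (kr_avg_le (h := h) hh (g := fun y => f (v - y)) (K := C)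
      (hf.meas.comp (measurable_const.sub measurable_id))
      (fun y hy0 hyh => hC1 _ (by linarith))).2
  obtain ⟨i3, b3⟩ := kr_avg_le (h := h) hh (g := fun y => y * cnv (kr h) f (z - y))
    (K := h * C) (measurable_id.mul hkm) (fun y hy0 hyh => by
      rw [abs_mul, abs_of_nonneg hy0]
      exact mul_le_mul hyh (hkb _ (by linarith)) (abs_nonneg _) hh.le)
  obtain ⟨i4, -⟩ := kr_avg_le (h := h) hh (g := fun y => cnv (kr h) f (z - y)) (K := C)
    hkm (fun y hy0 hyh => hkb _ (by linarith))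
  obtain ⟨i5, b5⟩ := kr_avg_le (h := h) hh (g := fun y => EE f h (z - y)) (K := ε * z)
    (hEB.meas.comp hzm) (fun y hy0 hyh => hS _ (by linarith) (by linarith))
  have h4 : ∫ y, kr h y * EE f h (z - y) = z * cnv (kr h) (cnv (kr h) f) z -
      (∫ y, kr h y * (y * cnv (kr h) f (z - y))) + A := by
    have e : cnv (kr h) (cnv (kr h) f) z = ∫ y, kr h y * cnv (kr h) f (z - y) := rfl
    have i34 : Integrable fun y => z * (kr h y * cnv (kr h) f (z - y)) -
        kr h y * (y * cnv (kr h) f (z - y)) := (i4.const_mul z).sub i3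
    rw [e, hA, ← integral_const_mul, ← integral_sub (i4.const_mul z) i3, ← integral_add i34 i2]
    refine integral_congr_ae (Eventually.of_forall fun y => ?_)
    simp only [EE]
    ring
  have h5 := E_bound hf hC1' hh hv0 (by linarith) (by linarith) hε hneg hbig hC1 hL hS
  have h6 := triple_rest hf hC0 (by linarith) (by linarith) hbig hC1 hL
  set W := cnv (kr h) (cnv (kr h) f) z with hW
  set R1 := ∫ y, kr h y * (y / 2 * cnv f f (z - y)) with hR1
  set R3 := ∫ y, kr h y * (y * cnv (kr h) f (z - y)) with hR3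
  have h7 : |cnv (cnv f f) f z| ≤ T3 + 8 * C ^ 3 * v0 * z := by
    rw [abs_le] at h6 hT ⊢
    constructor <;> linarith [h6.1, h6.2, hT.1, hT.2]
  rw [h1, h3] at h2
  have h8 : z / 2 * |A| ≤ (6 * C ^ 3 * v1 ^ 2 + 2 * C * ε * z ^ 2) + (T3 + 8 * C ^ 3 * v0 * z) +
      h / 2 * (3 * C ^ 2 * z) := by
    have e : z / 2 * A = cnv (EE f h) f z - cnv (cnv f f) f z - R1 := by linarith
    have e2 : z / 2 * |A| = |z / 2 * A| := by
      rw [abs_mul, abs_of_pos (show 0 < z / 2 by positivity)]
    rw [e2, e]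
    have := abs_sub (cnv (EE f h) f z - cnv (cnv f f) f z) R1
    have := abs_sub (cnv (EE f h) f z) (cnv (cnv f f) f z)
    linarith
  have h9 : z * |W| ≤ ε * z + h * C + |A| := by
    have e : z * W = (∫ y, kr h y * EE f h (z - y)) + R3 - A := by linarith
    have e2 : z * |W| = |z * W| := by rw [abs_mul, abs_of_pos hz0]
    rw [e2, e]
    have := abs_sub ((∫ y, kr h y * EE f h (z - y)) + R3) A
    have := abs_add_le (∫ y, kr h y * EE f h (z - y)) R3
    linarith
  have h10 : |A| ≤ 2 / z * ((6 * C ^ 3 * v1 ^ 2 + 2 * C * ε * z ^ 2) +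
      (T3 + 8 * C ^ 3 * v0 * z) + h / 2 * (3 * C ^ 2 * z)) := by
    calc |A| = 2 / z * (z / 2 * |A|) := by field_simp
      _ ≤ _ := mul_le_mul_of_nonneg_left h8 (by positivity)
  have h11 : |W| ≤ 1 / z * (ε * z + h * C + 2 / z * ((6 * C ^ 3 * v1 ^ 2 + 2 * C * ε * z ^ 2) +
      (T3 + 8 * C ^ 3 * v0 * z) + h / 2 * (3 * C ^ 2 * z))) := by
    calc |W| = 1 / z * (z * |W|) := by field_simp
      _ ≤ _ := mul_le_mul_of_nonneg_left (by linarith) (by positivity)
  refine h11.trans ?_
  have e : 1 / z * (ε * z + h * C + 2 / z * ((6 * C ^ 3 * v1 ^ 2 + 2 * C * ε * z ^ 2) +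
      (T3 + 8 * C ^ 3 * v0 * z) + h / 2 * (3 * C ^ 2 * z))) =
      (ε + 4 * C * ε) + 12 * C ^ 3 * (v1 / z) ^ 2 + 2 * T3 / z ^ 2 + 16 * C ^ 3 * (v0 / z) +
      (C + 3 * C ^ 2) * (h / z) := by
    field_simp
    ring
  rw [e]
  have e1 : ε ≤ C * ε := le_mul_of_one_le_left hε hC1'
  have e2 : (C + 3 * C ^ 2) * (h / z) ≤ 4 * C ^ 2 * (h / z) := by
    apply mul_le_mul_of_nonneg_right _ (by positivity)
    nlinarith
  linarith

end

end Pool.Agent.Y895.PS
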