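import Pool.Agent.Y895.PS.P5
import Pool.Agent.Helper601.Mertens
import Pool.Agent.H902R3.Task469C

set_option autoImplicit false

/-!
# The weighted counting function of the primes on a logarithmic scale
-/

open MeasureTheory Filter Topology Set

namespace Pool.Agent.Y895.PS

/-- weight of a natural number -/
noncomputable def wt (n : ℕ) : ℝ := if n.Prime then Real.log n / n else 0

/-- weighted number of primes up to `exp x` -/
noncomputable def MM (x : ℝ) : ℝ := ∑ n ∈ Finset.range (⌊Real.exp x⌋₊ + 1), wt n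

/-- averages of the Heaviside function -/
noncomputable def lin (h x : ℝ) : ℝ := (max x 0 - max (x - h) 0) / h

noncomputable def AA (h x : ℝ) : ℝ := (MM x - MM (x - h)) / h

noncomputable def FF (h x : ℝ) : ℝ := AA h x - lin h x

/-- half open kernel -/
noncomputable def ks (h : ℝ) : ℝ → ℝ := (Ico 0 h).indicator fun _ => 1 / h

lemma wt_nonneg (n : ℕ) : 0 ≤ wt n := by
  unfold wt
  split_ifs
  · exact div_nonneg (Real.log_natCast_nonneg n) (by positivity)
  · exact le_rfl

lemma wt_zero : wt 0 = 0 := by simp [wt]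

lemma ks_nonneg {h : ℝ} (hh : 0 < h) (x : ℝ) : 0 ≤ ks h x := by
  unfold ks
  exact indicator_nonneg (fun _ _ => by positivity) x

lemma ks_one {h x : ℝ} (hx : 0 ≤ x ∧ x < h) : ks h x = 1 / h := by
  unfold ks
  rw [indicator_of_mem]
  exact hx

lemma ks_zero {h x : ℝ} (hx : ¬ (0 ≤ x ∧ x < h)) : ks h x = 0 := by
  unfold ks
  rw [indicator_of_notMem]
  exact hx

lemma ks_BI {h : ℝ} (hh : 0 < h) : BI (ks h) (1 / h) := by
  refine ⟨?_, measurable_const.indicator measurableSet_Ico, fun x => ?_⟩
  · unfold ks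
    rw [integrable_indicator_iff measurableSet_Ico]
    exact integrableOn_const (by simp) (by simp)
  · rw [abs_of_nonneg (ks_nonneg hh x)]
    unfold ks
    exact indicator_le_self' (fun _ _ => by positivity) x |>.trans le_rfl

lemma ks_int {h : ℝ} (hh : 0 < h) : ∫ x, ks h x = 1 := by
  unfold ks
  rw [integral_indicator measurableSet_Ico, setIntegral_const]
  simp only [smul_eq_mul, Measure.real, Real.volume_Ico, sub_zero]
  rw [ENNReal.toReal_ofReal hh.le]
  field_simp

lemma kr_ae_ks (h : ℝ) : kr h =ᵐ[volume] ks h := by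
  unfold kr ks
  exact indicator_ae_eq_of_ae_eq_set Ico_ae_eq_Icc.symm

lemma MM_eq {x : ℝ} {N : ℕ} (hN : ⌊Real.exp x⌋₊ + 1 ≤ N) :
    MM x = ∑ n ∈ Finset.range N, if Real.log n ≤ x then wt n else 0 := by
  unfold MM
  rw [← Finset.sum_filter]
  have h1 : Finset.range (⌊Real.exp x⌋₊ + 1) ⊆
      insert 0 ((Finset.range N).filter fun n => Real.log (n : ℕ) ≤ x) := by
    intro n hn
    rw [Finset.mem_range] at hn
    rw [Finset.mem_insert, Finset.mem_filter, Finset.mem_range]
    rcases Nat.eq_zero_or_pos n with h0 | h0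
    · exact Or.inl h0
    · refine Or.inr ⟨by omega, ?_⟩
      have h2 : (n : ℝ) ≤ Real.exp x := by
        have := Nat.floor_le (Real.exp_pos x).le
        have h3 : (n : ℝ) ≤ (⌊Real.exp x⌋₊ : ℝ) := by exact_mod_cast (by omega : n ≤ ⌊Real.exp x⌋₊)
        linarith
      rw [Real.log_le_iff_le_exp (by exact_mod_cast h0)]
      exact h2
  have h2 : ∑ n ∈ (Finset.range N).filter (fun n => Real.log (n : ℕ) ≤ x), wt n =
      ∑ n ∈ insert 0 ((Finset.range N).filter fun n => Real.log (n : ℕ) ≤ x), wt n := by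
    by_cases h0 : 0 ∈ (Finset.range N).filter fun n : ℕ => Real.log (n : ℕ) ≤ x
    · rw [Finset.insert_eq_of_mem h0]
    · rw [Finset.sum_insert h0, wt_zero, zero_add]
  rw [h2]
  refine Finset.sum_subset h1 fun n hn hn2 => ?_
  rw [Finset.mem_insert, Finset.mem_filter, Finset.mem_range] at hn
  rcases hn with h0 | ⟨-, h3⟩
  · subst h0
    exact wt_zero
  · rcases Nat.eq_zero_or_pos n with h0 | h0
    · subst h0
      exact wt_zero
    · exfalso
      apply hn2
      rw [Finset.mem_range, Nat.lt_succ_iff]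
      apply Nat.le_floor
      rwa [Real.log_le_iff_le_exp (by exact_mod_cast h0)] at h3

lemma MM_mono {x y : ℝ} (h : x ≤ y) : MM x ≤ MM y := by
  unfold MM
  refine Finset.sum_le_sum_of_subset_of_nonneg ?_ fun n _ _ => wt_nonneg n
  apply Finset.range_subset_range.2
  have := Nat.floor_le_floor (Real.exp_le_exp.2 h)
  omega

lemma MM_nonneg (x : ℝ) : 0 ≤ MM x := Finset.sum_nonneg fun n _ => wt_nonneg n

lemma MM_neg {x : ℝ} (hx : x < 0) : MM x = 0 := by
  unfold MM
  have h1 : ⌊Real.exp x⌋₊ = 0 := by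
    rw [Nat.floor_eq_zero]
    exact Real.exp_lt_one_iff.2 hx
  rw [h1]
  simp [wt_zero]

lemma MM_meas : Measurable MM := by
  unfold MM
  have h : Measurable fun k : ℕ => ∑ n ∈ Finset.range (k + 1), wt n := measurable_from_nat
  exact h.comp (Nat.measurable_floor.comp Real.measurable_exp)

lemma AA_eq {h x : ℝ} (hh : 0 < h) {N : ℕ} (hN : ⌊Real.exp x⌋₊ + 1 ≤ N) :
    AA h x = ∑ n ∈ Finset.range N, wt n * ks h (x - Real.log n) := by
  have hN2 : ⌊Real.exp (x - h)⌋₊ + 1 ≤ N := by
    have := Nat.floor_le_floor (Real.exp_le_exp.2 (by linarith : x - h ≤ x))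
    omega
  unfold AA
  rw [MM_eq hN, MM_eq hN2, ← Finset.sum_sub_distrib, Finset.sum_div]
  refine Finset.sum_congr rfl fun n _ => ?_
  by_cases h1 : Real.log n ≤ x
  · by_cases h2 : Real.log n ≤ x - h
    · rw [if_pos h1, if_pos h2, ks_zero (by intro h3; linarith [h3.2])]
      simp
    · rw [if_pos h1, if_neg h2, ks_one ⟨by linarith, by linarith [not_le.1 h2]⟩]
      ring
  · rw [if_neg h1, if_neg (by intro h3; apply h1; linarith), ks_zero (by
      intro h3; apply h1; linarith [h3.1])]
    simp

lemma AA_nonneg {h : ℝ} (hh : 0 < h) (x : ℝ) : 0 ≤ AA h x :=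
  div_nonneg (sub_nonneg.2 (MM_mono (by linarith))) hh.le

lemma lin_nonneg {h : ℝ} (hh : 0 < h) (x : ℝ) : 0 ≤ lin h x :=
  div_nonneg (sub_nonneg.2 (max_le_max (by linarith) le_rfl)) hh.le

lemma lin_le {h : ℝ} (hh : 0 < h) (x : ℝ) : lin h x ≤ 1 := by
  unfold lin
  rw [div_le_one hh]
  have h1 : max x 0 ≤ max (x - h) 0 + h := by
    apply max_le
    · linarith [le_max_left (x - h) 0]
    · linarith [le_max_right (x - h) 0]
  linarith

lemma lin_neg {h x : ℝ} (hh : 0 < h) (hx : x ≤ 0) : lin h x = 0 := by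
  unfold lin
  rw [max_eq_right hx, max_eq_right (by linarith)]
  simp

lemma lin_one {h x : ℝ} (hh : 0 < h) (hx : h ≤ x) : lin h x = 1 := by
  unfold lin
  rw [max_eq_left (by linarith), max_eq_left (by linarith)]
  field_simp
  ring

lemma lin_meas (h : ℝ) : Measurable (lin h) := by
  unfold lin
  exact ((measurable_id.max measurable_const).sub
    ((measurable_id.sub_const h).max measurable_const)).div_const h

lemma AA_meas (h : ℝ) : Measurable (AA h) := by
  unfold AA
  exact (MM_meas.sub (MM_meas.comp (measurable_id.sub_const h))).div_const h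

lemma FF_meas (h : ℝ) : Measurable (FF h) := (AA_meas h).sub (lin_meas h)

lemma AA_neg {h x : ℝ} (hh : 0 < h) (hx : x < 0) : AA h x = 0 := by
  unfold AA
  rw [MM_neg hx, MM_neg (by linarith)]
  simp

lemma FF_neg {h x : ℝ} (hh : 0 < h) (hx : x < 0) : FF h x = 0 := by
  unfold FF
  rw [AA_neg hh hx, lin_neg hh hx.le]
  simp

/-- Mertens' theorem -/
lemma MM_mertens : ∃ C : ℝ, 1 ≤ C ∧ ∀ x : ℝ, 0 ≤ x → |MM x - x| ≤ C := by
  obtain ⟨C, hC⟩ := Pool.Agent.Helper601.Mertens.mertens_log
  have hC0 : 0 ≤ C := (abs_nonneg _).trans (hC 1 le_rfl)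
  refine ⟨C + 1, by linarith, fun x hx => ?_⟩
  set N := ⌊Real.exp x⌋₊ with hN
  have h1 : 1 ≤ N := by
    rw [hN]
    apply Nat.le_floor
    simpa using Real.one_le_exp hx
  have h2 : MM x = ∑ p ∈ (Finset.Icc 1 N).filter Nat.Prime, Real.log p / p := by
    unfold MM
    rw [Finset.sum_filter, Finset.range_eq_Ico, Finset.sum_eq_sum_Ico_succ_bot (by omega), wt_zero,
      zero_add]
    refine Finset.sum_congr ?_ fun n _ => rfl
    ext n
    simp only [Finset.mem_Ico, Finset.mem_Icc, ← hN]
    omega
  have hN0 : (0 : ℝ) < N := by exact_mod_cast h1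
  have h3 : Real.log N ≤ x := by
    rw [Real.log_le_iff_le_exp hN0]
    exact Nat.floor_le (Real.exp_pos x).le
  have h4 : x ≤ Real.log N + 1 := by
    have h5 : Real.exp x ≤ 2 * N := by
      have := Nat.lt_floor_add_one (Real.exp x)
      have h6 : (1 : ℝ) ≤ N := by exact_mod_cast h1
      linarith
    have h6 : x ≤ Real.log (2 * N) := by
      rw [Real.le_log_iff_exp_le (by positivity)]
      exact h5
    rw [Real.log_mul (by norm_num) hN0.ne'] at h6
    have := Real.log_two_lt_d9
    linarith
  have h5 := hC N h1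
  rw [← h2, abs_le] at h5
  rw [abs_le]
  constructor <;> linarith [h5.1, h5.2]

/-- Brun-Titchmarsh on the logarithmic scale -/
lemma AA_le : ∃ l0 : ℝ, 1 ≤ l0 ∧ ∀ l x : ℝ, l0 ≤ l → 2 * l ≤ x →
    AA (Real.exp (-l)) x ≤ 36 := by
  obtain ⟨Z, hZ2, hBT⟩ := Pool.Agent.H902R3.C469.bt2 1 one_pos
  refine ⟨max 2 (Real.log Z), (by norm_num : (1 : ℝ) ≤ 2).trans (le_max_left _ _),
    fun l x hl hx => ?_⟩
  have hl2 : 2 ≤ l := (le_max_left _ _).trans hl
  have hlZ : Real.log Z ≤ l := (le_max_right _ _).trans hl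
  have hZ0 : (0 : ℝ) < Z := by exact_mod_cast (by omega : 0 < Z)
  set h := Real.exp (-l) with hh
  have hh0 : 0 < h := Real.exp_pos _
  have hh1 : h ≤ 1 := by
    rw [hh, Real.exp_le_one_iff]
    linarith
  have hx0 : 0 < x := by linarith
  set a := ⌊Real.exp (x - h)⌋₊ with ha
  set b := ⌊Real.exp x⌋₊ with hb
  have hab : a ≤ b := Nat.floor_le_floor (Real.exp_le_exp.2 (by linarith))
  -- the length
  have hE : h * Real.exp x = Real.exp (x - l) := by
    rw [hh, ← Real.exp_add]
    congr 1
    ring
  have hE2 : Real.exp (x / 2) ≤ h * Real.exp x := by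
    rw [hE]
    exact Real.exp_le_exp.2 (by linarith)
  have hE3 : 3 ≤ h * Real.exp x := by
    have h1 := Real.add_one_le_exp (x - l)
    rw [hE]
    linarith
  have hEZ : (Z : ℝ) ≤ h * Real.exp x := by
    rw [hE, ← Real.log_le_iff_le_exp hZ0]
    linarith
  have hexp : Real.exp x - Real.exp (x - h) ≤ h * Real.exp x := by
    have h1 := Real.add_one_le_exp (-h)
    have h2 : Real.exp (x - h) = Real.exp x * Real.exp (-h) := by
      rw [← Real.exp_add]
      congr 1
    rw [h2]
    have h3 := mul_le_mul_of_nonneg_left h1 (Real.exp_pos x).le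
    linarith
  set B := ⌊2 * (h * Real.exp x)⌋₊ with hB
  have hBle : (B : ℝ) ≤ 2 * (h * Real.exp x) := Nat.floor_le (by positivity)
  have hBge : h * Real.exp x ≤ B := by
    have := Nat.lt_floor_add_one (2 * (h * Real.exp x))
    rw [← hB] at this
    linarith
  have hbB : b ≤ a + B := by
    have h1 : b - a ≤ B := by
      rw [hB]
      apply Nat.le_floor
      rw [Nat.cast_sub hab]
      have h2 : (b : ℝ) ≤ Real.exp x := Nat.floor_le (Real.exp_pos x).le
      have h3 := Nat.lt_floor_add_one (Real.exp (x - h))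
      rw [← ha] at h3
      linarith
    omega
  have hZB : Z ≤ B := by
    have : (Z : ℝ) ≤ B := hEZ.trans hBge
    exact_mod_cast this
  have h1 := hBT a B hZB
  have e : (2 : ℝ) + 1 = 3 := by norm_num
  rw [e] at h1
  have hlB : x / 2 ≤ Real.log B := by
    rw [Real.le_log_iff_exp_le (by linarith)]
    linarith
  have hsum : MM x - MM (x - h) ≤ (((Finset.Ioc a (a + B)).filter Nat.Prime).card : ℝ) *
      (x / Real.exp (x - h)) := by
    unfold MM
    rw [← ha, ← hb]
    have hsub : Finset.range (a + 1) ⊆ Finset.range (b + 1) := Finset.range_subset_range.2 (by omega)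
    rw [← Finset.sum_sdiff_eq_sub hsub]
    have e2 : ∑ n ∈ Finset.range (b + 1) \ Finset.range (a + 1), wt n =
        ∑ n ∈ (Finset.range (b + 1) \ Finset.range (a + 1)).filter Nat.Prime,
          Real.log n / n := by
      rw [Finset.sum_filter]
      rfl
    rw [e2]
    calc _ ≤ ∑ n ∈ (Finset.range (b + 1) \ Finset.range (a + 1)).filter Nat.Prime,
          x / Real.exp (x - h) := by
          refine Finset.sum_le_sum fun n hn => ?_
          rw [Finset.mem_filter, Finset.mem_sdiff, Finset.mem_range, Finset.mem_range] at hn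
          obtain ⟨⟨h2, h3⟩, h4⟩ := hn
          have h5 : (n : ℝ) ≤ Real.exp x := by
            have : (n : ℝ) ≤ b := by exact_mod_cast (by omega : n ≤ b)
            exact this.trans (Nat.floor_le (Real.exp_pos x).le)
          have h6 : Real.exp (x - h) ≤ n := by
            have := Nat.lt_floor_add_one (Real.exp (x - h))
            rw [← ha] at this
            have h7 : ((a + 1 : ℕ) : ℝ) ≤ n := by exact_mod_cast (by omega : a + 1 ≤ n)
            push_cast at h7
            linarith
          have hn0 : (0 : ℝ) < n := lt_of_lt_of_le (Real.exp_pos _) h6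
          apply div_le_div₀ hx0.le _ (Real.exp_pos _) h6
          rw [Real.log_le_iff_le_exp hn0]
          exact h5
      _ ≤ _ := by
          rw [Finset.sum_const, nsmul_eq_mul]
          apply mul_le_mul_of_nonneg_right _ (by positivity)
          have hs : (Finset.range (b + 1) \ Finset.range (a + 1)).filter Nat.Prime ⊆
              (Finset.Ioc a (a + B)).filter Nat.Prime := by
            intro n hn
            simp only [Finset.mem_filter, Finset.mem_sdiff, Finset.mem_range, Finset.mem_Ioc] at hn ⊢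
            exact ⟨by omega, hn.2⟩
          exact_mod_cast Finset.card_le_card hs
  have h2 : (((Finset.Ioc a (a + B)).filter Nat.Prime).card : ℝ) ≤ 12 * (h * Real.exp x) / x := by
    refine h1.trans ?_
    have hB0 : (0 : ℝ) < B := by linarith
    calc 3 * (B : ℝ) / Real.log B ≤ 3 * (2 * (h * Real.exp x)) / (x / 2) :=
          div_le_div₀ (by positivity) (by linarith) (by positivity) hlB
      _ = _ := by field_simp; ring
  unfold AA
  rw [div_le_iff₀ hh0]
  refine hsum.trans ?_
  calc _ ≤ (12 * (h * Real.exp x) / x) * (x / Real.exp (x - h)) :=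
        mul_le_mul_of_nonneg_right h2 (by positivity)
    _ = 12 * h * Real.exp h := by
        have h3 : Real.exp x = Real.exp (x - h) * Real.exp h := by
          rw [← Real.exp_add]
          congr 1
          ring
        rw [h3]
        field_simp
    _ ≤ 36 * h := by
        have h3 : Real.exp h ≤ 3 := by
          have := Real.exp_one_lt_d9
          have := Real.exp_le_exp.2 hh1
          linarith
        have h4 := mul_le_mul_of_nonneg_left h3 (by positivity : 0 ≤ 12 * h)
        linarith

end Pool.Agent.Y895.PS
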