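import Pool.Agent.Y895.PS.Q1
import Pool.Agent.Y895.PS.L1

set_option autoImplicit false

/-!
# Laplace transforms
-/

open MeasureTheory Filter Topology Set

namespace Pool.Agent.Y895.PS

open Pool.Agent.W66 (ell one_le_ell DD LSeries_eq_DD)

/-- Laplace transform of the kernel -/
noncomputable def KK (h : ℝ) (s : ℂ) : ℂ := ∫ y : ℝ, (ks h y : ℂ) * Complex.exp (-s * y)

lemma norm_exp_neg (s : ℂ) (y : ℝ) : ‖Complex.exp (-s * y)‖ = Real.exp (-(s.re * y)) := by
  rw [Complex.norm_exp]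
  congr 1
  simp

lemma KK_norm_le {h : ℝ} (hh : 0 < h) {s : ℂ} (hs : 0 ≤ s.re) : ‖KK h s‖ ≤ 1 := by
  unfold KK
  refine (norm_integral_le_integral_norm _).trans ?_
  rw [← ks_int hh]
  refine integral_mono_of_nonneg (Eventually.of_forall fun y => norm_nonneg _) (ks_BI hh).int
    (Eventually.of_forall fun y => ?_)
  simp only [norm_mul, Complex.norm_real, norm_exp_neg]
  rw [Real.norm_of_nonneg (ks_nonneg hh y)]
  by_cases hy : 0 ≤ y ∧ y < h
  · have : Real.exp (-(s.re * y)) ≤ 1 := by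
      rw [Real.exp_le_one_iff]
      have := mul_nonneg hs hy.1
      linarith
    exact mul_le_of_le_one_right (ks_nonneg hh y) this
  · rw [ks_zero hy]
    simp

lemma KK_eq {h : ℝ} (hh : 0 < h) {s : ℂ} (hs : s ≠ 0) :
    KK h s = (1 - Complex.exp (-s * h)) / (s * h) := by
  unfold KK
  have e1 : ∀ y : ℝ, (ks h y : ℂ) * Complex.exp (-s * y) =
      (Ico 0 h).indicator (fun y : ℝ => (1 / h : ℂ) * Complex.exp (-s * y)) y := by
    intro y
    by_cases hy : y ∈ Ico 0 h
    · rw [indicator_of_mem hy, ks_one hy]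
      push_cast
      rfl
    · rw [indicator_of_notMem hy, ks_zero hy]
      simp
  simp only [e1]
  rw [integral_indicator measurableSet_Ico, integral_Ico_eq_integral_Ioc,
    ← intervalIntegral.integral_of_le hh.le, intervalIntegral.integral_const_mul,
    integral_exp_mul_complex (neg_ne_zero.2 hs)]
  have : (h : ℂ) ≠ 0 := by exact_mod_cast hh.ne'
  simp only [Complex.ofReal_zero, mul_zero, Complex.exp_zero]
  field_simp
  ring

lemma KK_norm_le2 {h : ℝ} (hh : 0 < h) {s : ℂ} (hs : 0 ≤ s.re) (ht : s.im ≠ 0) :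
    ‖KK h s‖ ≤ 2 / (|s.im| * h) := by
  have hs0 : s ≠ 0 := by
    rintro rfl
    simp at ht
  rw [KK_eq hh hs0, norm_div, norm_mul, Complex.norm_real, Real.norm_of_nonneg hh.le]
  have h1 : ‖(1 : ℂ) - Complex.exp (-s * h)‖ ≤ 2 := by
    refine (norm_sub_le _ _).trans ?_
    rw [norm_exp_neg, norm_one]
    have : Real.exp (-(s.re * h)) ≤ 1 := by
      rw [Real.exp_le_one_iff]
      have := mul_nonneg hs hh.le
      linarith
    linarith
  have h2 := abs_pos.2 ht
  exact div_le_div₀ (by norm_num) h1 (by positivity)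
    (mul_le_mul_of_nonneg_right (Complex.abs_im_le_norm s) hh.le)

/-- Laplace transform of `max u 0` -/
lemma J_int {σ : ℝ} (hσ : 0 < σ) : IntegrableOn (fun u : ℝ => u * Real.exp (-(σ * u))) (Ioi 0) := by
  have h1 := Real.integral_rpow_mul_exp_neg_mul_Ioi (a := 2) (r := σ) (by norm_num) hσ
  have h2 : Real.Gamma 2 = 1 := Real.Gamma_two
  rw [h2, mul_one] at h1
  have h3 : ∀ u ∈ Ioi (0:ℝ), u ^ ((2:ℝ) - 1) * Real.exp (-(σ * u)) = u * Real.exp (-(σ * u)) := by
    intro u _
    norm_num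
  rw [setIntegral_congr_fun measurableSet_Ioi h3] at h1
  by_contra hc
  have h6 := integral_undef (μ := volume.restrict (Ioi (0:ℝ))) hc
  rw [h6] at h1
  have h7 : (0:ℝ) < (1 / σ) ^ (2:ℝ) := by positivity
  linarith

lemma J_tr {s : ℂ} (hs : 0 < s.re) :
    Integrable (fun u : ℝ => ((max u 0 : ℝ) : ℂ) * Complex.exp (-s * u)) ∧
    ∫ u : ℝ, ((max u 0 : ℝ) : ℂ) * Complex.exp (-s * u) = 1 / s ^ 2 := by
  have hs0 : s ≠ 0 := by
    rintro rfl
    simp at hs
  have h3 : ∀ u : ℝ, ((max u 0 : ℝ) : ℂ) * Complex.exp (-s * u) =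
      (Ioi 0).indicator (fun t : ℝ => (t : ℂ) * Complex.exp (-s * t)) u := by
    intro u
    by_cases hu : 0 < u
    · rw [indicator_of_mem (show u ∈ Ioi (0:ℝ) from hu), max_eq_left hu.le]
    · rw [indicator_of_notMem (show u ∉ Ioi (0:ℝ) from hu), max_eq_right (not_lt.1 hu)]
      simp
  simp only [h3]
  rw [integrable_indicator_iff measurableSet_Ioi, integral_indicator measurableSet_Ioi]
  have hint : IntegrableOn (fun t : ℝ => (t : ℂ) * Complex.exp (-s * t)) (Ioi 0) := by
    refine Integrable.mono' (J_int hs) ?_ ?_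
    · exact (by fun_prop : Continuous fun t : ℝ => (t : ℂ) * Complex.exp (-s * t)).aestronglyMeasurable
    · refine (ae_restrict_mem measurableSet_Ioi).mono fun u hu => ?_
      rw [norm_mul, norm_exp_neg, Complex.norm_real, Real.norm_of_nonneg (le_of_lt hu)]
  refine ⟨hint, ?_⟩
  have hd : ∀ u ∈ Ici (0:ℝ), HasDerivAt (fun u : ℝ => -((u : ℂ) / s + 1 / s ^ 2) *
      Complex.exp (-s * u)) ((u : ℂ) * Complex.exp (-s * u)) u := by
    intro u _
    have h1 : HasDerivAt (fun u : ℝ => (u : ℂ)) 1 u := Complex.ofRealCLM.hasDerivAt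
    have h4 : HasDerivAt (fun u : ℝ => -((u : ℂ) / s + 1 / s ^ 2)) (-(1 / s)) u :=
      ((h1.div_const s).add_const _).neg
    have h5 : HasDerivAt (fun u : ℝ => Complex.exp (-s * u))
        (Complex.exp (-s * u) * (-s * 1)) u := (h1.const_mul (-s)).cexp
    have h6 := h4.mul h5
    refine h6.congr_deriv ?_
    field_simp
    ring
  have ht : Tendsto (fun u : ℝ => -((u : ℂ) / s + 1 / s ^ 2) * Complex.exp (-s * u)) atTop
      (𝓝 0) := by
    have hlin : Tendsto (fun u : ℝ => s.re * u) atTop atTop := tendsto_id.const_mul_atTop hs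
    have t1 := (Real.tendsto_pow_mul_exp_neg_atTop_nhds_zero 1).comp hlin
    have t0 := (Real.tendsto_pow_mul_exp_neg_atTop_nhds_zero 0).comp hlin
    have t2 := (t1.const_mul (1 / (‖s‖ * s.re))).add (t0.const_mul (1 / ‖s‖ ^ 2))
    rw [mul_zero, mul_zero, add_zero] at t2
    refine squeeze_zero_norm' ?_ t2
    filter_upwards [eventually_ge_atTop 0] with u hu
    have hsn : 0 < ‖s‖ := norm_pos_iff.2 hs0
    rw [norm_mul, norm_neg, norm_exp_neg]
    have h7 : ‖(u : ℂ) / s + 1 / s ^ 2‖ ≤ u / ‖s‖ + 1 / ‖s‖ ^ 2 := by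
      refine (norm_add_le _ _).trans (le_of_eq ?_)
      rw [norm_div, norm_div, norm_one, norm_pow, Complex.norm_real, Real.norm_of_nonneg hu]
    refine (mul_le_mul_of_nonneg_right h7 (Real.exp_pos _).le).trans (le_of_eq ?_)
    simp only [Function.comp, pow_one, pow_zero, one_mul]
    field_simp
  have h8 := integral_Ioi_of_hasDerivAt_of_tendsto' hd hint ht
  rw [h8]
  simp

lemma lin_tr {h : ℝ} (hh : 0 < h) {s : ℂ} (hs : 0 < s.re) :
    Integrable (fun u : ℝ => (lin h u : ℂ) * Complex.exp (-s * u)) ∧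
    ∫ u : ℝ, (lin h u : ℂ) * Complex.exp (-s * u) = KK h s / s := by
  have hs0 : s ≠ 0 := by
    rintro rfl
    simp at hs
  have hh0 : (h : ℂ) ≠ 0 := by exact_mod_cast hh.ne'
  obtain ⟨i1, e1⟩ := J_tr hs
  have h2 : ∀ u : ℝ, ((max (u - h) 0 : ℝ) : ℂ) * Complex.exp (-s * u) =
      Complex.exp (-s * h) * (((max (u - h) 0 : ℝ) : ℂ) * Complex.exp (-s * ((u - h : ℝ) : ℂ))) := by
    intro u
    have : Complex.exp (-s * u) = Complex.exp (-s * h) * Complex.exp (-s * ((u - h : ℝ) : ℂ)) := by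
      rw [← Complex.exp_add]
      congr 1
      push_cast
      ring
    rw [this]
    ring
  have i2 : Integrable (fun u : ℝ => ((max (u - h) 0 : ℝ) : ℂ) * Complex.exp (-s * u)) := by
    simp only [h2]
    exact (i1.comp_sub_right h).const_mul _
  have e2 : ∫ u : ℝ, ((max (u - h) 0 : ℝ) : ℂ) * Complex.exp (-s * u) =
      Complex.exp (-s * h) * (1 / s ^ 2) := by
    simp only [h2]
    rw [integral_const_mul, integral_sub_right_eq_self
      (fun u : ℝ => ((max u 0 : ℝ) : ℂ) * Complex.exp (-s * (u : ℂ))) h, e1]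
  have h3 : ∀ u : ℝ, (lin h u : ℂ) * Complex.exp (-s * u) = (1 / h : ℂ) *
      (((max u 0 : ℝ) : ℂ) * Complex.exp (-s * u) -
        ((max (u - h) 0 : ℝ) : ℂ) * Complex.exp (-s * u)) := by
    intro u
    unfold lin
    push_cast
    field_simp
  simp only [h3]
  refine ⟨(i1.sub i2).const_mul _, ?_⟩
  rw [integral_const_mul, integral_sub i1 i2, e1, e2, KK_eq hh hs0]
  field_simp

/-- the Dirichlet series of the primes -/
noncomputable def PP (s : ℂ) : ℂ := ∑' n : ℕ, (wt n : ℂ) * Complex.exp (-s * (Real.log n : ℝ))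

lemma term_eq {s : ℂ} (n : ℕ) :
    LSeries.term (fun n => (ArithmeticFunction.vonMangoldt n : ℂ)) (1 + s) n =
      (wt n : ℂ) * Complex.exp (-s * (Real.log n : ℝ)) +
      (((if n.Prime then 0 else ArithmeticFunction.vonMangoldt n) / n : ℝ) : ℂ) *
        Complex.exp (-s * (Real.log n : ℝ)) := by
  rcases Nat.eq_zero_or_pos n with h0 | h0
  · subst h0
    simp [wt_zero]
  · have hn0 : (n : ℂ) ≠ 0 := by exact_mod_cast h0.ne'
    rw [LSeries.term_of_ne_zero h0.ne', Complex.cpow_add _ _ hn0, Complex.cpow_one]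
    have h1 : (n : ℂ) ^ s = Complex.exp (s * (Real.log n : ℝ)) := by
      rw [Complex.cpow_def_of_ne_zero hn0, ← Complex.natCast_log, mul_comm]
    have h2 : Complex.exp (-s * (Real.log n : ℝ)) = ((n : ℂ) ^ s)⁻¹ := by
      rw [h1, ← Complex.exp_neg]
      congr 1
      ring
    rw [h2, ← add_mul]
    have h3 : (wt n : ℂ) + (((if n.Prime then 0 else ArithmeticFunction.vonMangoldt n) / n : ℝ) : ℂ)
        = (ArithmeticFunction.vonMangoldt n : ℂ) / n := by
      unfold wt
      split_ifs with hp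
      · rw [ArithmeticFunction.vonMangoldt_apply_prime hp]
        push_cast
        simp
      · push_cast
        simp
    rw [h3]
    field_simp

lemma np_summable : Summable fun n : ℕ =>
    (if n.Prime then 0 else (ArithmeticFunction.vonMangoldt n : ℝ)) / n := by
  have h := ArithmeticFunction.vonMangoldt.summable_residueClass_non_primes_div (q := 1) 0
  refine h.congr fun n => ?_
  congr 1
  split_ifs
  · rfl
  · unfold ArithmeticFunction.vonMangoldt.residueClass
    rw [indicator_of_mem]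
    exact Subsingleton.elim _ _

lemma exp_log_norm_le {s : ℂ} (hs : 0 ≤ s.re) (n : ℕ) :
    ‖Complex.exp (-s * (Real.log n : ℝ))‖ ≤ 1 := by
  rw [norm_exp_neg, Real.exp_le_one_iff]
  have := mul_nonneg hs (Real.log_natCast_nonneg n)
  linarith

lemma PP_bound : ∃ C : ℝ, 0 < C ∧ ∀ s : ℂ, 0 < s.re → s.re ≤ 1 →
    Summable (fun n : ℕ => ‖(wt n : ℂ) * Complex.exp (-s * (Real.log n : ℝ))‖) ∧
    ‖PP s - 1 / s‖ ≤ C * ell s.im := by
  obtain ⟨C1, hC1, h1⟩ := zlin
  set S : ℝ := ∑' n : ℕ, (if n.Prime then 0 else (ArithmeticFunction.vonMangoldt n : ℝ)) / n with hS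
  have hnn : ∀ n : ℕ, 0 ≤ (if n.Prime then 0 else (ArithmeticFunction.vonMangoldt n : ℝ)) / n := by
    intro n
    apply div_nonneg _ (by positivity)
    split_ifs
    · exact le_rfl
    · exact ArithmeticFunction.vonMangoldt_nonneg
  have hS0 : 0 ≤ S := tsum_nonneg hnn
  refine ⟨C1 + S, by positivity, fun s hs hs1 => ?_⟩
  have hre : 1 < (1 + s).re := by simpa using hs
  have hL : LSeriesSummable (fun n => (ArithmeticFunction.vonMangoldt n : ℂ)) (1 + s) :=
    ArithmeticFunction.LSeriesSummable_vonMangoldt hre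
  set g : ℕ → ℂ := fun n => (((if n.Prime then 0 else ArithmeticFunction.vonMangoldt n) / n : ℝ) : ℂ) *
        Complex.exp (-s * (Real.log n : ℝ)) with hg
  have hgn : ∀ n, ‖g n‖ ≤ (if n.Prime then 0 else (ArithmeticFunction.vonMangoldt n : ℝ)) / n := by
    intro n
    rw [hg]
    simp only [norm_mul, Complex.norm_real]
    rw [Real.norm_of_nonneg (hnn n)]
    exact mul_le_of_le_one_right (hnn n) (exp_log_norm_le hs.le n)
  have hgs : Summable fun n => ‖g n‖ := Summable.of_nonneg_of_le (fun n => norm_nonneg _) hgn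
    np_summable
  have hw : ∀ n : ℕ, (wt n : ℂ) * Complex.exp (-s * (Real.log n : ℝ)) =
      LSeries.term (fun n => (ArithmeticFunction.vonMangoldt n : ℂ)) (1 + s) n - g n := by
    intro n
    rw [term_eq]
    ring
  have hws : Summable (fun n : ℕ => ‖(wt n : ℂ) * Complex.exp (-s * (Real.log n : ℝ))‖) := by
    have h2 : Summable (fun n : ℕ => ‖LSeries.term
        (fun n => (ArithmeticFunction.vonMangoldt n : ℂ)) (1 + s) n‖) := hL.norm
    refine Summable.of_nonneg_of_le (fun n => norm_nonneg _) (fun n => ?_) (h2.add hgs)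
    rw [hw]
    exact norm_sub_le _ _
  refine ⟨hws, ?_⟩
  have e1 : PP s = LSeries (fun n => (ArithmeticFunction.vonMangoldt n : ℂ)) (1 + s) - ∑' n, g n := by
    unfold PP LSeries
    rw [← hL.tsum_sub hgs.of_norm]
    exact tsum_congr hw
  have e2 := LSeries_eq_DD hre
  rw [e1, e2]
  have e3 : 1 / (1 + s - 1) - DD (1 + s) - ∑' n, g n - 1 / s = -(DD (1 + s)) - ∑' n, g n := by
    have : 1 + s - 1 = s := by ring
    rw [this]
    ring
  rw [e3]
  have h3 : ‖DD (1 + s)‖ ≤ C1 * ell s.im := by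
    have := h1 s.im (1 + s.re) (by linarith) (by linarith)
    have e4 : (1 + s : ℂ) = ⟨1 + s.re, s.im⟩ := by
      apply Complex.ext <;> simp
    rw [e4]
    exact this
  have h4 : ‖∑' n, g n‖ ≤ S := by
    refine (norm_tsum_le_tsum_norm hgs).trans ?_
    exact hgs.tsum_le_tsum hgn np_summable
  have h5 := one_le_ell s.im
  have h6 : S ≤ S * ell s.im := le_mul_of_one_le_right hS0 h5
  refine (norm_sub_le _ _).trans ?_
  rw [norm_neg, add_mul]
  linarith

end Pool.Agent.Y895.PS
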