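import Pool.Agent.Y895.PS.Q2

set_option autoImplicit false

/-!
# Transform of the normalised prime counting function, and the triple convolution
-/

open MeasureTheory Filter Topology Set FourierTransform

namespace Pool.Agent.Y895.PS

open Pool.Agent.W66 (ell one_le_ell)

lemma k0_int {h : ℝ} (hh : 0 < h) (s : ℂ) (hs : 0 ≤ s.re) :
    Integrable fun u : ℝ => (ks h u : ℂ) * Complex.exp (-s * u) := by
  refine Integrable.mono' (ks_BI hh).int ?_ (Eventually.of_forall fun y => ?_)
  · exact ((Complex.measurable_ofReal.comp (ks_BI hh).meas).mul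
      (by fun_prop : Measurable fun u : ℝ => Complex.exp (-s * u))).aestronglyMeasurable
  · simp only [norm_mul, Complex.norm_real, norm_exp_neg]
    rw [Real.norm_of_nonneg (ks_nonneg hh y)]
    by_cases hy : 0 ≤ y ∧ y < h
    · have : Real.exp (-(s.re * y)) ≤ 1 := by
        rw [Real.exp_le_one_iff]
        have := mul_nonneg hs hy.1
        linarith
      exact mul_le_of_le_one_right (ks_nonneg hh y) this
    · rw [ks_zero hy]
      simp

/-- Laplace transform of the prime counting function -/
lemma AA_tr {h : ℝ} (hh : 0 < h) {s : ℂ} (hs : 0 < s.re) (hs1 : s.re ≤ 1) :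
    ∫ u : ℝ, (AA h u : ℂ) * Complex.exp (-s * u) = KK h s * PP s := by
  obtain ⟨C, hC, hb⟩ := PP_bound
  have hsum := (hb s hs hs1).1
  set k0 : ℝ → ℂ := fun u => (ks h u : ℂ) * Complex.exp (-s * u) with hk0
  have hk0i : Integrable k0 := k0_int hh s hs.le
  set F : ℕ → ℝ → ℂ := fun n u =>
    ((wt n : ℂ) * Complex.exp (-s * (Real.log n : ℝ))) * k0 (u - Real.log n) with hF
  have hFint : ∀ n, Integrable (F n) := fun n => (hk0i.comp_sub_right (Real.log n)).const_mul _
  have hFval : ∀ n, ∫ u, F n u = ((wt n : ℂ) * Complex.exp (-s * (Real.log n : ℝ))) * KK h s := by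
    intro n
    rw [hF]
    simp only
    rw [integral_const_mul, integral_sub_right_eq_self k0 (Real.log n)]
    rfl
  have hFn : ∀ n, ∫ u, ‖F n u‖ = ‖(wt n : ℂ) * Complex.exp (-s * (Real.log n : ℝ))‖ *
      ∫ u, ‖k0 u‖ := by
    intro n
    rw [hF]
    simp only [norm_mul (_ * _) _]
    rw [integral_const_mul, integral_sub_right_eq_self (fun u => ‖k0 u‖) (Real.log n)]
  have h1 := hasSum_integral_of_summable_integral_norm hFint (by
    simp only [hFn]
    exact hsum.mul_right _)
  have h2 : ∀ u : ℝ, ∑' n, F n u = (AA h u : ℂ) * Complex.exp (-s * u) := by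
    intro u
    set N := ⌊Real.exp u⌋₊ + 1 with hN
    rw [tsum_eq_sum (s := Finset.range N), AA_eq hh le_rfl]
    · push_cast
      rw [Finset.sum_mul]
      refine Finset.sum_congr rfl fun n _ => ?_
      rw [hF, hk0]
      simp only
      have e : Complex.exp (-s * u) = Complex.exp (-s * (Real.log n : ℝ)) *
          Complex.exp (-s * ((u - Real.log n : ℝ) : ℂ)) := by
        rw [← Complex.exp_add]
        congr 1
        push_cast
        ring
      rw [e]
      push_cast
      ring
    · intro n hn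
      rw [Finset.mem_range, not_lt] at hn
      have hn0 : (0 : ℝ) < n := by exact_mod_cast (by omega : 0 < n)
      have h3 : Real.exp u < n := by
        have := Nat.lt_floor_add_one (Real.exp u)
        have h4 : ((N : ℕ) : ℝ) ≤ n := by exact_mod_cast hn
        rw [hN] at h4
        push_cast at h4
        linarith
      have h5 : u < Real.log n := by
        rw [Real.lt_log_iff_exp_lt hn0]
        exact h3
      rw [hF, hk0]
      simp only
      rw [ks_zero (by intro h6; linarith [h6.1])]
      simp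
  simp only [h2] at h1
  rw [← h1.tsum_eq]
  simp only [hFval]
  rw [tsum_mul_right, mul_comm]
  rfl

/-- boundedness -/
lemma FF_bds : ∃ l0 : ℝ, 1 ≤ l0 ∧ ∀ l : ℝ, l0 ≤ l →
    (∀ u, 2 * l ≤ u → |FF (Real.exp (-l)) u| ≤ 37) ∧
    (∀ u, |FF (Real.exp (-l)) u| ≤ 37 + MM (2 * l) / Real.exp (-l)) ∧
    (∀ u, AA (Real.exp (-l)) u ≤ 37 + MM (2 * l) / Real.exp (-l)) := by
  obtain ⟨l0, hl0, hA⟩ := AA_le
  refine ⟨l0, hl0, fun l hl => ?_⟩
  set h := Real.exp (-l) with hh
  have hh0 : 0 < h := Real.exp_pos _
  have h1 : ∀ u, AA h u ≤ 36 + MM (2 * l) / h := by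
    intro u
    rcases le_total (2 * l) u with hu | hu
    · have := hA l u hl hu
      have h3 : 0 ≤ MM (2 * l) / h := div_nonneg (MM_nonneg _) hh0.le
      rw [← hh] at this
      linarith
    · have h3 : AA h u ≤ MM (2 * l) / h := by
        unfold AA
        apply div_le_div_of_nonneg_right _ hh0.le
        have := MM_mono hu
        have := MM_nonneg (u - h)
        linarith
      linarith
  refine ⟨fun u hu => ?_, fun u => ?_, fun u => by linarith [h1 u]⟩
  · have h2 := hA l u hl hu
    have h3 := AA_nonneg hh0 u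
    have h4 := lin_nonneg hh0 u
    have h5 := lin_le hh0 u
    rw [← hh] at h2
    unfold FF
    rw [abs_le]
    constructor <;> linarith
  · have h2 := h1 u
    have h3 := AA_nonneg hh0 u
    have h4 := lin_nonneg hh0 u
    have h5 := lin_le hh0 u
    have h6 : 0 ≤ MM (2 * l) / h := div_nonneg (MM_nonneg _) hh0.le
    unfold FF
    rw [abs_le]
    constructor <;> linarith

/-- an exponentially damped bounded function on the half line is integrable -/
lemma damp_int {F : ℝ → ℝ} (hm : Measurable F) {B : ℝ} (hB : ∀ u, |F u| ≤ B)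
    (hneg : ∀ u, u < 0 → F u = 0) {s : ℂ} (hs : 0 < s.re) :
    Integrable fun u : ℝ => (F u : ℂ) * Complex.exp (-s * u) := by
  have h1 : Integrable ((Ici (0:ℝ)).indicator fun u => B * Real.exp (-s.re * u)) := by
    rw [integrable_indicator_iff measurableSet_Ici, integrableOn_Ici_iff_integrableOn_Ioi]
    exact (integrableOn_exp_mul_Ioi (by linarith) 0).const_mul B
  refine h1.mono' ((Complex.measurable_ofReal.comp hm).mul
      (by fun_prop : Measurable fun u : ℝ => Complex.exp (-s * u))).aestronglyMeasurable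
      (Eventually.of_forall fun u => ?_)
  rw [norm_mul, norm_exp_neg, Complex.norm_real, Real.norm_eq_abs]
  by_cases hu : 0 ≤ u
  · rw [indicator_of_mem (show u ∈ Ici (0:ℝ) from hu), neg_mul]
    exact mul_le_mul_of_nonneg_right (hB u) (Real.exp_pos _).le
  · rw [hneg u (not_le.1 hu), indicator_of_notMem (show u ∉ Ici (0:ℝ) from hu)]
    simp

lemma KK_ell {l : ℝ} (hl : 1 ≤ l) {s : ℂ} (hs : 0 ≤ s.re) :
    ‖KK (Real.exp (-l)) s‖ * ell s.im ≤ 2 * l + 6 := by
  set h := Real.exp (-l) with hh
  have hh0 : 0 < h := Real.exp_pos _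
  have hl4 : Real.log 4 ≤ 2 := by
    rw [show (4 : ℝ) = 2 ^ 2 by norm_num, Real.log_pow]
    have := Real.log_two_lt_d9
    push_cast
    linarith
  have hinv : 1 / h = Real.exp l := by
    rw [hh, Real.exp_neg, one_div, inv_inv]
  have hel : 1 ≤ Real.exp l := Real.one_le_exp (by linarith)
  have hell0 : 0 ≤ ell s.im := by linarith [one_le_ell s.im]
  rcases le_total |s.im| (1 / h) with ht | ht
  · have h1 : ell s.im ≤ l + 2 := by
      unfold ell
      have h2 : |s.im| + 3 ≤ 4 * Real.exp l := by
        rw [hinv] at ht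
        linarith
      have h3 := Real.log_le_log (by positivity) h2
      rw [Real.log_mul (by norm_num) (Real.exp_pos _).ne', Real.log_exp] at h3
      linarith
    have h2 := mul_le_mul (KK_norm_le hh0 hs) h1 hell0 zero_le_one
    linarith
  · have him : 0 < |s.im| := lt_of_lt_of_le (by positivity) ht
    have h1 := KK_norm_le2 hh0 hs (abs_pos.1 him)
    have hy : 1 ≤ |s.im| * h := by
      rw [div_le_iff₀ hh0] at ht
      exact ht
    have h2 : ell s.im ≤ |s.im| * h + (l + 2) := by
      unfold ell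
      have h3 : |s.im| + 3 ≤ 4 * ((|s.im| * h) * Real.exp l) := by
        have e : |s.im| * h * Real.exp l = |s.im| := by
          rw [← hinv]
          field_simp
        rw [e]
        have : 1 ≤ |s.im| := by
          rw [hinv] at ht
          linarith
        linarith
      have h4 := Real.log_le_log (by positivity) h3
      rw [Real.log_mul (by norm_num) (by positivity), Real.log_mul (by positivity)
        (Real.exp_pos _).ne', Real.log_exp] at h4
      have h5 := Real.log_le_sub_one_of_pos (show 0 < |s.im| * h by positivity)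
      linarith
    calc ‖KK h s‖ * ell s.im ≤ 2 / (|s.im| * h) * (|s.im| * h + (l + 2)) :=
          mul_le_mul h1 h2 hell0 (by positivity)
      _ = 2 + 2 * (l + 2) * (1 / (|s.im| * h)) := by field_simp
      _ ≤ 2 + 2 * (l + 2) * 1 := by
          have : 1 / (|s.im| * h) ≤ 1 := by
            rw [div_le_one (by positivity)]
            exact hy
          have := mul_le_mul_of_nonneg_left this (by linarith : 0 ≤ 2 * (l + 2))
          linarith
      _ = 2 * l + 6 := by ring

/-- **Transform of the normalised prime counting function.** -/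
lemma FF_tr : ∃ C l0 : ℝ, 0 < C ∧ 1 ≤ l0 ∧ ∀ l : ℝ, l0 ≤ l → ∀ s : ℂ, 0 < s.re → s.re ≤ 1 →
    ‖∫ u : ℝ, (FF (Real.exp (-l)) u : ℂ) * Complex.exp (-s * u)‖ ≤ C * (2 * l + 6) := by
  obtain ⟨C, hC, hb⟩ := PP_bound
  obtain ⟨l0, hl0, hbd⟩ := FF_bds
  refine ⟨C, l0, hC, hl0, fun l hl s hs hs1 => ?_⟩
  set h := Real.exp (-l) with hh
  have hh0 : 0 < h := Real.exp_pos _
  have hA : Integrable fun u : ℝ => (AA h u : ℂ) * Complex.exp (-s * u) :=
    damp_int (AA_meas h) (fun u => by
      rw [abs_of_nonneg (AA_nonneg hh0 u)]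
      exact (hbd l hl).2.2 u) (fun u hu => AA_neg hh0 hu) hs
  obtain ⟨i2, e2⟩ := lin_tr hh0 hs
  have e1 := AA_tr hh0 hs hs1
  have e3 : ∫ u : ℝ, (FF h u : ℂ) * Complex.exp (-s * u) = KK h s * (PP s - 1 / s) := by
    have : ∀ u : ℝ, (FF h u : ℂ) * Complex.exp (-s * u) =
        (AA h u : ℂ) * Complex.exp (-s * u) - (lin h u : ℂ) * Complex.exp (-s * u) := by
      intro u
      unfold FF
      push_cast
      ring
    simp only [this]
    rw [integral_sub hA i2, e1, e2]
    ring
  rw [e3, norm_mul]
  have h1 := (hb s hs hs1).2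
  have h2 := KK_ell (by linarith : 1 ≤ l) hs.le
  calc ‖KK h s‖ * ‖PP s - 1 / s‖ ≤ ‖KK h s‖ * (C * ell s.im) :=
        mul_le_mul_of_nonneg_left h1 (norm_nonneg _)
    _ = C * (‖KK h s‖ * ell s.im) := by ring
    _ ≤ C * (2 * l + 6) := mul_le_mul_of_nonneg_left h2 hC.le

/-- the initial segment -/
lemma FF_low : ∃ C : ℝ, 1 ≤ C ∧ ∀ h v0 : ℝ, 0 < h → 1 ≤ v0 →
    Integrable (fun u => (Iio v0).indicator (FF h) u) ∧
    ∫ u, |(Iio v0).indicator (FF h) u| ≤ C * v0 := by
  obtain ⟨C, hC, hM⟩ := MM_mertens
  refine ⟨C + 2, by linarith, fun h v0 hh hv => ?_⟩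
  set N := ⌊Real.exp v0⌋₊ + 1 with hN
  have hone : ∀ n : ℕ, Integrable fun u => wt n * ks h (u - Real.log n) := fun n =>
    ((ks_BI hh).int.comp_sub_right (Real.log n)).const_mul _
  have i1 : Integrable fun u => ∑ n ∈ Finset.range N, wt n * ks h (u - Real.log n) :=
    integrable_finset_sum _ fun n _ => hone n
  have e1 : ∫ u, ∑ n ∈ Finset.range N, wt n * ks h (u - Real.log n) = MM v0 := by
    rw [integral_finset_sum _ fun n _ => hone n]
    unfold MM
    refine Finset.sum_congr rfl fun n _ => ?_
    rw [integral_const_mul, integral_sub_right_eq_self (ks h) (Real.log n), ks_int hh, mul_one]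
  obtain ⟨i2, e2⟩ := ind_const_int (C := 1) (a := v0) (by linarith)
  have hle : ∀ u, |(Iio v0).indicator (FF h) u| ≤
      ∑ n ∈ Finset.range N, wt n * ks h (u - Real.log n) + (Icc 0 v0).indicator (fun _ => 1) u := by
    intro u
    have n1 : 0 ≤ ∑ n ∈ Finset.range N, wt n * ks h (u - Real.log n) :=
      Finset.sum_nonneg fun n _ => mul_nonneg (wt_nonneg n) (ks_nonneg hh _)
    have n2 : 0 ≤ (Icc 0 v0).indicator (fun _ => (1:ℝ)) u :=
      indicator_nonneg (fun _ _ => zero_le_one) u
    by_cases hu : u < v0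
    · rw [indicator_of_mem (show u ∈ Iio v0 from hu)]
      by_cases hu0 : u < 0
      · rw [FF_neg hh hu0, abs_zero]
        linarith
      · rw [indicator_of_mem (show u ∈ Icc 0 v0 from ⟨not_lt.1 hu0, hu.le⟩)]
        have h3 : ⌊Real.exp u⌋₊ + 1 ≤ N := by
          have := Nat.floor_le_floor (Real.exp_le_exp.2 hu.le)
          omega
        rw [← AA_eq hh h3]
        have h4 := AA_nonneg hh u
        have h5 := lin_nonneg hh u
        have h6 := lin_le hh u
        unfold FF
        rw [abs_le]
        constructor <;> linarith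
    · rw [indicator_of_notMem (show u ∉ Iio v0 from hu), abs_zero]
      linarith
  have i3 := i1.add i2
  have i4 : Integrable (fun u => (Iio v0).indicator (FF h) u) :=
    i3.mono' ((FF_meas h).indicator measurableSet_Iio).aestronglyMeasurable
      (Eventually.of_forall fun u => by rw [Real.norm_eq_abs]; exact hle u)
  refine ⟨i4, ?_⟩
  calc ∫ u, |(Iio v0).indicator (FF h) u| ≤
      ∫ u, (∑ n ∈ Finset.range N, wt n * ks h (u - Real.log n) +
        (Icc 0 v0).indicator (fun _ => 1) u) := integral_mono i4.abs i3 hle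
    _ = MM v0 + 1 * v0 := by rw [integral_add i1 i2, e1, e2]
    _ ≤ (C + 2) * v0 := by
        have := (abs_le.1 (hM v0 (by linarith))).2
        nlinarith

end Pool.Agent.Y895.PS
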