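import Pool.Agent.Y895.PS.Q3

set_option autoImplicit false

/-!
# The triple convolution of the normalised prime counting function
-/

open MeasureTheory Filter Topology Set FourierTransform

namespace Pool.Agent.Y895.PS

section

variable {F : ℝ → ℝ} {v0 z : ℝ}

lemma cut_eq {u : ℝ} (hu : u ≤ z) :
    (Ici v0).indicator ((Iic z).indicator F) u = (Ici v0).indicator F u := by
  by_cases h : u ∈ Ici v0
  · rw [indicator_of_mem h, indicator_of_mem h, indicator_of_mem (show u ∈ Iic z from hu)]
  · rw [indicator_of_notMem h, indicator_of_notMem h]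

lemma ici_zero {G : ℝ → ℝ} {u : ℝ} (hu : u < v0) : (Ici v0).indicator G u = 0 :=
  indicator_of_notMem (fun h => absurd h (not_le.2 hu)) _

lemma cut_cnv (hv0 : 0 < v0) {v : ℝ} (hv : v ≤ z) :
    cnv ((Ici v0).indicator ((Iic z).indicator F)) ((Ici v0).indicator ((Iic z).indicator F)) v =
      cnv ((Ici v0).indicator F) ((Ici v0).indicator F) v := by
  unfold cnv
  refine integral_congr_ae (Eventually.of_forall fun u => ?_)
  simp only
  by_cases h1 : u < v0
  · rw [ici_zero h1, ici_zero h1]
    simp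
  · by_cases h2 : v - u < v0
    · rw [ici_zero h2, ici_zero h2]
      simp
    · rw [cut_eq (by linarith), cut_eq (by linarith)]

lemma cnv_neg_zero (hv0 : 0 < v0) {v : ℝ} (hv : v < 0) :
    cnv ((Ici v0).indicator F) ((Ici v0).indicator F) v = 0 := by
  unfold cnv
  have : ∀ u, (Ici v0).indicator F u * (Ici v0).indicator F (v - u) = 0 := by
    intro u
    by_cases h1 : u < v0
    · rw [ici_zero h1, zero_mul]
    · rw [ici_zero (show v - u < v0 by linarith), mul_zero]
  simp only [this, integral_zero]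

lemma cut_cnv3 (hv0 : 0 < v0) :
    cnv (cnv ((Ici v0).indicator ((Iic z).indicator F)) ((Ici v0).indicator ((Iic z).indicator F)))
      ((Ici v0).indicator ((Iic z).indicator F)) z =
    cnv (cnv ((Ici v0).indicator F) ((Ici v0).indicator F)) ((Ici v0).indicator F) z := by
  rw [cnv, cnv]
  refine integral_congr_ae (Eventually.of_forall fun u => ?_)
  simp only
  by_cases h1 : z - u < v0
  · rw [ici_zero h1, ici_zero h1]
    simp
  · rw [cut_cnv hv0 (show u ≤ z by linarith)]
    by_cases h2 : u < 0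
    · rw [cnv_neg_zero hv0 h2]
      simp
    · rw [cut_eq (show z - u ≤ z by linarith)]

lemma damp_cnv {G : ℝ → ℝ} (a v : ℝ) :
    cnv (fun u => G u * Real.exp (-a * u)) (fun u => G u * Real.exp (-a * u)) v =
      cnv G G v * Real.exp (-a * v) := by
  unfold cnv
  rw [← integral_mul_const]
  refine integral_congr_ae (Eventually.of_forall fun u => ?_)
  simp only
  have : Real.exp (-a * v) = Real.exp (-a * u) * Real.exp (-a * (v - u)) := by
    rw [← Real.exp_add]
    congr 1
    ring
  rw [this]
  ring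

lemma damp_cnv3 {G : ℝ → ℝ} (a v : ℝ) :
    cnv (cnv (fun u => G u * Real.exp (-a * u)) (fun u => G u * Real.exp (-a * u)))
      (fun u => G u * Real.exp (-a * u)) v = cnv (cnv G G) G v * Real.exp (-a * v) := by
  rw [cnv, cnv, ← integral_mul_const]
  refine integral_congr_ae (Eventually.of_forall fun u => ?_)
  simp only
  rw [damp_cnv]
  have : Real.exp (-a * v) = Real.exp (-a * u) * Real.exp (-a * (v - u)) := by
    rw [← Real.exp_add]
    congr 1
    ring
  rw [this]
  ring

end

/-- **The triple convolution.** -/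
theorem T3_bound : ∃ C l0 : ℝ, 1 ≤ C ∧ 1 ≤ l0 ∧ ∀ l v0 z : ℝ, l0 ≤ l → 2 * l ≤ v0 → v0 ≤ z →
    |cnv (cnv ((Ici v0).indicator ((Iic z).indicator (FF (Real.exp (-l)))))
      ((Ici v0).indicator ((Iic z).indicator (FF (Real.exp (-l))))))
      ((Ici v0).indicator ((Iic z).indicator (FF (Real.exp (-l))))) z| ≤ C * v0 * z := by
  obtain ⟨C1, l1, hC1, hl1, htr⟩ := FF_tr
  obtain ⟨C2, hC2, hlow⟩ := FF_low
  obtain ⟨l2, hl2, hbd⟩ := FF_bds
  refine ⟨3 * (4 * C1 + C2) * 37 ^ 2 + 1, max l1 l2, by
    have : 0 ≤ 3 * (4 * C1 + C2) * 37 ^ 2 := by positivity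
    linarith, hl1.trans (le_max_left _ _), fun l v0 z hl hv hz => ?_⟩
  have hll1 := (le_max_left _ _).trans hl
  have hll2 := (le_max_right _ _).trans hl
  have hlone : 1 ≤ l := hl1.trans hll1
  have hv02 : 2 ≤ v0 := by linarith
  have hv00 : 0 < v0 := by linarith
  have hz0 : 0 < z := by linarith
  set h := Real.exp (-l) with hh
  have hh0 : 0 < h := Real.exp_pos _
  obtain ⟨b1, b2, -⟩ := hbd l hll2
  rw [cut_cnv3 hv00]
  set G := (Ici v0).indicator (FF h) with hG
  have hGb : ∀ u, |G u| ≤ 37 := by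
    intro u
    by_cases hu : u ∈ Ici v0
    · rw [hG, indicator_of_mem hu]
      exact b1 u (hv.trans hu)
    · rw [hG, indicator_of_notMem hu, abs_zero]
      norm_num
  have hGneg : ∀ u, u < 0 → G u = 0 := fun u hu => ici_zero (by linarith)
  have hGm : Measurable G := (FF_meas h).indicator measurableSet_Ici
  set a := 1 / z with ha
  have ha0 : 0 < a := by positivity
  have ha1 : a ≤ 1 := by
    rw [ha, div_le_one hz0]
    linarith
  set g := fun u => G u * Real.exp (-a * u) with hg
  have hgm : Measurable g := hGm.mul (by fun_prop)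
  have hexp1 : ∀ u, 0 ≤ u → Real.exp (-a * u) ≤ 1 := by
    intro u hu
    rw [Real.exp_le_one_iff]
    have := mul_nonneg ha0.le hu
    linarith
  have hgb : ∀ u, |g u| ≤ 37 := by
    intro u
    rw [hg]
    simp only
    rw [abs_mul, abs_of_pos (Real.exp_pos _)]
    by_cases hu : u < 0
    · rw [hGneg u hu, abs_zero, zero_mul]
      norm_num
    · calc |G u| * Real.exp (-a * u) ≤ 37 * 1 :=
          mul_le_mul (hGb u) (hexp1 u (not_lt.1 hu)) (Real.exp_pos _).le (by norm_num)
        _ = 37 := by norm_num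
  have hint : ∀ c : ℝ, 0 < c → Integrable ((Ici (0:ℝ)).indicator fun u => Real.exp (-c * u)) ∧
      ∫ u, (Ici (0:ℝ)).indicator (fun u => Real.exp (-c * u)) u = 1 / c := by
    intro c hc
    rw [integrable_indicator_iff measurableSet_Ici, integrableOn_Ici_iff_integrableOn_Ioi,
      integral_indicator measurableSet_Ici, integral_Ici_eq_integral_Ioi,
      integral_exp_mul_Ioi (by linarith) 0]
    refine ⟨integrableOn_exp_mul_Ioi (by linarith) 0, ?_⟩
    simp
  have hgi : Integrable g := by
    refine ((hint a ha0).1.const_mul 37).mono' hgm.aestronglyMeasurable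
      (Eventually.of_forall fun u => ?_)
    rw [Real.norm_eq_abs, hg]
    simp only
    rw [abs_mul, abs_of_pos (Real.exp_pos _)]
    by_cases hu : u < 0
    · rw [hGneg u hu, abs_zero, zero_mul, indicator_of_notMem (show u ∉ Ici (0:ℝ) from not_le.2 hu)]
      norm_num
    · rw [indicator_of_mem (show u ∈ Ici (0:ℝ) from not_lt.1 hu)]
      exact mul_le_mul_of_nonneg_right (hGb u) (Real.exp_pos _).le
  have hg2 : ∫ u, g u ^ 2 ≤ 37 ^ 2 * (z / 2) := by
    obtain ⟨i1, e1⟩ := hint (2 * a) (by positivity)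
    have e2 : 1 / (2 * a) = z / 2 := by
      rw [ha]
      field_simp
    rw [← e2, ← e1, ← integral_const_mul]
    refine integral_mono_of_nonneg (Eventually.of_forall fun u => sq_nonneg _)
      (i1.const_mul _) (Eventually.of_forall fun u => ?_)
    rw [hg]
    simp only
    by_cases hu : u < 0
    · rw [hGneg u hu, indicator_of_notMem (show u ∉ Ici (0:ℝ) from not_le.2 hu)]
      norm_num
    · rw [indicator_of_mem (show u ∈ Ici (0:ℝ) from not_lt.1 hu), mul_pow]
      have h1 : Real.exp (-a * u) ^ 2 = Real.exp (-(2 * a) * u) := by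
        rw [← Real.exp_nat_mul]
        congr 1
        push_cast
        ring
      rw [h1]
      apply mul_le_mul_of_nonneg_right _ (Real.exp_pos _).le
      rw [← sq_abs]
      exact pow_le_pow_left₀ (abs_nonneg _) (hGb u) 2
  obtain ⟨il, hl'⟩ := hlow h v0 hh0 (by linarith)
  have hS : ∀ ξ, ‖𝓕 (fun x => (g x : ℂ)) ξ‖ ≤ C1 * (2 * l + 6) + C2 * v0 := by
    intro ξ
    rw [Real.fourier_real_eq_integral_exp_smul]
    set s : ℂ := ⟨a, 2 * Real.pi * ξ⟩ with hs
    have hsre : s.re = a := rfl
    have e1 : ∀ v : ℝ, Complex.exp (((-2 * Real.pi * v * ξ : ℝ) : ℂ) * Complex.I) • ((g v : ℝ) : ℂ) =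
        (FF h v : ℂ) * Complex.exp (-s * v) -
          (((Iio v0).indicator (FF h) v : ℝ) : ℂ) * Complex.exp (-s * v) := by
      intro v
      have e2 : Complex.exp (-s * v) = Complex.exp (((-a * v : ℝ) : ℂ)) *
          Complex.exp (((-2 * Real.pi * v * ξ : ℝ) : ℂ) * Complex.I) := by
        rw [← Complex.exp_add]
        congr 1
        apply Complex.ext
        · simp [hs]
        · simp [hs]
          ring
      have e3 : G v = FF h v - (Iio v0).indicator (FF h) v := by
        by_cases hv1 : v < v0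
        · rw [hG, ici_zero hv1, indicator_of_mem (show v ∈ Iio v0 from hv1)]
          ring
        · rw [hG, indicator_of_mem (show v ∈ Ici v0 from not_lt.1 hv1),
            indicator_of_notMem (show v ∉ Iio v0 from hv1)]
          ring
      rw [hg]
      simp only [smul_eq_mul]
      rw [e2, e3]
      push_cast
      ring
    simp only [e1]
    have i1 : Integrable fun u : ℝ => (FF h u : ℂ) * Complex.exp (-s * u) :=
      damp_int (FF_meas h) b2 (fun u hu => FF_neg hh0 hu) (by rw [hsre]; exact ha0)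
    have hpt : ∀ u : ℝ, ‖(((Iio v0).indicator (FF h) u : ℝ) : ℂ) * Complex.exp (-s * u)‖ ≤
        |(Iio v0).indicator (FF h) u| := by
      intro u
      rw [norm_mul, Complex.norm_real, Real.norm_eq_abs, norm_exp_neg, hsre]
      by_cases hu : u < 0
      · have : (Iio v0).indicator (FF h) u = 0 := by
          rw [indicator_of_mem (show u ∈ Iio v0 from by
            have : u < v0 := by linarith
            exact this), FF_neg hh0 hu]
        rw [this]
        simp
      · have h3 := hexp1 u (not_lt.1 hu)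
        rw [neg_mul] at h3
        exact mul_le_of_le_one_right (abs_nonneg _) h3
    have i2 : Integrable fun u : ℝ => (((Iio v0).indicator (FF h) u : ℝ) : ℂ) *
        Complex.exp (-s * u) := by
      refine il.abs.mono' ?_ (Eventually.of_forall hpt)
      exact ((Complex.measurable_ofReal.comp ((FF_meas h).indicator measurableSet_Iio)).mul
        (by fun_prop : Measurable fun u : ℝ => Complex.exp (-s * u))).aestronglyMeasurable
    rw [integral_sub i1 i2]
    refine (norm_sub_le _ _).trans (add_le_add ?_ ?_)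
    · exact htr l hll1 s (by rw [hsre]; exact ha0) (by rw [hsre]; exact ha1)
    · refine (norm_integral_le_integral_norm _).trans (le_trans ?_ hl')
      exact integral_mono i2.norm il.abs hpt
  have h3 := cnv3 hgi hgm hgb hS z
  rw [hg, damp_cnv3] at h3
  have e4 : Real.exp (-a * z) = Real.exp (-1) := by
    congr 1
    rw [ha]
    field_simp
  rw [e4, abs_mul, abs_of_pos (Real.exp_pos _)] at h3
  have hS0 : 0 ≤ C1 * (2 * l + 6) + C2 * v0 := by positivity
  have h4 : |cnv (cnv G G) G z| * Real.exp (-1) ≤ (C1 * (2 * l + 6) + C2 * v0) *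
      (37 ^ 2 * (z / 2)) := h3.trans (mul_le_mul_of_nonneg_left hg2 hS0)
  have h5 : (1:ℝ) / 3 ≤ Real.exp (-1) := by
    rw [Real.exp_neg, one_div]
    apply inv_anti₀ (Real.exp_pos _)
    have := Real.exp_one_lt_d9
    linarith
  have h6 : |cnv (cnv G G) G z| * (1 / 3) ≤ |cnv (cnv G G) G z| * Real.exp (-1) :=
    mul_le_mul_of_nonneg_left h5 (abs_nonneg _)
  have h7 : C1 * (2 * l + 6) + C2 * v0 ≤ (4 * C1 + C2) * v0 := by
    have : C1 * (2 * l + 6) ≤ C1 * (4 * v0) := mul_le_mul_of_nonneg_left (by linarith) hC1.le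
    linarith
  have h8 := mul_le_mul_of_nonneg_right h7 (by positivity : 0 ≤ 37 ^ 2 * (z / 2))
  have h9 : 0 ≤ v0 * z := by positivity
  have h10 : 0 ≤ (4 * C1 + C2) * 37 ^ 2 * (v0 * z) := by positivity
  have e5 : (3 * (4 * C1 + C2) * 37 ^ 2 + 1) * v0 * z =
    3 * ((4 * C1 + C2) * 37 ^ 2 * (v0 * z)) + v0 * z := by ring
  have e6 : (4 * C1 + C2) * v0 * (37 ^ 2 * (z / 2)) = ((4 * C1 + C2) * 37 ^ 2 * (v0 * z)) / 2 := by
    ring
  rw [e5]
  rw [e6] at h8
  linarith

end Pool.Agent.Y895.PS
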