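import Pool.Agent.Y895.PS.S2
import Pool.Agent.H295R3.Task469D
import Pool.Agent.H902R3.Task469C
import Pool.Agent.H154R3.Task469B

set_option autoImplicit false

/-!
# Selberg's formula in short intervals: upper bound

Adapted from `Pool.Agent.H295R3.Task469D` (the lower bound).
-/

open Finset Filter Topology

namespace Pool.Agent.Y895.PS

open Pool.Agent.H469R10.HO Pool.Agent.H295R3.D

lemma div_succ_le (Y p : ℕ) (hp : 1 ≤ p) : (Y:ℝ) / p ≤ ((Y / p + 1 : ℕ) : ℝ) := by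
  have hp0 : (0:ℝ) < p := by exact_mod_cast hp
  rw [div_le_iff₀ hp0]
  have := Nat.lt_div_mul_add (a := Y) (b := p) hp
  have h : Y ≤ (Y / p + 1) * p := by nlinarith
  exact_mod_cast h

/-- upper bound in Selberg's formula in short intervals -/
theorem selU : ∀ ε : ℝ, 0 < ε → ∃ δ : ℝ, 0 < δ ∧ δ < 1 ∧ ∃ X₀ : ℕ, 2 ≤ X₀ ∧
    ∀ X Y : ℕ, X₀ ≤ X → (X : ℝ) ^ (1 - δ) ≤ Y → Y ≤ X →
      Real.log X * ∑ p ∈ (Ioc X (X + Y)).filter Nat.Prime, Real.log p + PS X Y ≤
        (2 + ε) * Y * Real.log X := by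
  have hFL : FundLemma := Pool.Agent.H154R3.Fund.fundLemma
  intro ε0 hε0
  set ε : ℝ := min ε0 1 with hεdef
  have hε : 0 < ε := lt_min hε0 one_pos
  have hε1 : ε ≤ 1 := min_le_right _ _
  have hεε0 : ε ≤ ε0 := min_le_left _ _
  obtain ⟨C₁, hC1, hRS⟩ := rough_sum
  obtain ⟨C₂, hC2⟩ := Pool.Agent.Helper601.Mertens.mertens_log
  have hC20 : 0 ≤ C₂ := (abs_nonneg _).trans (hC2 1 le_rfl)
  have hC1pos : 0 < C₁ := by linarith
  set κ : ℝ := ε / (8000 * C₁) with hκdef
  have hκ : 0 < κ := by positivity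
  have hκC : κ * C₁ = ε / 8000 := by rw [hκdef]; field_simp
  have hκ1 : κ ≤ ε / 8000 := by
    rw [← hκC]; exact le_mul_of_one_le_right hκ.le hC1
  obtain ⟨s, hs1, hsκ, z₀, hz₀, hz⟩ := hFL κ hκ
  have hs0 : (0:ℝ) < s := by exact_mod_cast hs1
  have hs8000 : (8000:ℝ) ≤ s := by
    rw [div_le_iff₀ hs0] at hsκ
    exact aux8000 κ s hs0 (by linarith) hsκ
  set ρ : ℝ := 1 / (s:ℝ) ^ 4 with hρdef
  have hρ : 0 < ρ := by positivity
  have hsinv : 1 / (s:ℝ) ≤ ε / 8000 := hsκ.trans hκ1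
  set t : ℝ := 1 / (s:ℝ) with htdef
  have ht0 : 0 < t := by positivity
  have hts : t * s = 1 := by rw [htdef]; field_simp
  have hρt : ρ = t ^ 4 := by rw [hρdef, htdef]; field_simp
  have ht1 : t ≤ 1 / 8000 := hsinv.trans (by linarith)
  have ht3 : t ^ 3 ≤ 1 / 64 := by
    calc t ^ 3 ≤ (1 / 8000) ^ 3 := pow_le_pow_left₀ ht0.le ht1 3
      _ ≤ 1 / 64 := by norm_num
  have ht43 : t ^ 4 ≤ t ^ 3 := pow_le_pow_of_le_one ht0.le (by linarith) (by norm_num)
  have ht4t : t ^ 4 ≤ t := by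
    calc t ^ 4 ≤ t ^ 1 := pow_le_pow_of_le_one ht0.le (by linarith) (by norm_num)
      _ = t := pow_one t
  have hρ1 : ρ ≤ 1 / 64 := by rw [hρt]; linarith
  set κ' : ℝ := κ / (s:ℝ) ^ 8 with hκ'def
  have hκ' : 0 < κ' := by positivity
  have hκ't : κ' = κ * t ^ 8 := by rw [hκ'def, htdef]; field_simp
  -- PNT
  have hpnt : ∀ᶠ x : ℝ in atTop, Chebyshev.psi x ≤ (1 + ε / 16) * x := by
    have h := Pool.Agent.Cov.PNT.psi_div_tendsto.eventually (gt_mem_nhds
      (show (1:ℝ) < 1 + ε / 16 by linarith))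
    filter_upwards [h, eventually_gt_atTop 0] with x h1 h2
    rw [div_lt_iff₀ h2] at h1
    exact h1.le
  obtain ⟨Z, hZ2, hBT⟩ := Pool.Agent.H902R3.C469.bt2 1 one_pos
  obtain ⟨x₁, hx₁⟩ := eventually_atTop.1 hpnt
  set B : ℝ := max (max z₀ 3) (max (4 / κ') (max x₁ (Z:ℝ))) with hBdef
  have hlarge := large ρ (ε / 64) (max (100 * C₂ + 6) (32 * (s:ℝ) ^ 4)) (B + 1) hρ (by positivity)
  obtain ⟨X₀, hX₀⟩ := eventually_atTop.1 hlarge
  refine ⟨ρ, hρ, by linarith, max X₀ 2, le_max_right _ _, ?_⟩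
  intro X Y hX hXY hYX
  obtain ⟨g1, g2, g3, g4, g5, g6, g7, g8⟩ := hX₀ X ((le_max_left _ _).trans hX)
  clear hX₀ hlarge
  set x : ℝ := (X:ℝ) with hx
  set lx : ℝ := Real.log x with hlx
  have hx0 : 0 < x := by linarith
  have hxr0 : 0 < x ^ ρ := by positivity
  set z : ℕ := ⌊x ^ ρ⌋₊ with hzdef
  have hzle : (z:ℝ) ≤ x ^ ρ := Nat.floor_le hxr0.le
  have hzge : x ^ ρ / 2 ≤ z := by
    have := Nat.sub_one_lt_floor (x ^ ρ)
    rw [← hzdef] at this
    linarith
  have hBz : B ≤ z := by linarith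
  have hzz₀ : z₀ ≤ z := by
    have : (z₀:ℝ) ≤ z := ((le_max_left _ _).trans (le_max_left _ _)).trans hBz
    exact_mod_cast this
  have hz3 : 3 ≤ z := by
    have : (3:ℝ) ≤ z := ((le_max_right _ _).trans (le_max_left _ _)).trans hBz
    exact_mod_cast this
  have hzκ : 4 / κ' ≤ z := ((le_max_left _ _).trans (le_max_right _ _)).trans hBz
  have hzx₁ : x₁ ≤ z := (((le_max_left _ _).trans (le_max_right _ _)).trans
    (le_max_right _ _)).trans hBz
  have hz3r : (3:ℝ) ≤ z := by exact_mod_cast hz3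
  have hz0r : (0:ℝ) < z := by linarith
  -- logs
  have hlxr : Real.log (x ^ ρ) = ρ * lx := Real.log_rpow hx0 ρ
  have hlz_le : Real.log z ≤ ρ * lx := by
    rw [← hlxr]; exact Real.log_le_log hz0r hzle
  have hl2 : Real.log 2 ≤ 1 := by have := Real.log_two_lt_d9; linarith
  have hl20 : 0 ≤ Real.log 2 := Real.log_nonneg (by norm_num)
  have hlz_ge : ρ * lx / 2 ≤ Real.log z := by
    have h1 : Real.log (x ^ ρ / 2) ≤ Real.log z := Real.log_le_log (by positivity) hzge
    rw [Real.log_div hxr0.ne' (by norm_num), hlxr] at h1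
    linarith
  have hlz0 : 0 < Real.log z := Real.log_pos (by linarith)
  -- Y
  have hx1ρ : 0 < x ^ (1 - ρ) := by positivity
  have hY0 : (0:ℝ) < Y := lt_of_lt_of_le hx1ρ hXY
  have hY1 : 1 ≤ Y := by exact_mod_cast hY0
  have hlY : (1 - ρ) * lx ≤ Real.log Y := by
    rw [hlx, ← Real.log_rpow hx0]; exact Real.log_le_log hx1ρ hXY
  have hYxr : (Y:ℝ) ≤ x := by rw [hx]; exact_mod_cast hYX
  -- L
  set L : ℝ := Real.log ((X + Y : ℕ) : ℝ) with hLdef
  have hNr : ((X + Y : ℕ) : ℝ) = x + Y := by push_cast; rfl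
  have hN0 : (0:ℝ) < ((X + Y : ℕ) : ℝ) := by rw [hNr]; linarith
  have hlxL : lx ≤ L := by
    rw [hLdef, hNr]; exact Real.log_le_log hx0 (by linarith)
  have hLlx : L ≤ lx + Real.log 2 := by
    rw [hLdef, hNr, hlx, ← Real.log_mul hx0.ne' (by norm_num)]
    exact Real.log_le_log (by linarith) (by linarith)
  have hlx0 : 0 < lx := by linarith
  have hT : t ^ 3 * lx ≤ lx / 64 := by
    have := mul_le_mul_of_nonneg_right ht3 hlx0.le
    linarith
  have hRT : ρ * lx ≤ t ^ 3 * lx := by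
    apply mul_le_mul_of_nonneg_right _ hlx0.le
    rw [hρt]; exact ht43
  have hR : ρ * lx ≤ lx / 64 := hRT.trans hT
  have hεlx : 0 < ε * lx := mul_pos hε hlx0
  have hL2 : L ≤ 2 * lx := by linarith
  have hL0 : 0 < L := by linarith
  -- W
  set W : ℕ := z ^ s with hWdef
  have hW1 : 1 ≤ W := Nat.one_le_pow _ _ (by omega)
  have hzW : z ≤ W := by
    calc z = z ^ 1 := (pow_one z).symm
      _ ≤ z ^ s := Nat.pow_le_pow_right (by omega) hs1
  have hWr1 : (1:ℝ) ≤ W := by exact_mod_cast hW1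
  have hW0 : (0:ℝ) < W := by linarith
  have hlW : Real.log W ≤ t ^ 3 * lx := by
    rw [hWdef]
    push_cast
    rw [Real.log_pow]
    have h1 : (s:ℝ) * Real.log z ≤ s * (ρ * lx) := mul_le_mul_of_nonneg_left hlz_le hs0.le
    have h2 : (s:ℝ) * (ρ * lx) = t ^ 3 * lx := by
      rw [hρt]
      calc (s:ℝ) * (t ^ 4 * lx) = (t * s) * (t ^ 3 * lx) := by ring
        _ = t ^ 3 * lx := by rw [hts, one_mul]
    linarith
  -- D
  set D : ℕ := Y / (W + 1) with hDdef
  have hDY : D * (W + 1) ≤ Y := Nat.div_mul_le_self _ _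
  have hl4 : Real.log 4 ≤ 2 := by
    have : (4:ℝ) = 2 ^ 2 := by norm_num
    rw [this, Real.log_pow]; push_cast; linarith
  have hWY : W + 1 ≤ Y := by
    have h1 : Real.log ((W + 1 : ℕ) : ℝ) ≤ Real.log Y := by
      have h2 : Real.log ((W + 1 : ℕ) : ℝ) ≤ Real.log 2 + Real.log W := by
        rw [← Real.log_mul (by norm_num) hW0.ne']
        apply Real.log_le_log (by positivity)
        push_cast; linarith
      linarith
    have h2 := (Real.log_le_log_iff (by positivity) hY0).1 h1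
    exact_mod_cast h2
  have hD1 : 1 ≤ D := by
    rw [hDdef, Nat.le_div_iff_mul_le (by omega)]; omega
  have hD0 : (0:ℝ) < D := by exact_mod_cast hD1
  have hDge : (Y:ℝ) ≤ 4 * (W * D) := by
    have h1 : Y < (D + 1) * (W + 1) := by
      have := Nat.lt_div_mul_add (a := Y) (b := W + 1) (by omega)
      rw [← hDdef] at this
      exact lt_of_lt_of_eq this (by ring)
    have h2 : Y ≤ 4 * (W * D) := by
      calc Y ≤ (D + 1) * (W + 1) := h1.le
        _ ≤ (2 * D) * (2 * W) := Nat.mul_le_mul (by omega) (by omega)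
        _ = 4 * (W * D) := by ring
    exact_mod_cast h2
  have hlD : Real.log Y - 2 - t ^ 3 * lx ≤ Real.log D := by
    have := Real.log_le_log hY0 hDge
    rw [Real.log_mul (by norm_num) (by positivity), Real.log_mul hW0.ne' hD0.ne'] at this
    linarith
  have hlD2 : lx - 2 * (t ^ 3 * lx) - 2 ≤ Real.log D := by
    linarith
  have hLD0 : 0 ≤ L - Real.log D := by
    rw [sub_nonneg, hLdef]
    apply Real.log_le_log hD0
    have : D ≤ X + Y := (Nat.div_le_self _ _).trans (by omega)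
    exact_mod_cast this
  have ht3lx : 4 ≤ t ^ 3 * lx := by
    linarith
  have hLD : L - Real.log D ≤ 3 * t ^ 3 * lx := by linarith
  -- M
  set M : ℕ := (X + Y) / (D + 1) with hMdef
  have hM : X + Y < (D + 1) * (M + 1) := by
    have := Nat.lt_div_mul_add (a := X + Y) (b := D + 1) (by omega)
    rw [← hMdef] at this
    exact lt_of_lt_of_eq this (by ring)
  have hMD : M ≤ D := by
    have h1 : X + Y < (D + 1) * (D + 1) := by
      have h2 : L < 2 * Real.log D := by linarith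
      have h3 : 2 * Real.log D = Real.log ((D * D : ℕ) : ℝ) := by
        push_cast
        rw [Real.log_mul hD0.ne' hD0.ne']; ring
      rw [h3, hLdef] at h2
      have h4 := (Real.log_lt_log_iff hN0 (by positivity)).1 h2
      have h5 : X + Y < D * D := by exact_mod_cast h4
      exact lt_of_lt_of_le h5 (Nat.mul_le_mul (by omega) (by omega))
    rw [hMdef]
    have := Nat.div_lt_of_lt_mul (m := X + Y) (n := D + 1) (k := D + 1) h1
    omega
  have hWM : W ≤ M := by
    rw [hMdef, Nat.le_div_iff_mul_le (by omega)]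
    have h1 : W * (D + 1) ≤ W * (2 * D) := Nat.mul_le_mul_left _ (by omega)
    have h2 : W * (2 * D) = 2 * (D * W) := by ring
    have h3 : D * W ≤ D * (W + 1) := Nat.mul_le_mul_left _ (by omega)
    omega
  have hzM : z ≤ M := hzW.trans hWM
  have hM0 : (0:ℝ) < M := by exact_mod_cast (by omega : 0 < M)
  have hlM : Real.log M ≤ L - Real.log D := by
    have h1 : (M:ℝ) * D ≤ ((X + Y : ℕ) : ℝ) := by
      have : M * (D + 1) ≤ X + Y := Nat.div_mul_le_self _ _
      have h2 : M * D ≤ X + Y := (Nat.mul_le_mul_left M (by omega : D ≤ D + 1)).trans this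
      exact_mod_cast h2
    have := Real.log_le_log (by positivity) h1
    rw [Real.log_mul hM0.ne' hD0.ne'] at this
    linarith
  -- FundLemma
  obtain ⟨V, hV0, hV, hF⟩ := hz z hzz₀
  have hF' : ∀ A Y : ℕ, W ≤ Y →
      |(((Ioc A (A + Y)).filter (Rough z)).card : ℝ) - V * Y| ≤ κ' * V * Y := by
    intro A Y hWY
    have h := hF A Y hWY
    have e : (Ioc A (A + Y)).filter (Rough z) =
        @Finset.filter ℕ (fun n => ∀ p : ℕ, p.Prime → p < z → ¬ p ∣ n)
          (fun _ => Classical.propDecidable _) (Ioc A (A + Y)) := by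
      ext n; simp [Rough]
    rw [e]
    exact h
  have hs8 : (1:ℝ) ≤ (s:ℝ) ^ 8 := one_le_pow₀ (by linarith)
  have hκ'κ : κ' ≤ κ := by
    rw [hκ'def]; exact div_le_self hκ.le hs8
  have hκ'1 : κ' ≤ 1 := by linarith
  have hE : κ' + 2 / (W:ℝ) ≤ 2 * κ' := by
    have h1 : (z:ℝ) ≤ W := by exact_mod_cast hzW
    have h2 : 4 / κ' ≤ W := hzκ.trans h1
    rw [div_le_iff₀ hκ'] at h2
    have h3 : 2 / (W:ℝ) ≤ κ' := by
      rw [div_le_iff₀ hW0]
      linarith
    linarith
  have hcmp := compare z W κ' V L hκ'.le hκ'1 hV0.le hW1 hF' X Y D M hD1 hDY hM hMD hLdef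
  have hRS1 := hRS z (X + Y) hz3 (by omega)
  have hRS2 := hRS z M hz3 hzM
  rw [← hLdef] at hRS1
  set E : ℝ := κ' + 2 / (W:ℝ) with hEdef
  have hE0 : 0 ≤ E := by positivity
  have hE1 : E ≤ 1 := by linarith
  -- error terms
  have hlzinv : 1 / Real.log z ≤ 2 / (t ^ 4 * lx) := by
    rw [div_le_div_iff₀ hlz0 (by positivity)]
    rw [hρt] at hlz_ge
    linarith
  have hVle : V ≤ 4 / (t ^ 4 * lx) := by
    have : 2 / Real.log z = 2 * (1 / Real.log z) := by ring
    have h2 : 4 / (t ^ 4 * lx) = 2 * (2 / (t ^ 4 * lx)) := by ring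
    rw [h2]; linarith
  have ht4lx : 0 < t ^ 4 * lx := by positivity
  have hR1 : ∑ d ∈ (Icc 1 (X + Y)).filter (Rough z), (1:ℝ) / d ≤ 4 * C₁ / t ^ 4 := by
    refine hRS1.trans ?_
    have h1 : L / Real.log z ≤ 4 / t ^ 4 := by
      have : L / Real.log z = L * (1 / Real.log z) := by ring
      rw [this]
      calc L * (1 / Real.log z) ≤ (2 * lx) * (2 / (t ^ 4 * lx)) :=
            mul_le_mul hL2 hlzinv (by positivity) (by positivity)
        _ = 4 / t ^ 4 := by field_simp; norm_num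
    calc C₁ * (L / Real.log z) ≤ C₁ * (4 / t ^ 4) := mul_le_mul_of_nonneg_left h1 hC1pos.le
      _ = 4 * C₁ / t ^ 4 := by ring
  have hR2 : ∑ m ∈ (Icc 1 M).filter (Rough z), (1:ℝ) / m ≤ 6 * C₁ / t := by
    refine hRS2.trans ?_
    have h0 : Real.log M ≤ 3 * t ^ 3 * lx := hlM.trans hLD
    have h1 : Real.log M / Real.log z ≤ 6 / t := by
      have : Real.log M / Real.log z = Real.log M * (1 / Real.log z) := by ring
      rw [this]
      calc Real.log M * (1 / Real.log z) ≤ (3 * t ^ 3 * lx) * (2 / (t ^ 4 * lx)) :=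
            mul_le_mul h0 hlzinv (by positivity) (by positivity)
        _ = 6 / t := by field_simp; norm_num
    calc C₁ * (Real.log M / Real.log z) ≤ C₁ * (6 / t) := mul_le_mul_of_nonneg_left h1 hC1pos.le
      _ = 6 * C₁ / t := by ring
  have hA1 : 2 * E * V * L ^ 2 * ∑ d ∈ (Icc 1 (X + Y)).filter (Rough z), (1:ℝ) / d ≤
      256 * (κ * C₁) * lx := by
    have hE2 : E ≤ 2 * (κ * t ^ 8) := by rw [← hκ't]; exact hE
    have hLsq : L ^ 2 ≤ (2 * lx) ^ 2 := pow_le_pow_left₀ hL0.le hL2 2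
    have hsum0 : 0 ≤ ∑ d ∈ (Icc 1 (X + Y)).filter (Rough z), (1:ℝ) / d :=
      sum_nonneg fun _ _ => by positivity
    calc 2 * E * V * L ^ 2 * ∑ d ∈ (Icc 1 (X + Y)).filter (Rough z), (1:ℝ) / d
        ≤ 2 * (2 * (κ * t ^ 8)) * (4 / (t ^ 4 * lx)) * (2 * lx) ^ 2 * (4 * C₁ / t ^ 4) := by
          gcongr
      _ = 256 * (κ * C₁) * lx := by field_simp; norm_num
  have hA2 : 2 * (1 + E) * V * (L - Real.log D) ^ 2 *
        ∑ m ∈ (Icc 1 M).filter (Rough z), (1:ℝ) / m ≤ 864 * (κ * C₁) * lx := by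
    have hLsq : (L - Real.log D) ^ 2 ≤ (3 * t ^ 3 * lx) ^ 2 := pow_le_pow_left₀ hLD0 hLD 2
    calc 2 * (1 + E) * V * (L - Real.log D) ^ 2 *
        ∑ m ∈ (Icc 1 M).filter (Rough z), (1:ℝ) / m
        ≤ 2 * (1 + 1) * (4 / (t ^ 4 * lx)) * (3 * t ^ 3 * lx) ^ 2 * (6 * C₁ / t) := by
          gcongr
      _ = 864 * (t * C₁) * lx := by field_simp; norm_num
      _ ≤ 864 * (κ * C₁) * lx := by gcongr
  have hcmp2 : SS L z X Y / Y ≤ SS L z 0 (X + Y) / ((X + Y : ℕ) : ℝ) + (ε / 4) * lx := by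
    have h1 := (abs_le.1 hcmp).2
    have h2 : 256 * (κ * C₁) * lx + 864 * (κ * C₁) * lx ≤ (ε / 4) * lx := by
      rw [hκC]; linarith
    linarith
  have hg1 : 100 * C₂ + 6 ≤ ε / 64 * lx := (le_max_left _ _).trans g6
  have hg2 : 32 * (s:ℝ) ^ 4 ≤ ε / 64 * lx := (le_max_right _ _).trans g6
  have hs4 : (s:ℝ) ≤ (s:ℝ) ^ 4 := by
    calc (s:ℝ) = (s:ℝ) ^ 1 := (pow_one _).symm
      _ ≤ (s:ℝ) ^ 4 := pow_le_pow_right₀ (by linarith) (by norm_num)
  have hxN : x ≤ ((X + Y : ℕ) : ℝ) := by rw [hNr]; linarith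
  -- upper bound for the long interval
  have hup : SS L z 0 (X + Y) ≤ (2 + ε / 2) * lx * ((X + Y : ℕ) : ℝ) := by
    have h := upperLong (ε / 16) L s z (X + Y) (by omega) (by omega) (by linarith) (by positivity)
      (fun y hy => hx₁ y (hzx₁.trans hy)) hLdef
    refine h.trans ?_
    set N : ℝ := ((X + Y : ℕ) : ℝ) with hNdef
    have hLs : L ≤ lx + 1 := by linarith
    have hx14 : x ^ (1/4 : ℝ) ≤ N := by
      refine le_trans ?_ hxN
      calc x ^ (1/4 : ℝ) ≤ x ^ (1:ℝ) :=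
            Real.rpow_le_rpow_of_exponent_le (by linarith) (by norm_num)
        _ = x := Real.rpow_one x
    have e1 : L ^ 2 ≤ (ε / 64 * lx) * N := by
      have h1 : L ^ 2 ≤ (2 * lx) * (2 * lx) := by
        rw [sq]
        exact mul_le_mul hL2 hL2 hL0.le (by linarith)
      have h2 : 4 * lx ≤ ε / 64 * x ^ (1/4 : ℝ) := by linarith
      have h3 : lx * (4 * lx) ≤ lx * (ε / 64 * x ^ (1/4 : ℝ)) := mul_le_mul_of_nonneg_left h2 hlx0.le
      have h4 : lx * (ε / 64 * x ^ (1/4 : ℝ)) ≤ lx * (ε / 64 * N) := by gcongr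
      linarith
    have hlogs : Real.log s ≤ s := (Real.log_le_sub_one_of_pos hs0).trans (by linarith)
    have e2 : 7 * N * Real.log s ≤ (ε / 64 * lx) * N := by
      have h1 : 7 * Real.log s ≤ ε / 64 * lx := by linarith
      have := mul_le_mul_of_nonneg_right h1 hN0.le
      linarith
    have e3 : N / s * (L + 7) ≤ (ε / 64 * lx) * N := by
      have h1 : N / s = t * N := by rw [htdef]; ring
      rw [h1]
      have h2 : t * (L + 7) ≤ ε / 64 * lx := by
        have h3 : L + 7 ≤ 8 * lx := by linarith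
        calc t * (L + 7) ≤ (ε / 8000) * (8 * lx) :=
              mul_le_mul hsinv h3 (by linarith) (by positivity)
          _ ≤ ε / 64 * lx := by linarith
      have := mul_le_mul_of_nonneg_right h2 hN0.le
      linarith
    have e4 : (1 + ε / 16) * N * L + (1 + ε / 16) * N * (L + 7) ≤
        (2 + ε / 8 + ε / 16) * lx * N := by
      have h1 : (1 + ε / 16) * L + (1 + ε / 16) * (L + 7) ≤ (2 + ε / 8 + ε / 16) * lx := by
        have h2 : ε * L ≤ ε * (lx + 1) := mul_le_mul_of_nonneg_left hLs hε.le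
        linarith
      have := mul_le_mul_of_nonneg_right h1 hN0.le
      linarith
    have e5 : 0 ≤ ε * lx * N := by positivity
    linarith
  have hup2 : SS L z X Y ≤ (2 + 3 * ε / 4) * lx * Y := by
    have h1 : SS L z 0 (X + Y) / ((X + Y : ℕ) : ℝ) ≤ (2 + ε / 2) * lx := by
      rw [div_le_iff₀ hN0]
      exact hup
    have h2 : SS L z X Y / Y ≤ (2 + 3 * ε / 4) * lx := by linarith
    rwa [div_le_iff₀ hY0] at h2
  -- lower bound for the short interval
  have hzX : z ≤ X := by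
    have : (z:ℝ) ≤ x := by
      calc (z:ℝ) ≤ x ^ ρ := hzle
        _ ≤ x ^ (1:ℝ) := Real.rpow_le_rpow_of_exponent_le (by linarith) (by linarith)
        _ = x := Real.rpow_one x
    have h' : (z:ℝ) ≤ (X:ℝ) := this
    exact_mod_cast h'
  have hlow := lowerShort L z X Y (by omega) hzX hLdef
  have hzY : z ≤ Y := by omega
  have hZz : (Z:ℝ) ≤ z := (((le_max_right _ _).trans (le_max_right _ _)).trans
    (le_max_right _ _)).trans hBz
  have hSP := SP_le (C₂ := C₂) (Z := Z) (lx := lx) (z := z) (X := X) (Y := Y) (by omega) hC2 hlx0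
    (by rw [← hLdef]; exact hL2) (fun A B hB => by
      have := hBT A B (by exact_mod_cast hB)
      have e : (2:ℝ) + 1 = 3 := by norm_num
      rw [e] at this
      exact this) (fun p hp1 hp2 => by
      have hp0 : (0:ℝ) < p := by exact_mod_cast hp1
      have hYp : (Y:ℝ) / p ≤ ((Y / p + 1 : ℕ) : ℝ) := div_succ_le Y p hp1
      have hlp : Real.log p ≤ ρ * lx :=
        (Real.log_le_log hp0 (by exact_mod_cast hp2)).trans hlz_le
      have hl : Real.log Y - Real.log p ≤ Real.log ((Y / p + 1 : ℕ) : ℝ) := by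
        rw [← Real.log_div hY0.ne' hp0.ne']
        exact Real.log_le_log (by positivity) hYp
      refine ⟨hp2.trans hzY, ?_, by linarith⟩
      have h1 : Real.log z ≤ Real.log ((Y / p + 1 : ℕ) : ℝ) := by linarith
      have h2 := (Real.log_le_log_iff hz0r (by positivity)).1 h1
      exact hZz.trans h2)
  have hgoal : lx * ∑ p ∈ (Ioc X (X + Y)).filter Nat.Prime, Real.log p + PS X Y ≤
      (2 + ε) * Y * lx := by
    have hP0 : 0 ≤ ∑ p ∈ (Ioc X (X + Y)).filter Nat.Prime, Real.log p :=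
      sum_nonneg fun _ _ => Real.log_natCast_nonneg _
    have h1 := mul_le_mul_of_nonneg_right hlxL hP0
    have h2 : 48 * (Real.log z + C₂) ≤ ε / 4 * lx := by
      have h3 : ρ * lx ≤ (ε / 8000) * lx := by
        apply mul_le_mul_of_nonneg_right _ hlx0.le
        rw [hρt]; exact ht4t.trans hsinv
      linarith
    have h3 := mul_le_mul_of_nonneg_right h2 hY0.le
    linarith
  have hlast : (2 + ε) * Y * lx ≤ (2 + ε0) * Y * lx := by
    apply mul_le_mul_of_nonneg_right _ hlx0.le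
    apply mul_le_mul_of_nonneg_right _ hY0.le
    linarith
  exact hgoal.trans hlast

end Pool.Agent.Y895.PS
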