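import Pool.Agent.Y895.PS.Q1
import Pool.Agent.Y895.PS.S3
import Pool.Agent.H295R3.Hoheisel

set_option autoImplicit false

/-!
# Selberg's formula in short intervals on the logarithmic scale
-/

open MeasureTheory Filter Topology Set

namespace Pool.Agent.Y895.PS

open Pool.Agent.H295R3.D (PS)

/-- products of two primes -/
noncomputable def BB (h w : ℝ) : ℝ :=
  ∑ n ∈ Finset.range (⌊Real.exp w⌋₊ + 1), wt n * AA h (w - Real.log n)

lemma log_gt_of {w : ℝ} {n : ℕ} (hn : ⌊Real.exp w⌋₊ + 1 ≤ n) : w < Real.log n := by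
  have hn0 : (0 : ℝ) < n := by exact_mod_cast (by omega : 0 < n)
  rw [Real.lt_log_iff_exp_lt hn0]
  have := Nat.lt_floor_add_one (Real.exp w)
  have h4 : ((⌊Real.exp w⌋₊ + 1 : ℕ) : ℝ) ≤ n := by exact_mod_cast hn
  push_cast at h4
  linarith

lemma BB_eq {h w : ℝ} (hh : 0 < h) {N : ℕ} (hN : ⌊Real.exp w⌋₊ + 1 ≤ N) :
    BB h w = ∑ n ∈ Finset.range N, wt n * AA h (w - Real.log n) := by
  unfold BB
  refine Finset.sum_subset (Finset.range_subset_range.2 hN) fun n _ hn => ?_
  rw [Finset.mem_range, not_lt] at hn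
  rw [AA_neg hh (by linarith [log_gt_of hn]), mul_zero]

/-- the sums over primes on the two scales -/
lemma AA_cmp {h w : ℝ} (hh : 0 < h) {X Y : ℕ} (hX : X = ⌊Real.exp (w - h)⌋₊)
    (hXY : X + Y = ⌊Real.exp w⌋₊) :
    Real.exp (-w) * ∑ p ∈ (Finset.Ioc X (X + Y)).filter Nat.Prime, Real.log p ≤ h * AA h w ∧
    h * AA h w ≤ Real.exp (-w + h) * ∑ p ∈ (Finset.Ioc X (X + Y)).filter Nat.Prime, Real.log p := by
  have e1 : h * AA h w = ∑ p ∈ (Finset.Ioc X (X + Y)).filter Nat.Prime, Real.log p / p := by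
    unfold AA
    rw [mul_div_cancel₀ _ hh.ne']
    unfold MM
    rw [← hX, ← hXY]
    have hsub : Finset.range (X + 1) ⊆ Finset.range (X + Y + 1) :=
      Finset.range_subset_range.2 (by omega)
    rw [← Finset.sum_sdiff_eq_sub hsub, Finset.sum_filter]
    have e2 : Finset.range (X + Y + 1) \ Finset.range (X + 1) = Finset.Ioc X (X + Y) := by
      ext n
      simp only [Finset.mem_sdiff, Finset.mem_range, Finset.mem_Ioc]
      omega
    rw [e2]
    rfl
  rw [e1, Finset.mul_sum, Finset.mul_sum]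
  have key : ∀ p ∈ (Finset.Ioc X (X + Y)).filter Nat.Prime,
      Real.exp (-w) ≤ 1 / (p : ℝ) ∧ 1 / (p : ℝ) ≤ Real.exp (-w + h) := by
    intro p hp
    rw [Finset.mem_filter, Finset.mem_Ioc] at hp
    have hp0 : (0 : ℝ) < p := by exact_mod_cast hp.2.pos
    have h1 : (p : ℝ) ≤ Real.exp w := by
      have h2 : (p : ℝ) ≤ (⌊Real.exp w⌋₊ : ℝ) := by exact_mod_cast hXY ▸ hp.1.2
      exact h2.trans (Nat.floor_le (Real.exp_pos _).le)
    have h2 : Real.exp (w - h) ≤ p := by
      have h3 := Nat.lt_floor_add_one (Real.exp (w - h))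
      rw [← hX] at h3
      have h4 : ((X + 1 : ℕ) : ℝ) ≤ p := by exact_mod_cast hp.1.1
      push_cast at h4
      linarith
    constructor
    · rw [Real.exp_neg, ← one_div]
      exact one_div_le_one_div_of_le hp0 h1
    · have e3 : Real.exp (-w + h) = 1 / Real.exp (w - h) := by
        rw [one_div, ← Real.exp_neg]
        congr 1
        ring
      rw [e3]
      exact one_div_le_one_div_of_le (Real.exp_pos _) h2
  constructor
  · refine Finset.sum_le_sum fun p hp => ?_
    have := mul_le_mul_of_nonneg_right (key p hp).1 (Real.log_natCast_nonneg p)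
    rw [one_div_mul_eq_div] at this
    exact this
  · refine Finset.sum_le_sum fun p hp => ?_
    have := mul_le_mul_of_nonneg_right (key p hp).2 (Real.log_natCast_nonneg p)
    rw [one_div_mul_eq_div] at this
    exact this

lemma BB_cmp {h w : ℝ} (hh : 0 < h) {X Y : ℕ} (hX : X = ⌊Real.exp (w - h)⌋₊)
    (hXY : X + Y = ⌊Real.exp w⌋₊) :
    Real.exp (-w) * PS X Y ≤ h * BB h w ∧ h * BB h w ≤ Real.exp (-w + h) * PS X Y := by
  set N := X + Y + 1 with hN
  have hNw : ⌊Real.exp w⌋₊ + 1 ≤ N := by omega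
  have e1 : h * BB h w = ∑ m ∈ Finset.range N, ∑ n ∈ Finset.range N, wt m * wt n *
      ((if Real.log n ≤ w - Real.log m then 1 else 0) -
        (if Real.log n ≤ w - Real.log m - h then 1 else 0)) := by
    rw [BB_eq hh hNw, Finset.mul_sum]
    refine Finset.sum_congr rfl fun m _ => ?_
    have hle : w - Real.log m ≤ w := by
      have := Real.log_natCast_nonneg m
      linarith
    have h1 : ⌊Real.exp (w - Real.log m)⌋₊ + 1 ≤ N := by
      have := Nat.floor_le_floor (Real.exp_le_exp.2 hle)
      omega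
    have h2 : ⌊Real.exp (w - Real.log m - h)⌋₊ + 1 ≤ N := by
      have := Nat.floor_le_floor (Real.exp_le_exp.2 (by linarith : w - Real.log m - h ≤ w))
      omega
    unfold AA
    rw [MM_eq h1, MM_eq h2, ← Finset.sum_sub_distrib]
    have e : h * (wt m * ((∑ n ∈ Finset.range N, ((if Real.log n ≤ w - Real.log m then wt n else 0) -
        (if Real.log n ≤ w - Real.log m - h then wt n else 0))) / h)) =
        wt m * ∑ n ∈ Finset.range N, ((if Real.log n ≤ w - Real.log m then wt n else 0) -
        (if Real.log n ≤ w - Real.log m - h then wt n else 0)) := by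
      field_simp
    rw [e, Finset.mul_sum]
    refine Finset.sum_congr rfl fun n _ => ?_
    split_ifs <;> ring
  have e2 : PS X Y = ∑ m ∈ Finset.range N, ∑ n ∈ Finset.range N,
      if m.Prime ∧ n.Prime ∧ X < m * n ∧ m * n ≤ X + Y then Real.log m * Real.log n else 0 := by
    unfold PS
    rw [Finset.sum_filter, Finset.sum_product]
  have key : ∀ m n : ℕ,
      Real.exp (-w) * (if m.Prime ∧ n.Prime ∧ X < m * n ∧ m * n ≤ X + Y then
        Real.log m * Real.log n else 0) ≤ wt m * wt n *
      ((if Real.log n ≤ w - Real.log m then 1 else 0) -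
        (if Real.log n ≤ w - Real.log m - h then 1 else 0)) ∧
      wt m * wt n * ((if Real.log n ≤ w - Real.log m then 1 else 0) -
        (if Real.log n ≤ w - Real.log m - h then 1 else 0)) ≤
      Real.exp (-w + h) * (if m.Prime ∧ n.Prime ∧ X < m * n ∧ m * n ≤ X + Y then
        Real.log m * Real.log n else 0) := by
    intro m n
    by_cases hm : m.Prime
    · by_cases hn : n.Prime
      · have hm0 : (0 : ℝ) < m := by exact_mod_cast hm.pos
        have hn0 : (0 : ℝ) < n := by exact_mod_cast hn.pos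
        have hll : 0 ≤ Real.log m * Real.log n :=
          mul_nonneg (Real.log_natCast_nonneg _) (Real.log_natCast_nonneg _)
        have hmn : Real.log m + Real.log n = Real.log ((m * n : ℕ) : ℝ) := by
          push_cast
          rw [Real.log_mul hm0.ne' hn0.ne']
        have hmn0 : (0 : ℝ) < ((m * n : ℕ) : ℝ) := by
          push_cast
          positivity
        have c1 : Real.log n ≤ w - Real.log m ↔ m * n ≤ X + Y := by
          rw [hXY, Nat.le_floor_iff (Real.exp_pos _).le, ← Real.log_le_iff_le_exp hmn0, ← hmn]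
          constructor <;> intro h <;> linarith
        have c2 : Real.log n ≤ w - Real.log m - h ↔ m * n ≤ X := by
          rw [hX, Nat.le_floor_iff (Real.exp_pos _).le, ← Real.log_le_iff_le_exp hmn0, ← hmn]
          constructor <;> intro h <;> linarith
        have hw2 : wt m * wt n = (Real.log m * Real.log n) * (1 / ((m * n : ℕ) : ℝ)) := by
          unfold wt
          rw [if_pos hm, if_pos hn]
          push_cast
          field_simp
        by_cases hc : X < m * n ∧ m * n ≤ X + Y
        · rw [if_pos (c1.2 hc.2), if_neg (fun h3 => absurd (c2.1 h3) (by omega)),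
            if_pos ⟨hm, hn, hc.1, hc.2⟩, hw2, sub_zero, mul_one]
          have h1 : ((m * n : ℕ) : ℝ) ≤ Real.exp w := by
            have h2 : ((m * n : ℕ) : ℝ) ≤ (⌊Real.exp w⌋₊ : ℝ) := by exact_mod_cast hXY ▸ hc.2
            exact h2.trans (Nat.floor_le (Real.exp_pos _).le)
          have h2 : Real.exp (w - h) ≤ ((m * n : ℕ) : ℝ) := by
            have h3 := Nat.lt_floor_add_one (Real.exp (w - h))
            rw [← hX] at h3
            have h4 : ((X + 1 : ℕ) : ℝ) ≤ ((m * n : ℕ) : ℝ) := by exact_mod_cast hc.1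
            push_cast at h4 ⊢
            linarith
          have k1 : Real.exp (-w) ≤ 1 / ((m * n : ℕ) : ℝ) := by
            rw [Real.exp_neg, ← one_div]
            exact one_div_le_one_div_of_le hmn0 h1
          have k2 : 1 / ((m * n : ℕ) : ℝ) ≤ Real.exp (-w + h) := by
            have e3 : Real.exp (-w + h) = 1 / Real.exp (w - h) := by
              rw [one_div, ← Real.exp_neg]
              congr 1
              ring
            rw [e3]
            exact one_div_le_one_div_of_le (Real.exp_pos _) h2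
          constructor
          · rw [mul_comm]
            exact mul_le_mul_of_nonneg_left k1 hll
          · rw [mul_comm (Real.exp (-w + h))]
            exact mul_le_mul_of_nonneg_left k2 hll
        · rw [if_neg (fun h3 : m.Prime ∧ n.Prime ∧ X < m * n ∧ m * n ≤ X + Y => hc h3.2.2)]
          have : ((if Real.log n ≤ w - Real.log m then (1:ℝ) else 0) -
              (if Real.log n ≤ w - Real.log m - h then 1 else 0)) = 0 := by
            by_cases h5 : m * n ≤ X
            · rw [if_pos (c1.2 (by omega)), if_pos (c2.2 h5)]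
              ring
            · rw [if_neg (fun h6 => hc ⟨by omega, c1.1 h6⟩), if_neg (fun h6 => h5 (c2.1 h6))]
              ring
          rw [this]
          simp
      · rw [if_neg (fun h3 : m.Prime ∧ n.Prime ∧ X < m * n ∧ m * n ≤ X + Y => hn h3.2.1)]
        have : wt n = 0 := by
          unfold wt
          rw [if_neg hn]
        rw [this]
        simp
    · rw [if_neg (fun h3 : m.Prime ∧ n.Prime ∧ X < m * n ∧ m * n ≤ X + Y => hm h3.1)]
      have : wt m = 0 := by
        unfold wt
        rw [if_neg hm]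
      rw [this]
      simp
  rw [e1, e2, Finset.mul_sum, Finset.mul_sum]
  constructor
  · refine Finset.sum_le_sum fun m _ => ?_
    rw [Finset.mul_sum]
    exact Finset.sum_le_sum fun n _ => (key m n).1
  · refine Finset.sum_le_sum fun m _ => ?_
    rw [Finset.mul_sum]
    exact Finset.sum_le_sum fun n _ => (key m n).2

lemma PS_nonneg (X Y : ℕ) : 0 ≤ PS X Y :=
  Finset.sum_nonneg fun x _ => mul_nonneg (Real.log_natCast_nonneg _) (Real.log_natCast_nonneg _)

lemma aux_a {h : ℝ} (h0 : 0 ≤ h) (h1 : h ≤ 1 / 2) : (1:ℝ) ≤ (1 + 2 * h) * (1 - h) := by nlinarith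

lemma aux_b {η : ℝ} (h0 : 0 ≤ η) (h1 : η ≤ 1 / 12) :
    (1 + 2 * η) * (1 + η) * (2 + 12 * η) ≤ 2 + 2 * (12 * η) := by
  have h2 : η * η ≤ η * (1 / 12) := mul_le_mul_of_nonneg_left h1 h0
  have h3 : η * η * η ≤ η * η * (1 / 12) := mul_le_mul_of_nonneg_left h1 (by positivity)
  nlinarith

lemma aux_c {η : ℝ} (h0 : 0 ≤ η) (h1 : η ≤ 1 / 12) :
    2 - 2 * (12 * η) ≤ (1 - 2 * η) * (1 - η) * (2 - 12 * η) := by
  have h3 : η * η * η ≤ η * η * (1 / 12) := mul_le_mul_of_nonneg_left h1 (by positivity)
  nlinarith [mul_nonneg h0 h0]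

/-- **Selberg's formula in short intervals on the logarithmic scale.** -/
theorem sel_log : ∀ ε : ℝ, 0 < ε → ε ≤ 1 → ∃ δ l0 w0 : ℝ, 0 < δ ∧ 1 ≤ l0 ∧ 1 ≤ w0 ∧
    ∀ l w : ℝ, l0 ≤ l → l ≤ δ * w → w0 ≤ w →
      |w * AA (Real.exp (-l)) w + BB (Real.exp (-l)) w - 2 * w| ≤ 2 * ε * w := by
  intro ε hε hε1
  obtain ⟨δ1, hδ1, hδ11, X1, hX1, hlow⟩ := Pool.Agent.H295R3.D.selbergShort ε hε
  obtain ⟨δ2, hδ2, hδ21, X2, hX2, hup⟩ := selU ε hε
  set δ0 := min δ1 δ2 with hδ0
  have hδ0pos : 0 < δ0 := lt_min hδ1 hδ2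
  have hδ01 : δ0 < 1 := (min_le_left _ _).trans_lt hδ11
  set η := ε / 12 with hη
  have hη0 : 0 < η := by positivity
  -- large w
  have hev : ∀ᶠ w : ℝ in atTop, 2 ≤ η * w ∧ (X1 : ℝ) + X2 + 10 ≤ Real.exp w / 4 ∧
      2 ≤ δ0 / 2 * w ∧ Real.log (1 / η) ≤ w / 2 ∧ 10 ≤ w := by
    have t1 : Tendsto (fun w : ℝ => η * w) atTop atTop := tendsto_id.const_mul_atTop hη0
    have t2 : Tendsto (fun w : ℝ => δ0 / 2 * w) atTop atTop :=
      tendsto_id.const_mul_atTop (by positivity)
    filter_upwards [t1.eventually_ge_atTop 2, Real.tendsto_exp_atTop.eventually_ge_atTop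
      (((X1 : ℝ) + X2 + 10) * 4), t2.eventually_ge_atTop 2,
      eventually_ge_atTop (2 * Real.log (1 / η)), eventually_ge_atTop 10] with w h1 h2 h3 h4 h5
    exact ⟨h1, by linarith, h3, by linarith, h5⟩
  obtain ⟨w0, hw0⟩ := eventually_atTop.1 hev
  refine ⟨δ0 / 2, max 1 (Real.log (1 / η)), max w0 1, by positivity, le_max_left _ _,
    le_max_right _ _, fun l w hl hlw hw => ?_⟩
  obtain ⟨a1, a2, a3, a4, a5⟩ := hw0 w ((le_max_left _ _).trans hw)
  have hl1 : 1 ≤ l := (le_max_left _ _).trans hl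
  have hlη : Real.log (1 / η) ≤ l := (le_max_right _ _).trans hl
  set h := Real.exp (-l) with hh
  have hh0 : 0 < h := Real.exp_pos _
  have hhη : h ≤ η := by
    rw [Real.log_le_iff_le_exp (by positivity)] at hlη
    rw [hh, Real.exp_neg, ← one_div, one_div_le (Real.exp_pos _) hη0]
    exact hlη
  have hη1 : η ≤ 1 / 12 := by rw [hη]; linarith
  have hwl : w / 2 ≤ w - l := by
    have : δ0 / 2 * w ≤ 1 / 2 * w := by
      apply mul_le_mul_of_nonneg_right _ (by linarith)
      linarith
    linarith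
  -- e^{l - w} ≤ η
  have hlw2 : Real.exp (l - w) ≤ η := by
    have h1 : Real.exp (l - w) ≤ Real.exp (-Real.log (1 / η)) := by
      apply Real.exp_le_exp.2
      linarith
    rw [Real.exp_neg, Real.exp_log (by positivity), one_div, inv_inv] at h1
    exact h1
  set E := Real.exp w with hE
  have hE0 : 0 < E := Real.exp_pos _
  have hEE : Real.exp (w - h) = E * Real.exp (-h) := by
    rw [hE, ← Real.exp_add]
    congr 1
  have hem : 1 - h ≤ Real.exp (-h) := by
    have := Real.add_one_le_exp (-h)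
    linarith
  have hem1 : Real.exp (-h) ≤ 1 := by
    rw [Real.exp_le_one_iff]
    linarith
  have hhE : h * E * η ≥ 1 := by
    -- exp(w-l) * η ≥ 1
    have h1 : h * E = Real.exp (w - l) := by
      rw [hh, hE, ← Real.exp_add]
      congr 1
      ring
    rw [h1]
    have h2 : Real.exp (w - l) * Real.exp (l - w) = 1 := by
      rw [← Real.exp_add]
      simp
    have h3 := mul_le_mul_of_nonneg_left hlw2 (Real.exp_pos (w - l)).le
    linarith
  have hhE12 : 12 ≤ h * E := by
    have h1 : h * E * η ≤ h * E * (1 / 12) := mul_le_mul_of_nonneg_left hη1 (by positivity)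
    linarith
  set X := ⌊Real.exp (w - h)⌋₊ with hX
  have hXle : X ≤ ⌊E⌋₊ := Nat.floor_le_floor (Real.exp_le_exp.2 (by linarith))
  obtain ⟨Y, hY⟩ := Nat.exists_eq_add_of_le hXle
  have hXY : X + Y = ⌊Real.exp w⌋₊ := hY.symm
  have r1 : (X : ℝ) ≤ E * Real.exp (-h) := by
    rw [← hEE]
    exact Nat.floor_le (Real.exp_pos _).le
  have r2 : E * Real.exp (-h) < X + 1 := by
    rw [← hEE]
    exact Nat.lt_floor_add_one _
  have r3 : (X : ℝ) + Y ≤ E := by
    have : ((X + Y : ℕ) : ℝ) ≤ E := by
      rw [hXY]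
      exact Nat.floor_le hE0.le
    push_cast at this
    exact this
  have r4 : E < X + Y + 1 := by
    have := Nat.lt_floor_add_one E
    have h1 : ((X + Y : ℕ) : ℝ) = (⌊E⌋₊ : ℝ) := by rw [hXY]
    push_cast at h1
    linarith
  -- bounds for Y
  have hone : 1 - Real.exp (-h) ≤ h := by linarith
  have hone2 : h * (1 - h) ≤ 1 - Real.exp (-h) := by
    have h1 := Real.add_one_le_exp h
    have h2 : Real.exp h * Real.exp (-h) = 1 := by
      rw [← Real.exp_add]
      simp
    have h3 := mul_le_mul_of_nonneg_right h1 (Real.exp_pos (-h)).le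
    have h4 : h * (1 - h) ≤ h * Real.exp (-h) := mul_le_mul_of_nonneg_left hem hh0.le
    linarith
  have y1 : (Y : ℝ) ≤ h * E + 1 := by
    have := mul_le_mul_of_nonneg_left hone hE0.le
    linarith
  have y2 : h * E * (1 - h) - 1 ≤ Y := by
    have := mul_le_mul_of_nonneg_left hone2 hE0.le
    linarith
  have y3 : (Y : ℝ) ≤ h * E * (1 + η) := by
    have : h * E * (1 + η) = h * E + h * E * η := by ring
    linarith
  have y4 : h * E * (1 - 2 * η) ≤ Y := by
    have h1 : h * E * (1 - 2 * η) = h * E * (1 - η) - h * E * η := by ring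
    have h2 : h * E * (1 - η) ≤ h * E * (1 - h) :=
      mul_le_mul_of_nonneg_left (by linarith) (by positivity)
    linarith
  have y5 : h * E / 4 ≤ Y := by
    have h1 : h * E * (1 / 4) ≤ h * E * (1 - 2 * η) :=
      mul_le_mul_of_nonneg_left (by linarith) (by positivity)
    linarith
  -- conditions
  have x1 : E / 2 ≤ X := by
    have h1 : E * (1 - h) ≤ E * Real.exp (-h) := mul_le_mul_of_nonneg_left hem hE0.le
    have h2 : E * (1 - 1 / 12) ≤ E * (1 - h) := mul_le_mul_of_nonneg_left (by linarith) hE0.le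
    have h3 : (0:ℝ) ≤ X1 := by positivity
    have h4 : (0:ℝ) ≤ X2 := by positivity
    linarith
  have hX0 : (0:ℝ) < X := by linarith
  have cX1 : X1 ≤ X := by
    have : (X1 : ℝ) ≤ X := by
      have h4 : (0:ℝ) ≤ X2 := by positivity
      linarith
    exact_mod_cast this
  have cX2 : X2 ≤ X := by
    have : (X2 : ℝ) ≤ X := by
      have h4 : (0:ℝ) ≤ X1 := by positivity
      linarith
    exact_mod_cast this
  have cYX : Y ≤ X := by
    have : (Y : ℝ) ≤ X := by
      have h1 : h * E ≤ 1 / 12 * E := mul_le_mul_of_nonneg_right (by linarith) hE0.le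
      have h3 : (0:ℝ) ≤ X1 := by positivity
      have h4 : (0:ℝ) ≤ X2 := by positivity
      linarith
    exact_mod_cast this
  have hlX : Real.log X ≤ w := by
    rw [Real.log_le_iff_le_exp hX0]
    have : E * Real.exp (-h) ≤ E * 1 := mul_le_mul_of_nonneg_left hem1 hE0.le
    linarith
  have hlX2 : w - 1 ≤ Real.log X := by
    rw [Real.le_log_iff_exp_le hX0, Real.exp_sub]
    have h1 : Real.exp w / Real.exp 1 ≤ E / 2 := by
      apply div_le_div_of_nonneg_left hE0.le (by norm_num)
      have := Real.exp_one_gt_d9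
      linarith
    linarith
  have hlX0 : 0 < Real.log X := by linarith
  have cpow : ∀ δ : ℝ, δ0 ≤ δ → δ < 1 → (X : ℝ) ^ (1 - δ) ≤ Y := by
    intro δ hδ hδ1
    refine le_trans ?_ y5
    rw [← Real.log_le_log_iff (by positivity) (by positivity), Real.log_rpow hX0,
      Real.log_div (by positivity) (by norm_num), Real.log_mul hh0.ne' hE0.ne', hh, hE,
      Real.log_exp, Real.log_exp]
    have h1 : (1 - δ) * Real.log X ≤ (1 - δ0) * w :=
      mul_le_mul (by linarith) hlX hlX0.le (by linarith)
    have hl4 : Real.log 4 ≤ 2 := by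
      rw [show (4 : ℝ) = 2 ^ 2 by norm_num, Real.log_pow]
      have := Real.log_two_lt_d9
      push_cast
      linarith
    linarith
  have s1 := hlow X Y cX1 (cpow δ1 (min_le_left _ _) hδ11) cYX
  have s2 := hup X Y cX2 (cpow δ2 (min_le_right _ _) hδ21) cYX
  have s1' : (2 - ε) * Y * Real.log X ≤ Real.log X *
      ∑ p ∈ (Finset.Ioc X (X + Y)).filter Nat.Prime, Real.log p + PS X Y := s1
  obtain ⟨p1, p2⟩ := AA_cmp hh0 hX hXY
  obtain ⟨q1, q2⟩ := BB_cmp hh0 hX hXY
  set P := ∑ p ∈ (Finset.Ioc X (X + Y)).filter Nat.Prime, Real.log p with hP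
  have hP0 : 0 ≤ P := Finset.sum_nonneg fun _ _ => Real.log_natCast_nonneg _
  have hPS0 := PS_nonneg X Y
  have hw0' : 0 < w := by linarith
  -- w P + PS
  have u1 : w * P + PS X Y ≤ (2 + ε) * Y * w := by
    have h1 : Real.log X * (w * P + PS X Y) ≤ w * (Real.log X * P + PS X Y) := by
      have := mul_le_mul_of_nonneg_right hlX hPS0
      linarith
    have h2 : w * (Real.log X * P + PS X Y) ≤ w * ((2 + ε) * Y * Real.log X) :=
      mul_le_mul_of_nonneg_left s2 hw0'.le
    have h3 : Real.log X * (w * P + PS X Y) ≤ Real.log X * ((2 + ε) * Y * w) := by linarith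
    exact le_of_mul_le_mul_left h3 hlX0
  have u2 : (2 - ε) * Y * (w - 1) ≤ w * P + PS X Y := by
    have h1 : (2 - ε) * Y * (w - 1) ≤ (2 - ε) * Y * Real.log X :=
      mul_le_mul_of_nonneg_left hlX2 (mul_nonneg (by linarith) (by positivity))
    have h2 := mul_le_mul_of_nonneg_right hlX hP0
    linarith
  have hEinv : Real.exp (-w) * E = 1 := by
    rw [hE, ← Real.exp_add]
    simp
  have hexph : Real.exp h ≤ 1 + 2 * η := by
    have h1 := Real.add_one_le_exp (-h)
    have h2 : Real.exp h * Real.exp (-h) = 1 := by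
      rw [← Real.exp_add]
      simp
    have h3 : Real.exp h * (1 - h) ≤ 1 := by
      rw [← h2]
      exact mul_le_mul_of_nonneg_left (by linarith) (Real.exp_pos _).le
    have h4 : (1:ℝ) ≤ (1 + 2 * h) * (1 - h) := aux_a hh0.le (by linarith only [hhη, hη1])
    have h5 : Real.exp h * (1 - h) ≤ (1 + 2 * h) * (1 - h) := h3.trans h4
    have h6 : Real.exp h ≤ 1 + 2 * h :=
      le_of_mul_le_mul_right h5 (by linarith only [hhη, hη1])
    linarith only [h6, hhη]
  -- upper
  have v1 : h * (w * AA h w + BB h w) ≤ h * ((2 + 2 * ε) * w) := by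
    have h1 : h * (w * AA h w + BB h w) ≤ Real.exp (-w + h) * (w * P + PS X Y) := by
      have := mul_le_mul_of_nonneg_left p2 hw0'.le
      linarith
    have h2 : Real.exp (-w + h) = Real.exp (-w) * Real.exp h := Real.exp_add _ _
    have h3 : Real.exp (-w + h) * (w * P + PS X Y) ≤
        (Real.exp (-w) * (1 + 2 * η)) * ((2 + ε) * (h * E * (1 + η)) * w) := by
      rw [h2]
      apply mul_le_mul (mul_le_mul_of_nonneg_left hexph (Real.exp_pos _).le)
      · refine u1.trans ?_
        apply mul_le_mul_of_nonneg_right _ hw0'.le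
        exact mul_le_mul_of_nonneg_left y3 (by linarith)
      · have := mul_nonneg hw0'.le hP0
        linarith
      · have := Real.exp_pos (-w)
        positivity
    have h4 : (Real.exp (-w) * (1 + 2 * η)) * ((2 + ε) * (h * E * (1 + η)) * w) =
        (Real.exp (-w) * E) * ((1 + 2 * η) * (1 + η) * (2 + ε) * (h * w)) := by ring
    rw [h4, hEinv, one_mul] at h3
    have h5 : (1 + 2 * η) * (1 + η) * (2 + ε) ≤ 2 + 2 * ε := by
      have e : ε = 12 * η := by rw [hη]; ring
      rw [e]
      exact aux_b hη0.le hη1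
    have h6 := mul_le_mul_of_nonneg_right h5 (by positivity : 0 ≤ h * w)
    linarith
  have v2 : h * ((2 - 2 * ε) * w) ≤ h * (w * AA h w + BB h w) := by
    have h1 : Real.exp (-w) * (w * P + PS X Y) ≤ h * (w * AA h w + BB h w) := by
      have := mul_le_mul_of_nonneg_left p1 hw0'.le
      linarith
    have h3 : Real.exp (-w) * ((2 - ε) * (h * E * (1 - 2 * η)) * (w * (1 - η))) ≤
        Real.exp (-w) * (w * P + PS X Y) := by
      apply mul_le_mul_of_nonneg_left _ (Real.exp_pos _).le
      refine le_trans ?_ u2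
      apply mul_le_mul
      · exact mul_le_mul_of_nonneg_left y4 (by linarith)
      · linarith
      · apply mul_nonneg hw0'.le
        linarith
      · exact mul_nonneg (by linarith) (by positivity)
    have h4 : Real.exp (-w) * ((2 - ε) * (h * E * (1 - 2 * η)) * (w * (1 - η))) =
        (Real.exp (-w) * E) * ((1 - 2 * η) * (1 - η) * (2 - ε) * (h * w)) := by ring
    rw [h4, hEinv, one_mul] at h3
    have h5 : 2 - 2 * ε ≤ (1 - 2 * η) * (1 - η) * (2 - ε) := by
      have e : ε = 12 * η := by rw [hη]; ring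
      rw [e]
      exact aux_c hη0.le hη1
    have h6 := mul_le_mul_of_nonneg_right h5 (by positivity : 0 ≤ h * w)
    linarith
  have v3 := le_of_mul_le_mul_left v1 hh0
  have v4 := le_of_mul_le_mul_left v2 hh0
  rw [abs_le]
  constructor <;> linarith

end Pool.Agent.Y895.PS
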