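import Pool.Agent.Y895.PS.Q5
import Pool.Agent.Y895.PS.Q4

set_option autoImplicit false

/-!
# The approximate convolution equation
-/

open MeasureTheory Filter Topology Set

namespace Pool.Agent.Y895.PS

/-- truncation -/
noncomputable def cut (z : ℝ) (F : ℝ → ℝ) : ℝ → ℝ := (Iic z).indicator F

lemma cut_le {z : ℝ} {F : ℝ → ℝ} {u : ℝ} (hu : u ≤ z) : cut z F u = F u :=
  indicator_of_mem (show u ∈ Iic z from hu) F

lemma cut_gt {z : ℝ} {F : ℝ → ℝ} {u : ℝ} (hu : z < u) : cut z F u = 0 :=
  indicator_of_notMem (show u ∉ Iic z from not_le.2 hu) F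

lemma cut_BI {z B : ℝ} {F : ℝ → ℝ} (hz : 0 ≤ z) (hm : Measurable F) (hB : ∀ u, |F u| ≤ B)
    (hneg : ∀ u, u < 0 → F u = 0) : BI (cut z F) B := by
  have hm' : Measurable (cut z F) := hm.indicator measurableSet_Iic
  have hb : ∀ u, |cut z F u| ≤ B := by
    intro u
    rcases le_or_gt u z with h | h
    · rw [cut_le h]; exact hB u
    · rw [cut_gt h, abs_zero]
      exact (abs_nonneg _).trans (hB u)
  refine ⟨?_, hm', hb⟩
  obtain ⟨i1, -⟩ := ind_const_int (C := B) hz
  refine i1.mono' hm'.aestronglyMeasurable (Eventually.of_forall fun u => ?_)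
  rw [Real.norm_eq_abs]
  by_cases h : u ∈ Icc 0 z
  · rw [indicator_of_mem h]
    exact hb u
  · rw [indicator_of_notMem h]
    rw [mem_Icc, not_and_or, not_le, not_le] at h
    rcases h with h | h
    · rw [cut_le (by linarith), hneg u h, abs_zero]
    · rw [cut_gt h, abs_zero]

lemma ks_avg {h : ℝ} (hh : 0 < h) {g : ℝ → ℝ} (hg : Measurable g) {K : ℝ}
    (hK : ∀ y, 0 ≤ y → y < h → |g y| ≤ K) :
    Integrable (fun y => ks h y * g y) ∧ |∫ y, ks h y * g y| ≤ K := by
  have hpt : ∀ y, |ks h y * g y| ≤ ks h y * K := by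
    intro y
    rw [abs_mul, abs_of_nonneg (ks_nonneg hh y)]
    by_cases hy : 0 ≤ y ∧ y < h
    · exact mul_le_mul_of_nonneg_left (hK y hy.1 hy.2) (ks_nonneg hh y)
    · rw [ks_zero hy]
      simp
  have hi : Integrable fun y => ks h y * g y :=
    ((ks_BI hh).int.mul_const K).mono' ((ks_BI hh).meas.mul hg).aestronglyMeasurable
      (Eventually.of_forall fun y => by rw [Real.norm_eq_abs]; exact hpt y)
  refine ⟨hi, (abs_integral_le_integral_abs).trans ?_⟩
  calc ∫ y, |ks h y * g y| ≤ ∫ y, ks h y * K :=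
        integral_mono hi.abs ((ks_BI hh).int.mul_const K) hpt
    _ = K := by rw [integral_mul_const, ks_int hh, one_mul]

section

variable {h z v : ℝ}

/-- the sum representation, valid on `(-∞, z]` -/
lemma AA_rep (hh : 0 < h) {u : ℝ} (hu : u ≤ z) :
    AA h u = ∑ n ∈ Finset.range (⌊Real.exp z⌋₊ + 1), wt n * ks h (u - Real.log n) := by
  refine AA_eq hh ?_
  have := Nat.floor_le_floor (Real.exp_le_exp.2 hu)
  omega

/-- integrals against the counting function -/
lemma A_cnv (hh : 0 < h) {g : ℝ → ℝ} {B : ℝ} (hg : Measurable g) (hB : ∀ u, |g u| ≤ B)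
    (hneg : ∀ u, u < 0 → g u = 0) (hv : v ≤ z) :
    cnv (cut z (AA h)) g v = ∑ n ∈ Finset.range (⌊Real.exp z⌋₊ + 1),
      wt n * ∫ y, ks h y * g (v - Real.log n - y) := by
  have hone : ∀ n : ℕ, Integrable fun u => wt n * (ks h (u - Real.log n) * g (v - u)) := by
    intro n
    refine Integrable.const_mul ?_ _
    refine ((ks_BI hh).int.comp_sub_right (Real.log n)).mul_bdd (c := B) ?_
      (Eventually.of_forall fun u => ?_)
    · exact (hg.comp (measurable_const.sub measurable_id)).aestronglyMeasurable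
    · rw [Real.norm_eq_abs]
      exact hB _
  unfold cnv
  have e1 : ∀ u, cut z (AA h) u * g (v - u) = ∑ n ∈ Finset.range (⌊Real.exp z⌋₊ + 1),
      wt n * (ks h (u - Real.log n) * g (v - u)) := by
    intro u
    by_cases hu : v < u
    · rw [hneg (v - u) (by linarith)]
      simp
    · rw [cut_le (by linarith), AA_rep hh (show u ≤ z by linarith), Finset.sum_mul]
      refine Finset.sum_congr rfl fun n _ => ?_
      ring
  simp only [e1]
  rw [integral_finset_sum _ fun n _ => hone n]
  refine Finset.sum_congr rfl fun n _ => ?_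
  rw [integral_const_mul]
  congr 1
  rw [← integral_sub_right_eq_self (fun y => ks h y * g (v - Real.log n - y)) (Real.log n)]
  refine integral_congr_ae (Eventually.of_forall fun u => ?_)
  simp only
  congr 2
  ring

/-- averages of `lin` -/
lemma lin_avg (hh : 0 < h) (x : ℝ) :
    0 ≤ ∫ y, ks h y * lin h (x - y) ∧ ∫ y, ks h y * lin h (x - y) ≤ 1 ∧
    (x < 0 → ∫ y, ks h y * lin h (x - y) = 0) ∧
    (2 * h ≤ x → ∫ y, ks h y * lin h (x - y) = 1) := by
  have hm : Measurable fun y => lin h (x - y) := (lin_meas h).comp (measurable_const.sub measurable_id)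
  obtain ⟨i1, b1⟩ := ks_avg hh hm (K := 1) (fun y _ _ => by
    rw [abs_of_nonneg (lin_nonneg hh _)]
    exact lin_le hh _)
  refine ⟨integral_nonneg fun y => mul_nonneg (ks_nonneg hh y) (lin_nonneg hh _),
    (le_abs_self _).trans b1, fun hx => ?_, fun hx => ?_⟩
  · have : ∀ y, ks h y * lin h (x - y) = 0 := by
      intro y
      by_cases hy : 0 ≤ y ∧ y < h
      · rw [lin_neg hh (by linarith [hy.1]), mul_zero]
      · rw [ks_zero hy, zero_mul]
    simp only [this, integral_zero]
  · have : ∀ y, ks h y * lin h (x - y) = ks h y := by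
      intro y
      by_cases hy : 0 ≤ y ∧ y < h
      · rw [lin_one hh (by linarith [hy.2]), mul_one]
      · rw [ks_zero hy, zero_mul]
    simp only [this]
    exact ks_int hh

/-- the mixed term -/
lemma A_lin (hh : 0 < h) (hv : v ≤ z) (hz : 0 ≤ z) :
    MM (v - 2 * h) ≤ cnv (cut z (AA h)) (cut z (lin h)) v ∧
      cnv (cut z (AA h)) (cut z (lin h)) v ≤ MM v := by
  have hcl : Measurable (cut z (lin h)) := (lin_meas h).indicator measurableSet_Iic
  have hb : ∀ u, |cut z (lin h) u| ≤ 1 := by
    intro u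
    rcases le_or_gt u z with h1 | h1
    · rw [cut_le h1, abs_of_nonneg (lin_nonneg hh _)]
      exact lin_le hh _
    · rw [cut_gt h1, abs_zero]
      norm_num
  have hn : ∀ u, u < 0 → cut z (lin h) u = 0 := by
    intro u hu
    rw [cut_le (by linarith), lin_neg hh hu.le]
  rw [A_cnv hh hcl hb hn hv]
  set N := ⌊Real.exp z⌋₊ + 1 with hN
  have hN1 : ⌊Real.exp v⌋₊ + 1 ≤ N := by
    have := Nat.floor_le_floor (Real.exp_le_exp.2 hv)
    omega
  have hN2 : ⌊Real.exp (v - 2 * h)⌋₊ + 1 ≤ N := by
    have := Nat.floor_le_floor (Real.exp_le_exp.2 (by linarith : v - 2 * h ≤ v))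
    omega
  have e1 : ∀ n : ℕ, ∫ y, ks h y * cut z (lin h) (v - Real.log n - y) =
      ∫ y, ks h y * lin h (v - Real.log n - y) := by
    intro n
    refine integral_congr_ae (Eventually.of_forall fun y => ?_)
    simp only
    by_cases hy : 0 ≤ y ∧ y < h
    · have := Real.log_natCast_nonneg n
      rw [cut_le (by linarith [hy.1])]
    · rw [ks_zero hy]
      simp
  simp only [e1]
  rw [MM_eq hN1, MM_eq hN2]
  constructor
  · refine Finset.sum_le_sum fun n _ => ?_
    obtain ⟨c1, c2, c3, c4⟩ := lin_avg hh (v - Real.log n)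
    split_ifs with h1
    · rw [c4 (by linarith), mul_one]
    · exact mul_nonneg (wt_nonneg n) c1
  · refine Finset.sum_le_sum fun n _ => ?_
    obtain ⟨c1, c2, c3, c4⟩ := lin_avg hh (v - Real.log n)
    split_ifs with h1
    · exact mul_le_of_le_one_right (wt_nonneg n) c2
    · rw [c3 (by linarith), mul_zero]

/-- the linear term -/
lemma lin_lin (hh : 0 < h) (hv : v ≤ z) (hv0 : 2 * h ≤ v) :
    v - 2 * h ≤ cnv (cut z (lin h)) (cut z (lin h)) v ∧
      cnv (cut z (lin h)) (cut z (lin h)) v ≤ v := by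
  have hz : 0 ≤ z := by linarith
  have hL : BI (cut z (lin h)) 1 := cut_BI hz (lin_meas h) (fun u => by
    rw [abs_of_nonneg (lin_nonneg hh _)]
    exact lin_le hh _) (fun u hu => lin_neg hh hu.le)
  have hi := cnv_int hL.int hL.meas hL.bd v
  have hnn : ∀ u, 0 ≤ cut z (lin h) u := by
    intro u
    rcases le_or_gt u z with h1 | h1
    · rw [cut_le h1]
      exact lin_nonneg hh _
    · rw [cut_gt h1]
  constructor
  · have e : ∫ u, (Icc h (v - h)).indicator (fun _ => (1:ℝ)) u = v - 2 * h := by
      rw [integral_indicator measurableSet_Icc, setIntegral_const]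
      simp only [smul_eq_mul, Measure.real, Real.volume_Icc, mul_one]
      rw [ENNReal.toReal_ofReal (by linarith)]
      ring
    rw [← e]
    unfold cnv
    refine integral_mono ?_ hi fun u => ?_
    · rw [integrable_indicator_iff measurableSet_Icc]
      exact integrableOn_const (by simp) (by simp)
    · by_cases hu : u ∈ Icc h (v - h)
      · rw [indicator_of_mem hu, cut_le (by linarith [hu.2]), cut_le (by linarith [hu.1]),
          lin_one hh hu.1, lin_one hh (by linarith [hu.2])]
        norm_num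
      · rw [indicator_of_notMem hu]
        exact mul_nonneg (hnn _) (hnn _)
  · obtain ⟨i1, e1⟩ := ind_const_int (C := 1) (a := v) (by linarith)
    rw [one_mul] at e1
    conv_rhs => rw [← e1]
    unfold cnv
    refine integral_mono hi i1 fun u => ?_
    by_cases hu : u ∈ Icc 0 v
    · rw [indicator_of_mem hu]
      have h1 := (abs_le.1 (hL.bd u)).2
      have h2 := (abs_le.1 (hL.bd (v - u))).2
      calc cut z (lin h) u * cut z (lin h) (v - u) ≤ 1 * 1 :=
            mul_le_mul h1 h2 (hnn _) zero_le_one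
        _ = 1 := one_mul 1
    · rw [indicator_of_notMem hu]
      rw [mem_Icc, not_and_or, not_le, not_le] at hu
      rcases hu with h1 | h1
      · simp only
        rw [cut_le (show u ≤ z by linarith), lin_neg hh h1.le, zero_mul]
      · simp only
        rw [cut_le (show v - u ≤ z by linarith), lin_neg hh (by linarith : v - u ≤ 0), mul_zero]

/-- the quadratic term -/
lemma A_A {BA : ℝ} (hh : 0 < h) (hv : v ≤ z) (hz : 0 ≤ z) (hB : ∀ u, AA h u ≤ BA) :
    cnv (cut z (AA h)) (cut z (AA h)) v = ∫ y, ks h y * BB h (v - y) := by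
  have hm : Measurable (cut z (AA h)) := (AA_meas h).indicator measurableSet_Iic
  have hA : BI (cut z (AA h)) BA := cut_BI hz (AA_meas h) (fun u => by
    rw [abs_of_nonneg (AA_nonneg hh _)]
    exact hB u) (fun u hu => AA_neg hh hu)
  rw [A_cnv hh hm hA.bd (fun u hu => by rw [cut_le (by linarith), AA_neg hh hu]) hv]
  have hone : ∀ n : ℕ, Integrable fun y => wt n * (ks h y * AA h (v - Real.log n - y)) := by
    intro n
    refine Integrable.const_mul ?_ _
    exact (ks_avg hh ((AA_meas h).comp (measurable_const.sub measurable_id)) (K := BA)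
      (fun y _ _ => by
        show |AA h (v - Real.log n - y)| ≤ BA
        rw [abs_of_nonneg (AA_nonneg hh _)]
        exact hB _)).1
  have e1 : ∀ n : ℕ, wt n * ∫ y, ks h y * cut z (AA h) (v - Real.log n - y) =
      ∫ y, wt n * (ks h y * AA h (v - Real.log n - y)) := by
    intro n
    rw [integral_const_mul]
    congr 1
    refine integral_congr_ae (Eventually.of_forall fun y => ?_)
    simp only
    by_cases hy : 0 ≤ y ∧ y < h
    · have := Real.log_natCast_nonneg n
      rw [cut_le (by linarith [hy.1])]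
    · rw [ks_zero hy]
      simp
  simp only [e1]
  rw [← integral_finset_sum _ fun n _ => hone n]
  refine integral_congr_ae (Eventually.of_forall fun y => ?_)
  simp only
  by_cases hy : 0 ≤ y ∧ y < h
  · have hN : ⌊Real.exp (v - y)⌋₊ + 1 ≤ ⌊Real.exp z⌋₊ + 1 := by
      have := Nat.floor_le_floor (Real.exp_le_exp.2 (by linarith [hy.1] : v - y ≤ z))
      omega
    rw [BB_eq hh hN, Finset.mul_sum]
    refine Finset.sum_congr rfl fun n _ => ?_
    rw [show v - Real.log n - y = v - y - Real.log n by ring]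
    ring
  · rw [ks_zero hy]
    simp

end

end Pool.Agent.Y895.PS
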