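import Pool.Agent.Y895.PS.Q6

set_option autoImplicit false

/-!
# Smoothed prime number theorem in short intervals
-/

open MeasureTheory Filter Topology Set

namespace Pool.Agent.Y895.PS

lemma cnv_kr_ks {h : ℝ} (f : ℝ → ℝ) (v : ℝ) : cnv (kr h) f v = cnv (ks h) f v := by
  unfold cnv
  refine integral_congr_ae ?_
  filter_upwards [kr_ae_ks h] with u hu
  rw [hu]

/-- **The approximate convolution equation.** -/
theorem EE_small : ∀ ε : ℝ, 0 < ε → ε ≤ 1 → ∃ δ l0 w0 C : ℝ, 0 < δ ∧ 1 ≤ l0 ∧ 1 ≤ w0 ∧ 0 < C ∧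
    ∀ l z v : ℝ, l0 ≤ l → l ≤ δ * (v - 1) → w0 + 1 ≤ v → 2 * l + 1 ≤ v → v ≤ z →
      |EE (cut z (FF (Real.exp (-l)))) (Real.exp (-l)) v| ≤ 2 * ε * z + C := by
  intro ε hε hε1
  obtain ⟨δ, l1, w0, hδ, hl1, hw0, hsel⟩ := sel_log ε hε hε1
  obtain ⟨CM, hCM, hM⟩ := MM_mertens
  obtain ⟨l2, hl2, hbd⟩ := FF_bds
  obtain ⟨l3, hl3, hAA⟩ := AA_le
  refine ⟨δ, max l1 (max l2 l3), w0, 43 + 2 * CM, hδ, hl1.trans (le_max_left _ _), hw0,
    by linarith, fun l z v hl hlv hwv h2l hvz => ?_⟩
  have hll1 := (le_max_left _ _).trans hl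
  have hll2 := ((le_max_left _ _).trans (le_max_right _ _)).trans hl
  have hll3 := ((le_max_right _ _).trans (le_max_right _ _)).trans hl
  have hlone : 1 ≤ l := hl1.trans hll1
  have hsel' : ∀ w : ℝ, l ≤ δ * w → w0 ≤ w → |w * AA (Real.exp (-l)) w +
      BB (Real.exp (-l)) w - 2 * w| ≤ 2 * ε * w := fun w h1 h2 => hsel l w hll1 h1 h2
  obtain ⟨-, b2, b3⟩ := hbd l hll2
  have hA36 : ∀ x, 2 * l ≤ x → AA (Real.exp (-l)) x ≤ 36 := fun x hx => hAA l x hll3 hx
  set h := Real.exp (-l) with hh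
  have hh0 : 0 < h := Real.exp_pos _
  have hh1 : h ≤ 1 := by
    rw [hh, Real.exp_le_one_iff]
    linarith
  have hz0 : 0 ≤ z := by linarith
  set BA := 37 + MM (2 * l) / h with hBA
  have hA : BI (cut z (AA h)) BA := cut_BI hz0 (AA_meas h) (fun u => by
    rw [abs_of_nonneg (AA_nonneg hh0 _)]
    exact b3 u) (fun u hu => AA_neg hh0 hu)
  have hL : BI (cut z (lin h)) 1 := cut_BI hz0 (lin_meas h) (fun u => by
    rw [abs_of_nonneg (lin_nonneg hh0 _)]
    exact lin_le hh0 _) (fun u hu => lin_neg hh0 hu.le)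
  have hf : ∀ u, cut z (FF h) u = cut z (AA h) u - cut z (lin h) u := by
    intro u
    rcases le_or_gt u z with h1 | h1
    · rw [cut_le h1, cut_le h1, cut_le h1]
      rfl
    · rw [cut_gt h1, cut_gt h1, cut_gt h1]
      ring
  -- the square
  have e1 : cnv (cut z (FF h)) (cut z (FF h)) v = cnv (cut z (AA h)) (cut z (AA h)) v -
      2 * cnv (cut z (AA h)) (cut z (lin h)) v + cnv (cut z (lin h)) (cut z (lin h)) v := by
    have i1 := cnv_int hA.int hA.meas hA.bd v
    have i2 := cnv_int hA.int hL.meas hL.bd v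
    have i3 := cnv_int hL.int hA.meas hA.bd v
    have i4 := cnv_int hL.int hL.meas hL.bd v
    have hc : cnv (cut z (lin h)) (cut z (AA h)) v = cnv (cut z (AA h)) (cut z (lin h)) v :=
      cnv_comm _ _ _
    have e2 : cnv (cut z (FF h)) (cut z (FF h)) v = cnv (cut z (AA h)) (cut z (AA h)) v -
        cnv (cut z (AA h)) (cut z (lin h)) v - cnv (cut z (lin h)) (cut z (AA h)) v +
        cnv (cut z (lin h)) (cut z (lin h)) v := by
      have i12 : Integrable fun u => cut z (AA h) u * cut z (AA h) (v - u) -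
          cut z (AA h) u * cut z (lin h) (v - u) := i1.sub i2
      have i123 : Integrable fun u => cut z (AA h) u * cut z (AA h) (v - u) -
          cut z (AA h) u * cut z (lin h) (v - u) - cut z (lin h) u * cut z (AA h) (v - u) :=
        i12.sub i3
      unfold cnv
      rw [← integral_sub i1 i2, ← integral_sub i12 i3, ← integral_add i123 i4]
      refine integral_congr_ae (Eventually.of_forall fun u => ?_)
      simp only [hf]
      ring
    rw [e2, hc]
    ring
  -- the linear part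
  set N := ⌊Real.exp z⌋₊ + 1 with hN
  set BN : ℝ → ℝ := fun w => ∑ n ∈ Finset.range N, wt n * AA h (w - Real.log n) with hBN
  have hBNm : Measurable BN := by
    rw [hBN]
    refine Finset.measurable_sum _ fun n _ => ?_
    exact ((AA_meas h).comp (measurable_id.sub_const _)).const_mul _
  have hvy : Measurable fun y : ℝ => v - y := measurable_const.sub measurable_id
  have e3 : cnv (kr h) (cut z (FF h)) v = (∫ y, ks h y * AA h (v - y)) - 1 := by
    rw [cnv_kr_ks, ← ks_int hh0]
    obtain ⟨i1, -⟩ := ks_avg hh0 (g := fun y => AA h (v - y)) ((AA_meas h).comp hvy) (K := BA)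
      (fun y _ _ => by
        rw [abs_of_nonneg (AA_nonneg hh0 _)]
        exact b3 _)
    rw [← integral_sub i1 (ks_BI hh0).int]
    unfold cnv
    refine integral_congr_ae (Eventually.of_forall fun y => ?_)
    simp only
    by_cases hy : 0 ≤ y ∧ y < h
    · rw [cut_le (by linarith [hy.1])]
      unfold FF
      rw [lin_one hh0 (by linarith [hy.2])]
      ring
    · rw [ks_zero hy]
      ring
  have e4 := A_A hh0 hvz hz0 b3
  -- T
  have hT : ∀ y, 0 ≤ y → y < h → |v * AA h (v - y) + BN (v - y) - 2 * v| ≤ 2 * ε * z + 38 := by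
    intro y hy0 hyh
    have hBNeq : BN (v - y) = BB h (v - y) := by
      rw [hBN, BB_eq hh0]
      have := Nat.floor_le_floor (Real.exp_le_exp.2 (by linarith : v - y ≤ z))
      omega
    rw [hBNeq]
    have h1 := hsel' (v - y) (by
      refine hlv.trans ?_
      exact mul_le_mul_of_nonneg_left (by linarith) hδ.le) (by linarith)
    have h2 := hA36 (v - y) (by linarith)
    have h3 := AA_nonneg hh0 (v - y)
    have h4 : y * AA h (v - y) ≤ 1 * 36 := mul_le_mul (by linarith) h2 h3 zero_le_one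
    have h5 : 0 ≤ y * AA h (v - y) := mul_nonneg hy0 h3
    have h6 : 2 * ε * (v - y) ≤ 2 * ε * z := mul_le_mul_of_nonneg_left (by linarith) (by positivity)
    rw [abs_le] at h1 ⊢
    have e5 : v * AA h (v - y) + BB h (v - y) - 2 * v =
      ((v - y) * AA h (v - y) + BB h (v - y) - 2 * (v - y)) + (y * AA h (v - y) - 2 * y) := by ring
    rw [e5]
    constructor <;> linarith [h1.1, h1.2]
  have hTm : Measurable fun y => v * AA h (v - y) + BN (v - y) - 2 * v :=
    (((AA_meas h).comp hvy).const_mul v |>.add (hBNm.comp hvy)).sub_const _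
  obtain ⟨iT, bT⟩ := ks_avg hh0 hTm hT
  obtain ⟨i1, -⟩ := ks_avg hh0 (g := fun y => AA h (v - y)) ((AA_meas h).comp hvy) (K := BA)
      (fun y _ _ => by
        rw [abs_of_nonneg (AA_nonneg hh0 _)]
        exact b3 _)
  have i2 : Integrable fun y => ks h y * BN (v - y) := by
    have := (iT.sub (i1.const_mul v)).add ((ks_BI hh0).int.const_mul (2 * v))
    refine this.congr (Eventually.of_forall fun y => ?_)
    simp only [Pi.add_apply, Pi.sub_apply]
    ring
  have e6 : ∫ y, ks h y * BB h (v - y) = ∫ y, ks h y * BN (v - y) := by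
    refine integral_congr_ae (Eventually.of_forall fun y => ?_)
    simp only
    by_cases hy : 0 ≤ y ∧ y < h
    · congr 1
      rw [hBN, BB_eq hh0]
      have := Nat.floor_le_floor (Real.exp_le_exp.2 (by linarith [hy.1] : v - y ≤ z))
      omega
    · rw [ks_zero hy]
      ring
  have e7 : ∫ y, ks h y * (v * AA h (v - y) + BN (v - y) - 2 * v) =
      v * (∫ y, ks h y * AA h (v - y)) + (∫ y, ks h y * BN (v - y)) - 2 * v := by
    have : ∀ y, ks h y * (v * AA h (v - y) + BN (v - y) - 2 * v) =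
        v * (ks h y * AA h (v - y)) + ks h y * BN (v - y) - (2 * v) * ks h y := by
      intro y
      ring
    simp only [this]
    have i12 : Integrable fun y => v * (ks h y * AA h (v - y)) + ks h y * BN (v - y) :=
      (i1.const_mul v).add i2
    rw [integral_sub i12 ((ks_BI hh0).int.const_mul _),
      integral_add (i1.const_mul v) i2, integral_const_mul, integral_const_mul, ks_int hh0, mul_one]
  rw [e7] at bT
  obtain ⟨m1, m2⟩ := A_lin hh0 hvz hz0
  obtain ⟨m3, m4⟩ := lin_lin hh0 hvz (show 2 * h ≤ v by linarith)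
  have m5 := abs_le.1 (hM v (by linarith))
  have m6 := abs_le.1 (hM (v - 2 * h) (by linarith))
  unfold EE
  rw [e1, e3, e4, e6]
  rw [abs_le] at bT ⊢
  constructor <;> linarith [bT.1, bT.2, m5.1, m5.2, m6.1, m6.2]

/-- **Smoothed prime number theorem in short intervals.** -/
theorem W_small : ∀ ε : ℝ, 0 < ε → ε ≤ 1 → ∃ δ l0 z0 : ℝ, 0 < δ ∧ 1 ≤ l0 ∧ 1 ≤ z0 ∧
    ∀ l z : ℝ, l0 ≤ l → l ≤ δ * z → z0 ≤ z →
      |cnv (kr (Real.exp (-l))) (cnv (kr (Real.exp (-l))) (cut z (FF (Real.exp (-l))))) z| ≤ ε := by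
  intro ε hε hε1
  obtain ⟨C3, l3, hC3, hl3, hT3⟩ := T3_bound
  obtain ⟨Cl, hCl, hlow⟩ := FF_low
  obtain ⟨l2, hl2, hbd⟩ := FF_bds
  set C := max 37 Cl with hC
  have hC1 : 37 ≤ C := le_max_left _ _
  have hCCl : Cl ≤ C := le_max_right _ _
  have hC0 : 0 < C := by linarith
  set ε1 := ε / (75 * C) with hε1'
  have hε10 : 0 < ε1 := by positivity
  have hε11 : ε1 ≤ 1 := by
    rw [hε1', div_le_one (by positivity)]
    linarith
  obtain ⟨δ1, l1, w0, C4, hδ1, hl1, hw0, hC4, hEE⟩ := EE_small ε1 hε10 hε11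
  set κ := min (1 / 4) (ε / (60 * C ^ 3)) with hκ
  have hκ0 : 0 < κ := by positivity
  have hκ4 : κ ≤ 1 / 4 := min_le_left _ _
  have hκC : 12 * C ^ 3 * κ ≤ ε / 5 := by
    have h1 : κ ≤ ε / (60 * C ^ 3) := min_le_right _ _
    calc 12 * C ^ 3 * κ ≤ 12 * C ^ 3 * (ε / (60 * C ^ 3)) :=
          mul_le_mul_of_nonneg_left h1 (by positivity)
      _ = ε / 5 := by field_simp; norm_num
  set δ := min (κ / (2 * (1 / δ1 + 4))) (min (ε / (20 * C3)) (min (ε / (160 * C ^ 3)) (1 / 8)))
    with hδ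
  have hδ0 : 0 < δ := by positivity
  have d1 : δ * (1 / δ1 + 4) ≤ κ / 2 := by
    have h1 : δ ≤ κ / (2 * (1 / δ1 + 4)) := min_le_left _ _
    calc δ * (1 / δ1 + 4) ≤ κ / (2 * (1 / δ1 + 4)) * (1 / δ1 + 4) :=
          mul_le_mul_of_nonneg_right h1 (by positivity)
      _ = κ / 2 := by field_simp
  have d2 : 4 * C3 * δ ≤ ε / 5 := by
    have h1 : δ ≤ ε / (20 * C3) := (min_le_right _ _).trans (min_le_left _ _)
    calc 4 * C3 * δ ≤ 4 * C3 * (ε / (20 * C3)) := mul_le_mul_of_nonneg_left h1 (by positivity)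
      _ = ε / 5 := by field_simp; norm_num
  have d3 : 32 * C ^ 3 * δ ≤ ε / 5 := by
    have h1 : δ ≤ ε / (160 * C ^ 3) :=
      (min_le_right _ _).trans ((min_le_right _ _).trans (min_le_left _ _))
    calc 32 * C ^ 3 * δ ≤ 32 * C ^ 3 * (ε / (160 * C ^ 3)) :=
          mul_le_mul_of_nonneg_left h1 (by positivity)
      _ = ε / 5 := by field_simp; norm_num
  have d4 : δ ≤ 1 / 8 := (min_le_right _ _).trans ((min_le_right _ _).trans (min_le_right _ _))
  set z0 := max 16 (max ((w0 + 5) * 2 / κ) (max (20 * C ^ 2 / ε) (C4 / ε1))) with hz0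
  refine ⟨δ, max l1 (max l2 l3), z0, hδ0, hl1.trans (le_max_left _ _),
    (by norm_num : (1:ℝ) ≤ 16).trans (le_max_left _ _), fun l z hl hlz hz => ?_⟩
  have hll1 := (le_max_left _ _).trans hl
  have hll2 := ((le_max_left _ _).trans (le_max_right _ _)).trans hl
  have hll3 := ((le_max_right _ _).trans (le_max_right _ _)).trans hl
  have hlone : 1 ≤ l := hl1.trans hll1
  have z1 : 16 ≤ z := (le_max_left _ _).trans hz
  have z2 : (w0 + 5) * 2 / κ ≤ z := ((le_max_left _ _).trans (le_max_right _ _)).trans hz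
  have z3 : 20 * C ^ 2 / ε ≤ z :=
    ((le_max_left _ _).trans ((le_max_right _ _).trans (le_max_right _ _))).trans hz
  have z4 : C4 / ε1 ≤ z :=
    ((le_max_right _ _).trans ((le_max_right _ _).trans (le_max_right _ _))).trans hz
  clear_value z0 δ κ ε1
  have hzpos : 0 < z := by linarith
  set h := Real.exp (-l) with hh
  have hh0 : 0 < h := Real.exp_pos _
  have hh1 : h ≤ 1 := by
    rw [hh, Real.exp_le_one_iff]
    linarith
  obtain ⟨b1, b2, b3⟩ := hbd l hll2
  set v0 := 2 * l with hv0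
  set v1 := l / δ1 + w0 + 4 * l + 4 with hv1
  have hld : 0 ≤ l / δ1 := by positivity
  have hv1z : v1 ≤ κ * z := by
    have h1 : l / δ1 + 4 * l ≤ κ / 2 * z := by
      calc l / δ1 + 4 * l = l * (1 / δ1 + 4) := by ring
        _ ≤ (δ * z) * (1 / δ1 + 4) := mul_le_mul_of_nonneg_right hlz (by positivity)
        _ = (δ * (1 / δ1 + 4)) * z := by ring
        _ ≤ κ / 2 * z := mul_le_mul_of_nonneg_right d1 hzpos.le
    have h2 : w0 + 4 ≤ κ / 2 * z := by
      rw [div_le_iff₀ hκ0] at z2
      linarith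
    rw [hv1]
    linarith
  have hv1z4 : v1 ≤ z / 4 := by
    have := mul_le_mul_of_nonneg_right hκ4 hzpos.le
    linarith
  have hv0z : v0 ≤ z / 4 := by
    have := mul_le_mul_of_nonneg_right d4 hzpos.le
    linarith
  have hfBI : BI (cut z (FF h)) (37 + MM (2 * l) / h) :=
    cut_BI hzpos.le (FF_meas h) b2 (fun u hu => FF_neg hh0 hu)
  have habs := abstract_bound (f := cut z (FF h)) (B := 37 + MM (2 * l) / h) (C := C) (z := z)
    (v0 := v0) (v1 := v1) (h := h) (ε := 3 * ε1) (T3 := C3 * v0 * z) hfBI (by linarith) hh0 hh1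
    (by linarith) (by linarith) (by linarith) (by positivity)
    (fun u hu => by rw [cut_le (by linarith), FF_neg hh0 hu])
    (fun u hu => cut_gt hu)
    (fun u hu => by
      rcases le_or_gt u z with h1 | h1
      · rw [cut_le h1]
        exact (b1 u hu).trans hC1
      · rw [cut_gt h1, abs_zero]
        exact hC0.le)
    (by
      have e : (Iio v0).indicator (cut z (FF h)) = (Iio v0).indicator (FF h) := by
        funext u
        by_cases hu : u ∈ Iio v0
        · have : u < v0 := hu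
          rw [indicator_of_mem hu, indicator_of_mem hu, cut_le (by linarith)]
        · rw [indicator_of_notMem hu, indicator_of_notMem hu]
      rw [e]
      exact (hlow h v0 hh0 (by linarith)).2.trans
        (mul_le_mul_of_nonneg_right hCCl (by linarith)))
    (hT3 l v0 z hll3 le_rfl (by linarith))
    (fun v hv hvz => by
      refine (hEE l z v hll1 ?_ (by linarith) (by linarith) hvz).trans ?_
      · have h1 : l / δ1 ≤ v - 1 := by linarith
        rw [div_le_iff₀ hδ1] at h1
        linarith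
      · rw [div_le_iff₀ hε10] at z4
        linarith)
  refine habs.trans ?_
  have t1 : 5 * C * (3 * ε1) ≤ ε / 5 := by
    rw [hε1']
    apply le_of_eq
    field_simp
    norm_num
  have t2 : 12 * C ^ 3 * (v1 / z) ^ 2 ≤ ε / 5 := by
    have h1 : v1 / z ≤ κ := by
      rw [div_le_iff₀ hzpos]
      exact hv1z
    have h2 : 0 ≤ v1 / z := by
      apply div_nonneg _ hzpos.le
      linarith
    have h3 : (v1 / z) ^ 2 ≤ κ := by
      calc (v1 / z) ^ 2 ≤ κ ^ 2 := pow_le_pow_left₀ h2 h1 2
        _ ≤ κ := by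
            rw [sq]
            exact mul_le_of_le_one_left hκ0.le (by linarith)
    exact (mul_le_mul_of_nonneg_left h3 (by positivity)).trans hκC
  have t3 : 2 * (C3 * v0 * z) / z ^ 2 ≤ ε / 5 := by
    have h1 : 2 * (C3 * v0 * z) / z ^ 2 = 4 * C3 * (l / z) := by
      rw [hv0]
      field_simp
      ring
    have h2 : l / z ≤ δ := by
      rw [div_le_iff₀ hzpos]
      exact hlz
    rw [h1]
    exact (mul_le_mul_of_nonneg_left h2 (by positivity)).trans d2
  have t4 : 16 * C ^ 3 * (v0 / z) ≤ ε / 5 := by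
    have h1 : 16 * C ^ 3 * (v0 / z) = 32 * C ^ 3 * (l / z) := by
      rw [hv0]
      ring
    have h2 : l / z ≤ δ := by
      rw [div_le_iff₀ hzpos]
      exact hlz
    rw [h1]
    exact (mul_le_mul_of_nonneg_left h2 (by positivity)).trans d3
  have t5 : 4 * C ^ 2 * (h / z) ≤ ε / 5 := by
    rw [div_le_iff₀ hε] at z3
    have h1 : h / z ≤ 1 / z := div_le_div_of_nonneg_right hh1 hzpos.le
    refine (mul_le_mul_of_nonneg_left h1 (by positivity)).trans ?_
    rw [mul_one_div, div_le_iff₀ hzpos]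
    linarith
  linarith

end Pool.Agent.Y895.PS
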