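import Pool.Agent.Y895.PS.Q7

set_option autoImplicit false

/-!
# The prime number theorem in short intervals on the logarithmic scale
-/

open MeasureTheory Filter Topology Set

namespace Pool.Agent.Y895.PS

/-- the triple kernel -/
noncomputable def k2 (h : ℝ) : ℝ → ℝ := cnv (ks h) (ks h)

noncomputable def k3 (h : ℝ) : ℝ → ℝ := cnv (ks h) (k2 h)

section

variable {h : ℝ}

lemma cnv_nn {f g : ℝ → ℝ} (hf : ∀ x, 0 ≤ f x) (hg : ∀ x, 0 ≤ g x) (x : ℝ) : 0 ≤ cnv f g x :=
  integral_nonneg fun u => mul_nonneg (hf u) (hg _)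

lemma cnv_supp {g : ℝ → ℝ} {m : ℝ} (hg : ∀ x, ¬ (0 ≤ x ∧ x ≤ m) → g x = 0) {x : ℝ}
    (hx : ¬ (0 ≤ x ∧ x ≤ m + h)) : cnv (ks h) g x = 0 := by
  unfold cnv
  have : ∀ u, ks h u * g (x - u) = 0 := by
    intro u
    by_cases hu : 0 ≤ u ∧ u < h
    · rw [hg (x - u), mul_zero]
      rintro ⟨h1, h2⟩
      exact hx ⟨by linarith [hu.1], by linarith [hu.2]⟩
    · rw [ks_zero hu, zero_mul]
  simp only [this, integral_zero]

lemma cnv_total {f g : ℝ → ℝ} (hf : Integrable f) (hg : Integrable g) :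
    ∫ x, cnv f g x = (∫ x, f x) * ∫ x, g x := by
  have h1 := MeasureTheory.integral_convolution (ContinuousLinearMap.mul ℝ ℝ) (μ := volume)
    (ν := volume) hf hg
  rw [ContinuousLinearMap.mul_apply'] at h1
  rw [← h1]
  rfl

lemma k2_BI (hh : 0 < h) : BI (k2 h) ((∫ u, |ks h u|) * (1 / h)) := (ks_BI hh).cnv (ks_BI hh)

lemma k3_int (hh : 0 < h) : Integrable (k3 h) := ((ks_BI hh).cnv (k2_BI hh)).int

lemma k3_nonneg (hh : 0 < h) (x : ℝ) : 0 ≤ k3 h x :=
  cnv_nn (ks_nonneg hh) (cnv_nn (ks_nonneg hh) (ks_nonneg hh)) x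

lemma k3_one (hh : 0 < h) : ∫ x, k3 h x = 1 := by
  unfold k3
  rw [cnv_total (ks_BI hh).int (k2_BI hh).int]
  unfold k2
  rw [cnv_total (ks_BI hh).int (ks_BI hh).int, ks_int hh]
  norm_num

lemma k3_zero {x : ℝ} (hx : ¬ (0 ≤ x ∧ x ≤ 3 * h)) : k3 h x = 0 := by
  unfold k3 k2
  refine cnv_supp (m := h + h) (fun y hy => cnv_supp (m := h) (fun w hw => ?_) hy) ?_
  · refine ks_zero fun h1 => hw ⟨h1.1, h1.2.le⟩
  · intro h1
    exact hx ⟨h1.1, by linarith [h1.2]⟩

/-- linearity for sums of shifts -/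
lemma cnv_sum {g : ℝ → ℝ} {B : ℝ} (hh : 0 < h) (hg : BI g B) (s : Finset ℕ) (c t : ℕ → ℝ) (v : ℝ) :
    cnv (ks h) (fun x => ∑ n ∈ s, c n * g (x - t n)) v =
      ∑ n ∈ s, c n * cnv (ks h) g (v - t n) := by
  unfold cnv
  have h1 : ∀ n : ℕ, Integrable fun u => c n * (ks h u * g (v - t n - u)) := fun n =>
    (cnv_int (ks_BI hh).int hg.meas hg.bd (v - t n)).const_mul _
  have e : ∀ u, ks h u * ∑ n ∈ s, c n * g (v - u - t n) =
      ∑ n ∈ s, c n * (ks h u * g (v - t n - u)) := by
    intro u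
    rw [Finset.mul_sum]
    refine Finset.sum_congr rfl fun n _ => ?_
    rw [show v - u - t n = v - t n - u by ring]
    ring
  simp only [e]
  rw [integral_finset_sum _ fun n _ => h1 n]
  refine Finset.sum_congr rfl fun n _ => ?_
  rw [integral_const_mul]

/-- the smoothed counting function -/
noncomputable def VV (h : ℝ) (N : ℕ) (z : ℝ) : ℝ :=
  ∑ n ∈ Finset.range N, wt n * k3 h (z - Real.log n)

lemma W_eq (hh : 0 < h) {z : ℝ} (hz : 3 * h ≤ z) {N : ℕ} (hN : ⌊Real.exp z⌋₊ + 1 ≤ N) :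
    cnv (kr h) (cnv (kr h) (cut z (FF h))) z = VV h N z - 1 := by
  have e0 : cnv (kr h) (cut z (FF h)) = cnv (ks h) (cut z (FF h)) := funext fun v => cnv_kr_ks _ v
  rw [e0, cnv_kr_ks]
  set F1 : ℝ → ℝ := fun x => ∑ n ∈ Finset.range N, wt n * ks h (x - Real.log n) with hF1
  have hF1B : ∀ x, |F1 x| ≤ ∑ n ∈ Finset.range N, wt n * (1 / h) := by
    intro x
    rw [hF1]
    simp only
    rw [abs_of_nonneg (Finset.sum_nonneg fun n _ => mul_nonneg (wt_nonneg n) (ks_nonneg hh _))]
    refine Finset.sum_le_sum fun n _ => mul_le_mul_of_nonneg_left ?_ (wt_nonneg n)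
    exact (le_abs_self _).trans ((ks_BI hh).bd _)
  have hF1m : Measurable F1 := by
    rw [hF1]
    refine Finset.measurable_sum _ fun n _ => ?_
    exact ((ks_BI hh).meas.comp (measurable_id.sub_const _)).const_mul _
  have hin : ∀ x, x ≤ z → z - h ≤ x → cnv (ks h) (cut z (FF h)) x = cnv (ks h) F1 x - 1 := by
    intro x hx1 hx2
    have i1 := cnv_int (ks_BI hh).int hF1m hF1B x
    rw [← ks_int hh]
    unfold cnv
    rw [← integral_sub i1 (ks_BI hh).int]
    refine integral_congr_ae (Eventually.of_forall fun u => ?_)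
    simp only
    by_cases hu : 0 ≤ u ∧ u < h
    · rw [cut_le (by linarith [hu.1])]
      unfold FF
      rw [lin_one hh (by linarith [hu.2]), AA_eq hh (N := N) (by
        have := Nat.floor_le_floor (Real.exp_le_exp.2 (by linarith [hu.1] : x - u ≤ z))
        omega)]
      ring
    · rw [ks_zero hu]
      ring
  have e1 : cnv (ks h) (cnv (ks h) (cut z (FF h))) z = cnv (ks h) (cnv (ks h) F1) z - 1 := by
    have hm : Measurable (cnv (ks h) F1) := cnv_meas (ks_BI hh).meas hF1m
    have hb : ∀ x, |cnv (ks h) F1 x| ≤ (∫ u, |ks h u|) * ∑ n ∈ Finset.range N, wt n * (1 / h) :=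
      fun x => cnv_abs_le (ks_BI hh).int hF1m hF1B x
    have i1 := cnv_int (ks_BI hh).int hm hb z
    rw [← ks_int hh]
    conv_lhs => rw [cnv]
    conv_rhs => rw [cnv]
    rw [← integral_sub i1 (ks_BI hh).int]
    refine integral_congr_ae (Eventually.of_forall fun u => ?_)
    simp only
    by_cases hu : 0 ≤ u ∧ u < h
    · rw [hin (z - u) (by linarith [hu.1]) (by linarith [hu.2])]
      rw [mul_sub, mul_one]
    · rw [ks_zero hu]
      ring
  rw [e1]
  have e2 : cnv (ks h) F1 = fun x => ∑ n ∈ Finset.range N, wt n * k2 h (x - Real.log n) :=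
    funext fun x => cnv_sum hh (ks_BI hh) _ wt (fun n => Real.log n) x
  rw [e2, cnv_sum hh (k2_BI hh) _ wt (fun n => Real.log n) z]
  rfl

lemma shift_int (hh : 0 < h) (n : ℕ) : Integrable fun z => wt n * k3 h (z - Real.log n) :=
  ((k3_int hh).comp_sub_right (Real.log n)).const_mul _

/-- integral of the smoothed counting function, upper bound by the sharp one -/
lemma VV_le (hh : 0 < h) {a b : ℝ} {N : ℕ} (hN : ⌊Real.exp b⌋₊ + 1 ≤ N) (hab : a ≤ b) :
    ∫ z in Ioc (a + 3 * h) b, VV h N z ≤ MM b - MM a := by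
  have hNa : ⌊Real.exp a⌋₊ + 1 ≤ N := by
    have := Nat.floor_le_floor (Real.exp_le_exp.2 hab)
    omega
  unfold VV
  rw [integral_finset_sum _ fun n _ => (shift_int hh n).integrableOn, MM_eq hN, MM_eq hNa,
    ← Finset.sum_sub_distrib]
  refine Finset.sum_le_sum fun n _ => ?_
  rw [integral_const_mul]
  have hle : ∫ z in Ioc (a + 3 * h) b, k3 h (z - Real.log n) ≤ 1 := by
    rw [← k3_one hh, ← integral_sub_right_eq_self (k3 h) (Real.log n)]
    exact setIntegral_le_integral ((k3_int hh).comp_sub_right _)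
      (Eventually.of_forall fun z => k3_nonneg hh _)
  have hz : ∀ (P : Prop), (∀ z ∈ Ioc (a + 3 * h) b, k3 h (z - Real.log n) = 0) →
      ∫ z in Ioc (a + 3 * h) b, k3 h (z - Real.log n) = 0 := by
    intro _ h1
    rw [setIntegral_congr_fun measurableSet_Ioc h1]
    simp
  by_cases h1 : Real.log n ≤ b
  · by_cases h2 : Real.log n ≤ a
    · rw [if_pos h1, if_pos h2, hz True (fun z hz1 => k3_zero (by
        rintro ⟨-, h4⟩
        linarith [hz1.1]))]
      simp
    · rw [if_pos h1, if_neg h2, sub_zero]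
      exact mul_le_of_le_one_right (wt_nonneg n) hle
  · rw [if_neg h1, if_neg (fun h3 => h1 (h3.trans hab)), hz True (fun z hz1 => k3_zero (by
        rintro ⟨h4, -⟩
        linarith [hz1.2, not_le.1 h1]))]
    simp

/-- lower bound by the sharp one -/
lemma le_VV (hh : 0 < h) {a b : ℝ} {N : ℕ} (hN : ⌊Real.exp (b + 3 * h)⌋₊ + 1 ≤ N) (hab : a ≤ b) :
    MM b - MM a ≤ ∫ z in Ioc a (b + 3 * h), VV h N z := by
  have hNb : ⌊Real.exp b⌋₊ + 1 ≤ N := by
    have := Nat.floor_le_floor (Real.exp_le_exp.2 (by linarith : b ≤ b + 3 * h))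
    omega
  have hNa : ⌊Real.exp a⌋₊ + 1 ≤ N := by
    have := Nat.floor_le_floor (Real.exp_le_exp.2 hab)
    omega
  unfold VV
  rw [integral_finset_sum _ fun n _ => (shift_int hh n).integrableOn, MM_eq hNb, MM_eq hNa,
    ← Finset.sum_sub_distrib]
  refine Finset.sum_le_sum fun n _ => ?_
  rw [integral_const_mul]
  have hnn : 0 ≤ ∫ z in Ioc a (b + 3 * h), k3 h (z - Real.log n) :=
    setIntegral_nonneg measurableSet_Ioc fun z _ => k3_nonneg hh _
  by_cases h1 : Real.log n ≤ b
  · by_cases h2 : Real.log n ≤ a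
    · rw [if_pos h1, if_pos h2, sub_self]
      exact mul_nonneg (wt_nonneg n) hnn
    · rw [if_pos h1, if_neg h2, sub_zero]
      have : ∫ z in Ioc a (b + 3 * h), k3 h (z - Real.log n) = 1 := by
        rw [setIntegral_eq_integral_of_forall_compl_eq_zero,
          integral_sub_right_eq_self (k3 h) (Real.log n), k3_one hh]
        intro z hz1
        refine k3_zero fun h3 => hz1 ⟨?_, ?_⟩
        · linarith [h3.1, not_le.1 h2]
        · linarith [h3.2]
      rw [this, mul_one]
  · rw [if_neg h1, if_neg (fun h3 => h1 (h3.trans hab)), sub_self]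
    exact mul_nonneg (wt_nonneg n) hnn

lemma VV_intOn (hh : 0 < h) (N : ℕ) (s : Set ℝ) : IntegrableOn (VV h N) s := by
  unfold VV
  exact (integrable_finset_sum _ fun n _ => shift_int hh n).integrableOn

end

/-- **The prime number theorem in short intervals, logarithmic scale.** -/
theorem short_log : ∀ ε : ℝ, 0 < ε → ε ≤ 1 → ∃ δ x0 : ℝ, 0 < δ ∧ 1 ≤ x0 ∧ ∀ a b : ℝ,
    x0 ≤ a → b - a ≤ 1 → Real.exp (-(δ * a)) ≤ b - a → |MM b - MM a - (b - a)| ≤ ε * (b - a) := by
  intro ε hε hε1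
  obtain ⟨δ', l0, z0, hδ', hl0, hz0, hW⟩ := W_small (ε / 4) (by positivity) (by linarith)
  set K := max (Real.exp l0) (24 / ε) with hK
  have hK0 : 0 < K := lt_of_lt_of_le (Real.exp_pos _) (le_max_left _ _)
  have hK24 : 24 / ε ≤ K := le_max_right _ _
  have hKe : Real.exp l0 ≤ K := le_max_left _ _
  have hKlog : l0 ≤ Real.log K := by
    rw [Real.le_log_iff_exp_le hK0]
    exact hKe
  set x0 := max z0 (max (2 * Real.log K / δ') 3) with hx0
  refine ⟨δ' / 2, x0, by positivity, hz0.trans (le_max_left _ _), fun a b ha hab1 hab => ?_⟩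
  have ha1 : z0 ≤ a := (le_max_left _ _).trans ha
  have ha2 : 2 * Real.log K / δ' ≤ a := ((le_max_left _ _).trans (le_max_right _ _)).trans ha
  have ha3 : 3 ≤ a := ((le_max_right _ _).trans (le_max_right _ _)).trans ha
  rw [div_le_iff₀ hδ'] at ha2
  have hba : 0 < b - a := lt_of_lt_of_le (Real.exp_pos _) hab
  set h := (b - a) / K with hh
  have hh0 : 0 < h := by positivity
  have hKh : K * h = b - a := by
    rw [hh]
    field_simp
  have h3h : 3 * h ≤ ε / 8 * (b - a) := by
    have h1 : 24 ≤ K * ε := by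
      rw [div_le_iff₀ hε] at hK24
      exact hK24
    have h2 : 24 * h ≤ K * ε * h := mul_le_mul_of_nonneg_right h1 hh0.le
    have h3 : K * ε * h = ε * (b - a) := by rw [← hKh]; ring
    linarith
  set l := Real.log (1 / h) with hl
  have hhl : Real.exp (-l) = h := by
    rw [hl, Real.exp_neg, Real.exp_log (by positivity), one_div, inv_inv]
  have hleq : l = Real.log K - Real.log (b - a) := by
    rw [hl, hh, one_div_div, Real.log_div hK0.ne' hba.ne']
  have hlog1 : Real.log (b - a) ≤ 0 := Real.log_nonpos hba.le hab1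
  have hlog2 : -(δ' / 2 * a) ≤ Real.log (b - a) := by
    rw [Real.le_log_iff_exp_le hba]
    exact hab
  have hll0 : l0 ≤ l := by linarith
  have hlδ : l ≤ δ' * a := by linarith
  have hb3 : 3 * h ≤ 1 := by
    have : ε / 8 * (b - a) ≤ 1 := by
      calc ε / 8 * (b - a) ≤ 1 * 1 := mul_le_mul (by linarith) hab1 hba.le zero_le_one
        _ = 1 := one_mul 1
    linarith
  set N := ⌊Real.exp (b + 3 * h)⌋₊ + 1 with hN
  have hV : ∀ z, a ≤ z → z ≤ b + 3 * h → |VV h N z - 1| ≤ ε / 4 := by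
    intro z hz1 hz2
    have h1 := hW l z hll0 (hlδ.trans (mul_le_mul_of_nonneg_left hz1 hδ'.le)) (by linarith)
    rw [hhl, W_eq hh0 (by linarith) (N := N) (by
      have := Nat.floor_le_floor (Real.exp_le_exp.2 hz2)
      omega)] at h1
    exact h1
  have hup : MM b - MM a ≤ (1 + ε / 4) * (b - a + 3 * h) := by
    refine (le_VV hh0 (N := N) le_rfl (by linarith)).trans ?_
    have h1 : ∫ z in Ioc a (b + 3 * h), VV h N z ≤ ∫ _ in Ioc a (b + 3 * h), (1 + ε / 4) := by
      refine setIntegral_mono_on (VV_intOn hh0 N _) (integrableOn_const (by simp) (by simp))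
        measurableSet_Ioc fun z hz => ?_
      have := (abs_le.1 (hV z hz.1.le hz.2)).2
      linarith
    refine h1.trans (le_of_eq ?_)
    rw [setIntegral_const, smul_eq_mul]
    simp only [Measure.real, Real.volume_Ioc]
    rw [ENNReal.toReal_ofReal (by linarith)]
    ring
  have hlo : (1 - ε / 4) * (b - a - 3 * h) ≤ MM b - MM a := by
    refine le_trans ?_ (VV_le hh0 (N := N) (by
      have := Nat.floor_le_floor (Real.exp_le_exp.2 (by linarith : b ≤ b + 3 * h))
      omega) (by linarith))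
    have h1 : ∫ _ in Ioc (a + 3 * h) b, (1 - ε / 4) ≤ ∫ z in Ioc (a + 3 * h) b, VV h N z := by
      refine setIntegral_mono_on (integrableOn_const (by simp) (by simp)) (VV_intOn hh0 N _)
        measurableSet_Ioc fun z hz => ?_
      have := (abs_le.1 (hV z (by linarith [hz.1]) (by linarith [hz.2]))).1
      linarith
    refine le_trans (le_of_eq ?_) h1
    have h2 : 3 * h ≤ b - a := by
      have : ε / 8 * (b - a) ≤ 1 * (b - a) := mul_le_mul_of_nonneg_right (by linarith) hba.le
      linarith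
    rw [setIntegral_const, smul_eq_mul]
    simp only [Measure.real, Real.volume_Ioc]
    rw [ENNReal.toReal_ofReal (by linarith)]
    ring
  have q1 : ε * (3 * h) ≤ 1 * (3 * h) := mul_le_mul_of_nonneg_right hε1 (by positivity)
  have q2 : 0 ≤ ε * h := by positivity
  have q3 : 0 ≤ ε * (b - a) := by positivity
  rw [abs_le]
  constructor <;> linarith

end Pool.Agent.Y895.PS
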