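import Pool.Agent.Y895.OL.A1

set_option autoImplicit false

/-!
# The order law with sharp constants

Adapted from `Pool.Agent.Y895.OL.A1`.
-/

namespace Pool.Agent.Y895.PS

open Finset Filter Topology MeasureTheory
open Pool.Agent.TH888.R (gr blocks one_le_gr gr_mono gr_small)
open Pool.Agent.Y895.OL

variable {Ω : Type*} [MeasurableSpace Ω]

variable {μ : Measure Ω} [IsFiniteMeasure μ] {f m : ℕ → Ω → ℝ} {I : Set ℕ} {w lam : ℕ → ℝ} {P : ℕ}

open Classical in
/-- **The order law with sharp constants.** -/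
theorem row_sharp (h : Row μ f m I w (fun _ => 1) P) {c0 K e : ℝ} (hc0 : 0 < c0) (hK : 0 < K) (he : 0 < e)
    (hlo : ∀ᵐ x ∂μ, ∀ q ≥ P, q ∈ I → c0 * w q ≤ m q x)
    (hup : ∀ᵐ x ∂μ, ∀ q ≥ P, q ∈ I → m q x ≤ K * w q)
    (S : Set ℕ) (hdiv : Tendsto (VI I w S) atTop atTop) :
    ∀ᵐ x ∂μ, ∀ᶠ n : ℕ in atTop, (c0 - e) * VI I w S n ≤ FI I f S n x ∧
      FI I f S n x ≤ (K + e) * VI I w S n := by
  have key := h.law S hdiv
  filter_upwards [key, hlo, hup] with x hx hl hu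
  obtain ⟨B, hB, hBn⟩ := hx
  have h1 := hdiv.eventually (gr_small (A := B) (ε := e / 2) hB (by positivity))
  have h2 := hdiv.eventually (gr_small (A := B) (ε := e / 2) hB (by positivity))
  have h3 := hdiv.eventually (eventually_ge_atTop (2 * (P : ℝ) * (c0 + 1) / e))
  filter_upwards [h1, h2, h3] with n g1 g2 g3
  set V := VI I w S n with hV
  have hV0 : 0 ≤ V := VI_nonneg h.w0 S n
  obtain ⟨a1, a2⟩ := VI_tail (I := I) h.w0 h.w1 S P n
  obtain ⟨b1, b2⟩ := FI_tail (I := I) h.f0 h.f1 S P n x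
  have key2 := hBn (n + 1)
  simp only [mul_one] at key2
  set V' := ∑ q ∈ range (n + 1), (if q ∈ S ∧ q ∈ I ∧ P ≤ q then w q else 0) with hV'
  set F' := ∑ q ∈ range (n + 1), (if q ∈ S ∧ q ∈ I ∧ P ≤ q then f q x else 0) with hF'
  have hV'0 : 0 ≤ V' := Finset.sum_nonneg fun q _ => by
    split_ifs
    · exact h.w0 q
    · exact le_rfl
  have e1 : ∑ q ∈ range (n + 1), (if q ∈ S ∧ q ∈ I ∧ P ≤ q then f q x - m q x else 0) =
      F' - ∑ q ∈ range (n + 1), (if q ∈ S ∧ q ∈ I ∧ P ≤ q then m q x else 0) := by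
    rw [hF', ← Finset.sum_sub_distrib]
    refine Finset.sum_congr rfl fun q _ => ?_
    split_ifs
    · rfl
    · norm_num
  rw [e1] at key2
  set M' := ∑ q ∈ range (n + 1), (if q ∈ S ∧ q ∈ I ∧ P ≤ q then m q x else 0) with hM'
  have hM1 : c0 * V' ≤ M' := by
    rw [hV', hM', Finset.mul_sum]
    refine Finset.sum_le_sum fun q _ => ?_
    split_ifs with hq
    · exact hl q hq.2.2 hq.2.1
    · rw [mul_zero]
  have hM2 : M' ≤ K * V' := by
    rw [hV', hM', Finset.mul_sum]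
    refine Finset.sum_le_sum fun q _ => ?_
    split_ifs with hq
    · exact hu q hq.2.2 hq.2.1
    · rw [mul_zero]
  have hg : B * gr V' ≤ B * gr V := mul_le_mul_of_nonneg_left (gr_mono hV'0 a2) hB
  obtain ⟨k1, k2⟩ := abs_le.1 key2
  have hP0 : (0 : ℝ) ≤ P := Nat.cast_nonneg P
  have hPe : (P : ℝ) * (c0 + 1) ≤ e / 2 * V := by
    rw [div_le_iff₀ he] at g3
    linarith
  have hPc : 0 ≤ (P : ℝ) * c0 := by positivity
  constructor
  · have : c0 * (V - P) ≤ c0 * V' := mul_le_mul_of_nonneg_left (by linarith) hc0.le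
    linarith
  · have h7 : K * V' ≤ K * V := mul_le_mul_of_nonneg_left a2 hK.le
    linarith


end Pool.Agent.Y895.PS
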