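import Pool.Agent.Y895.PS.Q8

set_option autoImplicit false

/-!
# Counting primes in short blocks of integers
-/

open Filter Topology Finset

namespace Pool.Agent.Y895.PS

/-- weighted and unweighted sums over the primes of a block -/
lemma block_cmp {B L : ℕ} (hB : 2 ≤ B) {y0 y1 : ℝ} (hy0 : y0 = (B : ℝ) - 1 / 2)
    (hy1 : y1 = (B : ℝ) + L - 1 / 2) (hL : 1 ≤ L) :
    MM (Real.log y1) - MM (Real.log y0) = ∑ p ∈ (Ico B (B + L)).filter Nat.Prime,
      Real.log p / p := by
  have hBr : (2 : ℝ) ≤ B := by exact_mod_cast hB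
  have hLr : (1 : ℝ) ≤ L := by exact_mod_cast hL
  have h0 : 0 < y0 := by linarith
  have h1 : 0 < y1 := by linarith
  have f0 : ⌊y0⌋₊ + 1 = B := by
    have : ⌊y0⌋₊ = B - 1 := by
      rw [Nat.floor_eq_iff h0.le]
      rw [Nat.cast_sub (by omega)]
      push_cast
      constructor <;> linarith
    omega
  have f1 : ⌊y1⌋₊ + 1 = B + L := by
    have : ⌊y1⌋₊ = B + L - 1 := by
      rw [Nat.floor_eq_iff h1.le]
      rw [Nat.cast_sub (by omega)]
      push_cast
      constructor <;> linarith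
    omega
  unfold MM
  rw [Real.exp_log h0, Real.exp_log h1, f0, f1]
  have hsub : Finset.range B ⊆ Finset.range (B + L) := Finset.range_subset_range.2 (by omega)
  rw [← Finset.sum_sdiff_eq_sub hsub, Finset.sum_filter]
  have e2 : Finset.range (B + L) \ Finset.range B = Finset.Ico B (B + L) := by
    ext n
    simp only [Finset.mem_sdiff, Finset.mem_range, Finset.mem_Ico]
    omega
  rw [e2]
  rfl

lemma aux_up {ε : ℝ} (h0 : 0 < ε) (h1 : ε ≤ 1) : (1 + ε / 8) * (1 + ε / 8) ≤ (1 + ε) * (1 - ε / 4) := by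
  nlinarith

lemma aux_lo {ε : ℝ} (h0 : 0 < ε) (h1 : ε ≤ 1) : (1 - ε) * (1 + ε / 8) * (1 + ε / 8) ≤ 1 - ε / 8 := by
  nlinarith [mul_pos h0 h0, mul_pos (mul_pos h0 h0) h0]

/-- **Primes in short blocks.** -/
theorem cnt_pr : ∀ ε : ℝ, 0 < ε → ε ≤ 1 → ∃ (δ : ℝ) (K : ℕ), 0 < δ ∧ δ < 1 / 8 ∧ 1 ≤ K ∧
    ∀ α : ℝ, 1 < α → ∀ C : ℝ, 0 < C → ∃ P : ℕ, ∀ q ≥ P, ∀ B L : ℕ, K * L ≤ B →
    (B : ℝ) ≤ C * α ^ q → (q : ℝ) * (1 - δ) * Real.log α ≤ Real.log L →
    (1 - ε) / Real.log α * (1 / q) * L ≤ (((Ico B (B + L)).filter Nat.Prime).card : ℝ) ∧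
    (((Ico B (B + L)).filter Nat.Prime).card : ℝ) ≤ (1 + ε) / Real.log α * (1 / q) * L := by
  intro ε hε hε1
  obtain ⟨δ', x0, hδ', hx0, hsh⟩ := short_log (ε / 8) (by positivity) (by linarith)
  set K := ⌈16 / ε⌉₊ + 1 with hK
  have hKr : 16 / ε ≤ K := by
    have := Nat.le_ceil (16 / ε)
    rw [hK]
    push_cast
    linarith
  set δ := min (δ' / 4) (ε / 16) with hδ
  have hδ0 : 0 < δ := by positivity
  have hδ1 : δ ≤ δ' / 4 := min_le_left _ _
  have hδ2 : δ ≤ ε / 16 := min_le_right _ _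
  refine ⟨δ, K, hδ0, by linarith, by omega, fun α hα C hC => ?_⟩
  have hlb : 0 < Real.log α := Real.log_pos hα
  have hα0 : 0 < α := by linarith
  set D := |Real.log (4 * C)| + 4 with hD
  have hD0 : 4 ≤ D := by
    have := abs_nonneg (Real.log (4 * C))
    linarith
  have hev : ∀ᶠ q : ℕ in atTop, x0 + D + 4 * D / δ' + 16 * D / ε ≤ (q : ℝ) * Real.log α / 2 := by
    have : Tendsto (fun q : ℕ => (q : ℝ) * Real.log α / 2) atTop atTop := by
      have h1 : Tendsto (fun q : ℕ => (q : ℝ) * (Real.log α / 2)) atTop atTop :=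
        tendsto_natCast_atTop_atTop.atTop_mul_const (by positivity)
      refine h1.congr fun q => ?_
      ring
    exact this.eventually_ge_atTop _
  obtain ⟨P, hP⟩ := hev.exists_forall_of_atTop
  refine ⟨P, fun q hq B L hKL hBC hL => ?_⟩
  have hqb := hP q hq
  set Q := (q : ℝ) * Real.log α with hQ
  have t1 : 0 ≤ 4 * D / δ' := by positivity
  have t2 : 0 ≤ 16 * D / ε := by positivity
  have hQx : x0 + D ≤ Q / 2 := by linarith
  have hQδ : D ≤ δ' / 4 * (Q / 2) := by
    have : 4 * D / δ' ≤ Q / 2 := by linarith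
    rw [div_le_iff₀ hδ'] at this
    linarith
  have hQε : D ≤ ε / 16 * (Q / 2) := by
    have : 16 * D / ε ≤ Q / 2 := by linarith
    rw [div_le_iff₀ hε] at this
    linarith
  have hQ0 : 0 < Q := by linarith
  have hq0 : (0 : ℝ) < q := by
    by_contra hc
    have : (q : ℝ) ≤ 0 := not_lt.1 hc
    have : Q ≤ 0 := mul_nonpos_of_nonpos_of_nonneg this hlb.le
    linarith
  have hL' : Q * (1 - δ) ≤ Real.log L := by
    refine le_trans (le_of_eq ?_) hL
    rw [hQ]
    ring
  have hQδh : Q * (1 - δ) ≥ Q / 2 := by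
    have : Q * δ ≤ Q * (1 / 2) := mul_le_mul_of_nonneg_left (by linarith) hQ0.le
    linarith
  have hL0 : 1 ≤ L := by
    rcases Nat.eq_zero_or_pos L with h | h
    · rw [h] at hL'
      simp at hL'
      linarith
    · exact h
  have hLr : (1 : ℝ) ≤ L := by exact_mod_cast hL0
  have hL00 : (0 : ℝ) < L := by linarith
  have hKLr : 16 / ε * L ≤ B := by
    have h1 : (K : ℝ) * L ≤ B := by exact_mod_cast hKL
    exact (mul_le_mul_of_nonneg_right hKr (by linarith)).trans h1
  have hLB : (L : ℝ) ≤ ε / 16 * B := by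
    calc (L : ℝ) = ε / 16 * (16 / ε * L) := by field_simp
      _ ≤ ε / 16 * B := mul_le_mul_of_nonneg_left hKLr (by positivity)
  have hBr : (16 : ℝ) ≤ B := by
    have : 16 * 1 ≤ 16 / ε * L := by
      apply mul_le_mul _ hLr zero_le_one (by positivity)
      rw [le_div_iff₀ hε]
      linarith
    linarith
  have hB2 : 2 ≤ B := by
    have : (2 : ℝ) ≤ B := by linarith
    exact_mod_cast this
  set y0 : ℝ := (B : ℝ) - 1 / 2 with hy0
  set y1 : ℝ := (B : ℝ) + L - 1 / 2 with hy1
  have y0p : 0 < y0 := by linarith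
  have y1p : 0 < y1 := by linarith
  have hratio : y1 ≤ (1 + ε / 8) * y0 := by
    have h1 : (B : ℝ) ≤ 2 * y0 := by linarith
    have h2 : ε / 16 * B ≤ ε / 16 * (2 * y0) := mul_le_mul_of_nonneg_left h1 (by positivity)
    linarith
  have e1 := block_cmp hB2 hy0 hy1 hL0
  set a := Real.log y0 with ha
  set b := Real.log y1 with hb
  have hyle : y0 ≤ y1 := by linarith
  -- log bounds
  have hlogB : Real.log B ≤ Q + Real.log C := by
    have h1 := Real.log_le_log (by linarith : (0:ℝ) < B) hBC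
    rw [Real.log_mul hC.ne' (by positivity), Real.log_pow] at h1
    linarith
  have hl4 : Real.log 4 ≤ 2 := by
    rw [show (4 : ℝ) = 2 ^ 2 by norm_num, Real.log_pow]
    have := Real.log_two_lt_d9
    push_cast
    linarith
  have hl2 : Real.log 2 ≤ 1 := by
    have := Real.log_two_lt_d9
    linarith
  have hl20 : 0 ≤ Real.log 2 := Real.log_nonneg (by norm_num)
  have hC4 : Real.log C + Real.log 4 ≤ D - 4 := by
    have h1 : Real.log (4 * C) = Real.log 4 + Real.log C := Real.log_mul (by norm_num) hC.ne'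
    have h2 := le_abs_self (Real.log (4 * C))
    rw [hD]
    linarith
  have hl40 : 0 ≤ Real.log 4 := Real.log_nonneg (by norm_num)
  have hb_up : b ≤ Q + D := by
    have h1 : y1 ≤ 2 * B := by
      have : ε / 16 * B ≤ 1 * B := mul_le_mul_of_nonneg_right (by linarith) (by linarith)
      linarith
    have h2 := Real.log_le_log y1p h1
    rw [Real.log_mul (by norm_num) (by linarith)] at h2
    linarith
  have ha_lo : Q * (1 - δ) - 1 ≤ a := by
    have h1 : (L : ℝ) / 2 ≤ y0 := by
      have : ε / 16 * B ≤ 1 * B := mul_le_mul_of_nonneg_right (by linarith) (by linarith)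
      linarith
    have h2 := Real.log_le_log (by positivity) h1
    rw [Real.log_div (by linarith) (by norm_num)] at h2
    linarith
  have hab : b - a = Real.log (y1 / y0) := by
    rw [Real.log_div y1p.ne' y0p.ne']
  have hab_up : b - a ≤ L / y0 := by
    rw [hab]
    have h1 := Real.log_le_sub_one_of_pos (show 0 < y1 / y0 by positivity)
    have e : y1 / y0 - 1 = L / y0 := by
      rw [div_sub_one y0p.ne']
      congr 1
      rw [hy0, hy1]
      ring
    linarith
  have hab_lo : L / y1 ≤ b - a := by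
    rw [hab]
    have h1 := Real.one_sub_inv_le_log_of_pos (show 0 < y1 / y0 by positivity)
    have e : 1 - (y1 / y0)⁻¹ = L / y1 := by
      rw [inv_div]
      rw [one_sub_div y1p.ne']
      congr 1
      rw [hy0, hy1]
      ring
    linarith
  have hy0L : (L : ℝ) ≤ y0 := by
    have h1 : ε / 16 * B ≤ 1 / 16 * B := mul_le_mul_of_nonneg_right (by linarith) (by linarith)
    linarith
  have hs := hsh a b (by linarith) (by
      refine hab_up.trans ?_
      rw [div_le_one y0p]
      exact hy0L) (by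
      refine le_trans ?_ hab_lo
      rw [← Real.le_log_iff_exp_le (by positivity), Real.log_div (by linarith) y1p.ne', ← hb]
      have h1 : δ' * (Q * (1 - δ) - 1) ≤ δ' * a := mul_le_mul_of_nonneg_left ha_lo hδ'.le
      have h2 : δ' * (Q / 2) ≤ δ' * (Q * (1 - δ)) := mul_le_mul_of_nonneg_left hQδh hδ'.le
      have h3 : δ * Q ≤ δ' / 4 * Q := mul_le_mul_of_nonneg_right hδ1 hQ0.le
      -- need: -(δ' a) ≤ log L - b
      have h4 : Real.log L - b ≥ Q * (1 - δ) - (Q + D) := by linarith
      have h5 : D + δ' ≤ δ' / 4 * Q := by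
        have h6 : δ' ≤ δ' / 4 * (Q / 2) := by
          have : 4 ≤ Q / 2 := by linarith
          have := mul_le_mul_of_nonneg_left this (by positivity : 0 ≤ δ' / 4)
          linarith
        linarith
      linarith)
  rw [e1] at hs
  set SG := ∑ p ∈ (Ico B (B + L)).filter Nat.Prime, Real.log p / p with hS0
  set c := (((Ico B (B + L)).filter Nat.Prime).card : ℝ) with hc
  have hc0 : 0 ≤ c := Nat.cast_nonneg _
  have ha0 : 0 < a := by linarith
  have hbpos : 0 < b := by
    have : a ≤ b := Real.log_le_log y0p hyle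
    linarith
  have hpt : ∀ p ∈ (Ico B (B + L)).filter Nat.Prime, a / y1 ≤ Real.log p / p ∧
      Real.log p / p ≤ b / y0 := by
    intro p hp
    rw [mem_filter, mem_Ico] at hp
    have h1 : (B : ℝ) ≤ p := by exact_mod_cast hp.1.1
    have h2 : (p : ℝ) ≤ B + L - 1 := by
      have : ((p + 1 : ℕ) : ℝ) ≤ ((B + L : ℕ) : ℝ) := by exact_mod_cast hp.1.2
      push_cast at this
      linarith
    have h3 : y0 ≤ p := by linarith
    have h4 : (p : ℝ) ≤ y1 := by linarith
    have hp0 : (0 : ℝ) < p := by linarith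
    have h5 : a ≤ Real.log p := Real.log_le_log y0p h3
    have h6 : Real.log p ≤ b := Real.log_le_log hp0 h4
    exact ⟨div_le_div₀ (by linarith) h5 hp0 h4, div_le_div₀ hbpos.le h6 y0p h3⟩
  have g1 : c * (a / y1) ≤ SG := by
    rw [hS0, hc, ← nsmul_eq_mul, ← Finset.sum_const]
    exact Finset.sum_le_sum fun p hp => (hpt p hp).1
  have g2 : SG ≤ c * (b / y0) := by
    rw [hS0, hc, ← nsmul_eq_mul, ← Finset.sum_const]
    exact Finset.sum_le_sum fun p hp => (hpt p hp).2
  obtain ⟨hs1, hs2⟩ := abs_le.1 hs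
  -- upper bound for the sum
  have k1 : SG ≤ (1 + ε / 8) * (L / y0) := by
    have h1 : SG ≤ (1 + ε / 8) * (b - a) := by linarith
    exact h1.trans (mul_le_mul_of_nonneg_left hab_up (by linarith))
  have k2 : (1 - ε / 8) * (L / y1) ≤ SG := by
    have h1 : (1 - ε / 8) * (b - a) ≤ SG := by linarith
    exact (mul_le_mul_of_nonneg_left hab_lo (by linarith)).trans h1
  have hyr : y1 / y0 ≤ 1 + ε / 8 := by
    rw [div_le_iff₀ y0p]
    exact hratio
  constructor
  · -- lower bound
    have h1 : (1 - ε / 8) * (L / y1) ≤ c * (b / y0) := k2.trans g2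
    have h2 : (1 - ε / 8) * L ≤ c * b * (1 + ε / 8) := by
      have h3 : (1 - ε / 8) * (L / y1) * y1 ≤ c * (b / y0) * y1 :=
        mul_le_mul_of_nonneg_right h1 y1p.le
      have e3 : (1 - ε / 8) * (L / y1) * y1 = (1 - ε / 8) * L := by field_simp
      have e4 : c * (b / y0) * y1 = c * b * (y1 / y0) := by field_simp
      rw [e3, e4] at h3
      exact h3.trans (mul_le_mul_of_nonneg_left hyr (by positivity))
    have h3 : b ≤ (1 + ε / 8) * Q := by linarith
    have h4 : (1 - ε / 8) * L ≤ c * ((1 + ε / 8) * Q) * (1 + ε / 8) :=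
      h2.trans (mul_le_mul_of_nonneg_right (mul_le_mul_of_nonneg_left h3 hc0) (by linarith))
    have e5 : (1 - ε) / Real.log α * (1 / q) * L = (1 - ε) * L / Q := by
      rw [hQ]
      field_simp
    rw [e5, div_le_iff₀ hQ0]
    have h5 := aux_lo hε hε1
    have h6 := mul_le_mul_of_nonneg_right h5 hL00.le
    have h7 : (1 + ε / 8) * (1 + ε / 8) * ((1 - ε) * L) ≤ (1 + ε / 8) * (1 + ε / 8) * (c * Q) := by
      linarith
    exact le_of_mul_le_mul_left h7 (by positivity)
  · -- upper bound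
    have h1 : c * (a / y1) ≤ (1 + ε / 8) * (L / y0) := g1.trans k1
    have h2 : c * a ≤ (1 + ε / 8) * L * (1 + ε / 8) := by
      have h3 : c * (a / y1) * y1 ≤ (1 + ε / 8) * (L / y0) * y1 :=
        mul_le_mul_of_nonneg_right h1 y1p.le
      have e3 : c * (a / y1) * y1 = c * a := by field_simp
      have e4 : (1 + ε / 8) * (L / y0) * y1 = (1 + ε / 8) * L * (y1 / y0) := by field_simp
      rw [e3, e4] at h3
      exact h3.trans (mul_le_mul_of_nonneg_left hyr (by positivity))
    have h3 : (1 - ε / 4) * Q ≤ a := by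
      have h4 : Q * δ ≤ Q * (ε / 16) := mul_le_mul_of_nonneg_left hδ2 hQ0.le
      linarith
    have h4 : c * ((1 - ε / 4) * Q) ≤ (1 + ε / 8) * L * (1 + ε / 8) :=
      (mul_le_mul_of_nonneg_left h3 hc0).trans h2
    have e5 : (1 + ε) / Real.log α * (1 / q) * L = (1 + ε) * L / Q := by
      rw [hQ]
      field_simp
    rw [e5, le_div_iff₀ hQ0]
    have h5 := aux_up hε hε1
    have h6 := mul_le_mul_of_nonneg_right h5 hL00.le
    have h7 : (1 - ε / 4) * (c * Q) ≤ (1 - ε / 4) * ((1 + ε) * L) := by linarith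
    exact le_of_mul_le_mul_left h7 (by linarith)

end Pool.Agent.Y895.PS
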