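import Mathlib
import Pool.Agent.H295R3.D6

set_option autoImplicit false

/-!
# Selberg's sum over rough numbers: an upper bound for `(0, N]`
-/

open Finset

namespace Pool.Agent.Y895.PS

open Pool.Agent.H295R3.D
open ArithmeticFunction (vonMangoldt vonMangoldt_nonneg vonMangoldt_le_log)

lemma psi_nat (N : ℕ) : ∑ n ∈ Ioc 0 N, vonMangoldt n = Chebyshev.psi N := by
  unfold Chebyshev.psi
  rw [Nat.floor_natCast]

lemma psi_le7 (x : ℝ) (hx : 0 ≤ x) : Chebyshev.psi x ≤ 7 * x := by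
  refine (Chebyshev.psi_le_const_mul_self hx).trans ?_
  have h2 : Real.log 4 ≤ 2 := by
    have : Real.log 4 = 2 * Real.log 2 := by
      rw [show (4 : ℝ) = 2 ^ 2 by norm_num, Real.log_pow]; norm_num
    have := Real.log_two_lt_d9
    linarith
  nlinarith

lemma vM_mertens (N : ℕ) (hN : 1 ≤ N) :
    ∑ n ∈ Ioc 0 N, vonMangoldt n / n ≤ Real.log N + 7 := by
  have h := ArithmeticFunction.sum_Ioc_mul_zeta_eq_sum (R := ℝ) vonMangoldt N
  rw [ArithmeticFunction.vonMangoldt_mul_zeta] at h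
  have hN0 : (0 : ℝ) < N := by exact_mod_cast hN
  have h1 : ∑ n ∈ Ioc 0 N, (ArithmeticFunction.log n : ℝ) ≤ N * Real.log N := by
    calc ∑ n ∈ Ioc 0 N, (ArithmeticFunction.log n : ℝ) ≤ ∑ n ∈ Ioc 0 N, Real.log N := by
          refine sum_le_sum fun n hn => ?_
          rw [mem_Ioc] at hn
          rw [ArithmeticFunction.log_apply]
          exact Real.log_le_log (by exact_mod_cast hn.1) (by exact_mod_cast hn.2)
      _ = N * Real.log N := by simp
  have h2 : N * ∑ n ∈ Ioc 0 N, vonMangoldt n / n - ∑ n ∈ Ioc 0 N, vonMangoldt n ≤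
      ∑ n ∈ Ioc 0 N, vonMangoldt n * ((N / n : ℕ) : ℝ) := by
    rw [mul_sum, ← sum_sub_distrib]
    refine sum_le_sum fun n hn => ?_
    rw [mem_Ioc] at hn
    have hn0 : (0 : ℝ) < n := by exact_mod_cast hn.1
    have h3 : (N : ℝ) / n - 1 ≤ ((N / n : ℕ) : ℝ) := by
      rw [sub_le_iff_le_add, div_le_iff₀ hn0]
      have := Nat.lt_div_mul_add (a := N) (b := n) hn.1
      have h : N ≤ (N / n + 1) * n := by nlinarith
      exact_mod_cast h
    have h4 : (0 : ℝ) ≤ vonMangoldt n := vonMangoldt_nonneg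
    have h5 := mul_le_mul_of_nonneg_left h3 h4
    have e : (N : ℝ) * (vonMangoldt n / n) - vonMangoldt n = vonMangoldt n * ((N : ℝ) / n - 1) := by
      ring
    rw [e]
    exact h5
  have h3 := psi_le7 N hN0.le
  rw [← psi_nat] at h3
  have h4 : ∑ n ∈ Ioc 0 N, (vonMangoldt n : ℝ) * ((N / n : ℕ) : ℝ) ≤ N * Real.log N := by
    have : ∑ n ∈ Ioc 0 N, (vonMangoldt n : ℝ) * ((N / n : ℕ) : ℝ) =
        ∑ n ∈ Ioc 0 N, (ArithmeticFunction.log n : ℝ) := by
      rw [h]
    rw [this]
    exact h1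
  have h5 : N * ∑ n ∈ Ioc 0 N, vonMangoldt n / n ≤ N * (Real.log N + 7) := by linarith
  exact le_of_mul_le_mul_left h5 hN0

lemma log_le_add (K y : ℝ) (hK : 1 ≤ K) (hy : 0 < y) : Real.log y ≤ Real.log K + y / K := by
  have h := Real.log_le_sub_one_of_pos (show 0 < y / K by positivity)
  rw [Real.log_div hy.ne' (by positivity)] at h
  linarith

/-- von Mangoldt function restricted to `[z, ∞)` -/
noncomputable def vz (z : ℕ) : ArithmeticFunction ℝ :=
  ⟨fun n => if z ≤ n then vonMangoldt n else 0, by simp⟩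

lemma vz_apply (z n : ℕ) : vz z n = if z ≤ n then vonMangoldt n else 0 := rfl

lemma vz_nonneg (z n : ℕ) : 0 ≤ vz z n := by
  rw [vz_apply]
  split_ifs
  · exact vonMangoldt_nonneg
  · exact le_rfl

lemma vz_le (z n : ℕ) : vz z n ≤ vonMangoldt n := by
  rw [vz_apply]
  split_ifs
  · exact le_rfl
  · exact vonMangoldt_nonneg

lemma vz_of_rough {z n m : ℕ} (hr : Rough z n) (hm : m ∣ n) (hn : n ≠ 0) :
    vonMangoldt m = vz z m := by
  rw [vz_apply]
  split_ifs with h
  · rfl
  · by_cases h1 : m = 1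
    · subst h1
      exact ArithmeticFunction.vonMangoldt_apply_one
    · exfalso
      have h2 := Nat.minFac_prime h1
      have h3 : m.minFac ≤ m := Nat.minFac_le (Nat.pos_of_ne_zero fun h0 => hn (by
        subst h0
        exact Nat.eq_zero_of_zero_dvd hm))
      exact hr _ h2 (by omega) ((Nat.minFac_dvd m).trans hm)

lemma upperLong (ε₁ L K : ℝ) (z N : ℕ) (hz : 2 ≤ z) (hN : z ≤ N) (hK : 1 ≤ K) (hε0 : 0 ≤ ε₁)
    (hψ : ∀ x : ℝ, (z : ℝ) ≤ x → Chebyshev.psi x ≤ (1 + ε₁) * x)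
    (hL : L = Real.log N) :
    SS L z 0 N ≤ L ^ 2 + (1 + ε₁) * N * L + (7 * N * Real.log K + N / K * (L + 7)) +
      (1 + ε₁) * N * (L + 7) := by
  have hN0 : (0 : ℝ) < N := by exact_mod_cast (by omega : 0 < N)
  have hL0 : 0 ≤ L := by rw [hL]; exact Real.log_natCast_nonneg N
  have hlK : 0 ≤ Real.log K := Real.log_nonneg hK
  have hpt : ∀ n ∈ (Ioc 0 N).filter (Rough z), lam L n ≤
      ((if n = 1 then L ^ 2 else 0) + (vonMangoldt n * L + (vonMangoldt n * Real.log K +
        N / K * (vonMangoldt n / n)))) + (vz z * vz z) n := by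
    intro n hn
    rw [mem_filter, mem_Ioc] at hn
    have hv : (0 : ℝ) ≤ vonMangoldt n := vonMangoldt_nonneg
    have hn0 : (0 : ℝ) < n := by exact_mod_cast hn.1.1
    by_cases h1 : n = 1
    · subst h1
      rw [lam_one, if_pos rfl]
      have h2 : 0 ≤ (vz z * vz z) 1 := by
        rw [ArithmeticFunction.mul_apply]
        exact sum_nonneg fun x _ => mul_nonneg (vz_nonneg _ _) (vz_nonneg _ _)
      rw [ArithmeticFunction.vonMangoldt_apply_one]
      simp only [zero_mul, zero_div, mul_zero, add_zero]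
      linarith
    · rw [if_neg h1, zero_add, lam_eq L n h1]
      refine add_le_add ?_ ?_
      · have h2 := log_le_add K ((N : ℝ) / n) hK (by positivity)
        rw [Real.log_div hN0.ne' hn0.ne', ← hL] at h2
        have h3 : 2 * L - Real.log n ≤ L + (Real.log K + N / n / K) := by linarith
        have h4 := mul_le_mul_of_nonneg_left h3 hv
        refine h4.trans (le_of_eq ?_)
        field_simp
      · rw [ArithmeticFunction.mul_apply]
        refine le_of_eq (sum_congr rfl fun x hx => ?_)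
        rw [Nat.mem_divisorsAntidiagonal] at hx
        rw [vz_of_rough hn.2 (Dvd.intro _ hx.1) hx.2, vz_of_rough hn.2 (Dvd.intro_left _ hx.1) hx.2]
  have hvz : ∀ n, 0 ≤ (vz z * vz z) n := by
    intro n
    rw [ArithmeticFunction.mul_apply]
    exact sum_nonneg fun x _ => mul_nonneg (vz_nonneg _ _) (vz_nonneg _ _)
  have s2 : SS L z 0 N = ∑ n ∈ (Ioc 0 N).filter (Rough z), lam L n := by
    unfold SS; rw [zero_add]
  rw [s2]
  refine (sum_le_sum hpt).trans ?_
  refine (sum_le_sum_of_subset_of_nonneg (filter_subset _ _) (fun n hn _ => ?_)).trans ?_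
  · have hv : (0 : ℝ) ≤ vonMangoldt n := vonMangoldt_nonneg
    have h1 : (0 : ℝ) ≤ if n = 1 then L ^ 2 else 0 := by split_ifs <;> positivity
    have h2 := hvz n
    have h3 : 0 ≤ vonMangoldt n * L := mul_nonneg hv hL0
    have h4 : 0 ≤ vonMangoldt n * Real.log K := mul_nonneg hv hlK
    have h5 : 0 ≤ N / K * (vonMangoldt n / n) := by positivity
    linarith
  rw [sum_add_distrib, sum_add_distrib, sum_add_distrib, sum_add_distrib, ← sum_mul, ← sum_mul,
    ← mul_sum, psi_nat]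
  have t1 : ∑ n ∈ Ioc 0 N, (if n = 1 then L ^ 2 else 0) ≤ L ^ 2 := by
    rw [sum_ite_eq']
    split_ifs
    · exact le_rfl
    · positivity
  have t2 : Chebyshev.psi N * L ≤ (1 + ε₁) * N * L :=
    mul_le_mul_of_nonneg_right (hψ N (by exact_mod_cast hN)) hL0
  have t3 : Chebyshev.psi N * Real.log K ≤ 7 * N * Real.log K :=
    mul_le_mul_of_nonneg_right (psi_le7 N hN0.le) hlK
  have hmer := vM_mertens N (by omega)
  rw [← hL] at hmer
  have t4 : N / K * ∑ n ∈ Ioc 0 N, vonMangoldt n / n ≤ N / K * (L + 7) :=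
    mul_le_mul_of_nonneg_left hmer (by positivity)
  have t5 : ∑ n ∈ Ioc 0 N, (vz z * vz z) n ≤ (1 + ε₁) * N * (L + 7) := by
    rw [ArithmeticFunction.sum_Ioc_mul_eq_sum_sum]
    have h1 : ∀ a ∈ Ioc 0 N, vz z a * ∑ m ∈ Ioc 0 (N / a), vz z m ≤
        (1 + ε₁) * N * (vonMangoldt a / a) := by
      intro a ha
      rw [mem_Ioc] at ha
      have ha0 : (0 : ℝ) < a := by exact_mod_cast ha.1
      have hva : (0 : ℝ) ≤ vonMangoldt a := vonMangoldt_nonneg
      have hr : 0 ≤ (1 + ε₁) * N * (vonMangoldt a / a) := by positivity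
      by_cases hc : z ≤ N / a
      · have h2 : ∑ m ∈ Ioc 0 (N / a), vz z m ≤ Chebyshev.psi ((N / a : ℕ) : ℝ) := by
          rw [← psi_nat]
          exact sum_le_sum fun m _ => vz_le _ _
        have h3 := hψ ((N / a : ℕ) : ℝ) (by exact_mod_cast hc)
        have h4 : ((N / a : ℕ) : ℝ) ≤ N / a := Nat.cast_div_le
        have h5 : ∑ m ∈ Ioc 0 (N / a), vz z m ≤ (1 + ε₁) * (N / a) :=
          h2.trans (h3.trans (mul_le_mul_of_nonneg_left h4 (by linarith)))
        calc vz z a * ∑ m ∈ Ioc 0 (N / a), vz z m ≤ vonMangoldt a * ((1 + ε₁) * (N / a)) :=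
              mul_le_mul (vz_le _ _) h5 (sum_nonneg fun _ _ => vz_nonneg _ _) hva
          _ = _ := by ring
      · have h2 : ∑ m ∈ Ioc 0 (N / a), vz z m = 0 := by
          refine sum_eq_zero fun m hm => ?_
          rw [mem_Ioc] at hm
          rw [vz_apply, if_neg (by omega)]
        rw [h2, mul_zero]
        exact hr
    refine (sum_le_sum h1).trans ?_
    rw [← mul_sum]
    exact mul_le_mul_of_nonneg_left hmer (by positivity)
  linarith

end Pool.Agent.Y895.PS
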