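import Pool.Agent.Y895.PS.S1

set_option autoImplicit false

/-!
# Selberg's sum over rough numbers: a lower bound for short intervals
-/

open Finset

namespace Pool.Agent.Y895.PS

open Pool.Agent.H295R3.D
open ArithmeticFunction (vonMangoldt vonMangoldt_nonneg vonMangoldt_le_log)

/-- the pairs of primes with product in `(X, X + Y]` -/
noncomputable def TT (X Y : ℕ) : Finset (ℕ × ℕ) :=
  (range (X + Y + 1) ×ˢ range (X + Y + 1)).filter
    (fun x : ℕ × ℕ => x.1.Prime ∧ x.2.Prime ∧ X < x.1 * x.2 ∧ x.1 * x.2 ≤ X + Y)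

/-- product of the logarithms -/
noncomputable def ll (x : ℕ × ℕ) : ℝ := Real.log x.1 * Real.log x.2

lemma ll_nonneg (x : ℕ × ℕ) : 0 ≤ ll x :=
  mul_nonneg (Real.log_natCast_nonneg _) (Real.log_natCast_nonneg _)

/-- the pairs with a small first prime -/
noncomputable def SP (z X Y : ℕ) : ℝ :=
  ∑ p ∈ (Icc 1 z).filter Nat.Prime, Real.log p *
    ∑ q ∈ (Ioc (X / p) ((X + Y) / p)).filter Nat.Prime, Real.log q

lemma small1 (z X Y : ℕ) : ∑ x ∈ (TT X Y).filter (fun x => x.1 < z), ll x ≤ SP z X Y := by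
  unfold SP
  have h1 : ∑ p ∈ (Icc 1 z).filter Nat.Prime, Real.log p *
      ∑ q ∈ (Ioc (X / p) ((X + Y) / p)).filter Nat.Prime, Real.log q =
      ∑ x ∈ ((Icc 1 z).filter Nat.Prime).sigma
        (fun p => (Ioc (X / p) ((X + Y) / p)).filter Nat.Prime),
        Real.log x.1 * Real.log x.2 := by
    rw [sum_sigma]
    refine sum_congr rfl fun p _ => ?_
    rw [mul_sum]
  rw [h1]
  have h2 : ∑ x ∈ (TT X Y).filter (fun x => x.1 < z), ll x =
      ∑ y ∈ ((TT X Y).filter (fun x => x.1 < z)).image (fun x => (⟨x.1, x.2⟩ : Σ _ : ℕ, ℕ)),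
        Real.log y.1 * Real.log y.2 := by
    rw [sum_image]
    · rfl
    · rintro ⟨a, b⟩ _ ⟨c, d⟩ _ h
      simp only [Sigma.mk.injEq, heq_eq_eq] at h
      rw [h.1, h.2]
  rw [h2]
  refine sum_le_sum_of_subset_of_nonneg ?_ (fun _ _ _ =>
    mul_nonneg (Real.log_natCast_nonneg _) (Real.log_natCast_nonneg _))
  rintro ⟨a, b⟩ hy
  simp only [TT, mem_image, mem_filter, mem_product, mem_range, Prod.exists, Sigma.mk.injEq,
    heq_eq_eq] at hy
  obtain ⟨a', b', ⟨⟨-, h3, h4, h5, h6⟩, h7⟩, h8, h9⟩ := hy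
  subst h8
  subst h9
  simp only [mem_sigma, mem_filter, mem_Icc, mem_Ioc]
  have hp : 0 < a' := h3.pos
  refine ⟨⟨⟨hp, h7.le⟩, h3⟩, ⟨?_, ?_⟩, h4⟩
  · rw [Nat.div_lt_iff_lt_mul hp, mul_comm]
    exact h5
  · rw [Nat.le_div_iff_mul_le hp, mul_comm]
    exact h6

lemma small2 (z X Y : ℕ) : ∑ x ∈ (TT X Y).filter (fun x => x.2 < z), ll x ≤ SP z X Y := by
  refine le_trans (le_of_eq ?_) (small1 z X Y)
  refine sum_nbij' Prod.swap Prod.swap ?_ ?_ (fun _ _ => rfl) (fun _ _ => rfl) ?_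
  · rintro ⟨a, b⟩ h
    simp only [TT, mem_filter, mem_product, mem_range, Prod.swap] at h ⊢
    obtain ⟨⟨⟨h1, h2⟩, h3, h4, h5, h6⟩, h7⟩ := h
    exact ⟨⟨⟨h2, h1⟩, h4, h3, by rw [mul_comm]; exact h5, by rw [mul_comm]; exact h6⟩, h7⟩
  · rintro ⟨a, b⟩ h
    simp only [TT, mem_filter, mem_product, mem_range, Prod.swap] at h ⊢
    obtain ⟨⟨⟨h1, h2⟩, h3, h4, h5, h6⟩, h7⟩ := h
    exact ⟨⟨⟨h2, h1⟩, h4, h3, by rw [mul_comm]; exact h5, by rw [mul_comm]; exact h6⟩, h7⟩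
  · rintro ⟨a, b⟩ _
    simp only [ll, Prod.swap]
    ring

lemma big_le (z X Y : ℕ) : ∑ x ∈ (TT X Y).filter (fun x => z ≤ x.1 ∧ z ≤ x.2), ll x ≤
    ∑ n ∈ (Ioc X (X + Y)).filter (Rough z), ∑ x ∈ n.divisorsAntidiagonal,
      vonMangoldt x.1 * vonMangoldt x.2 := by
  rw [← Finset.sum_fiberwise_of_maps_to (s := (TT X Y).filter (fun x => z ≤ x.1 ∧ z ≤ x.2))
    (t := (Ioc X (X + Y)).filter (Rough z)) (g := fun x => x.1 * x.2)]
  · refine sum_le_sum fun n hn => ?_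
    rw [mem_filter, mem_Ioc] at hn
    have h1 : ∀ x ∈ ((TT X Y).filter (fun x => z ≤ x.1 ∧ z ≤ x.2)).filter
        (fun x => x.1 * x.2 = n), ll x = vonMangoldt x.1 * vonMangoldt x.2 := by
      intro x hx
      simp only [TT, mem_filter] at hx
      rw [ArithmeticFunction.vonMangoldt_apply_prime hx.1.1.2.1,
        ArithmeticFunction.vonMangoldt_apply_prime hx.1.1.2.2.1]
      rfl
    rw [sum_congr rfl h1]
    refine sum_le_sum_of_subset_of_nonneg ?_
      (fun x _ _ => mul_nonneg vonMangoldt_nonneg vonMangoldt_nonneg)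
    intro x hx
    rw [mem_filter] at hx
    rw [Nat.mem_divisorsAntidiagonal]
    exact ⟨hx.2, by omega⟩
  · intro x hx
    simp only [TT, mem_filter, mem_product, mem_range] at hx
    rw [mem_filter, mem_Ioc]
    exact ⟨⟨hx.1.2.2.2.1, hx.1.2.2.2.2⟩,
      rough_mul (rough_prime hx.1.2.1 hx.2.1) (rough_prime hx.1.2.2.1 hx.2.2)⟩

lemma PS_le (z X Y : ℕ) : PS X Y ≤ ∑ n ∈ (Ioc X (X + Y)).filter (Rough z),
    ∑ x ∈ n.divisorsAntidiagonal, vonMangoldt x.1 * vonMangoldt x.2 + 2 * SP z X Y := by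
  have e : PS X Y = ∑ x ∈ TT X Y, ll x := rfl
  rw [e, ← sum_filter_add_sum_filter_not (TT X Y) (fun x => z ≤ x.1 ∧ z ≤ x.2)]
  have h1 := big_le z X Y
  have h2 : ∑ x ∈ (TT X Y).filter (fun x => ¬ (z ≤ x.1 ∧ z ≤ x.2)), ll x ≤
      ∑ x ∈ (TT X Y).filter (fun x => x.1 < z) ∪ (TT X Y).filter (fun x => x.2 < z), ll x := by
    refine sum_le_sum_of_subset_of_nonneg ?_ (fun _ _ _ => ll_nonneg _)
    intro x hx
    simp only [mem_filter, mem_union] at hx ⊢
    rcases lt_or_ge x.1 z with h | h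
    · exact Or.inl ⟨hx.1, h⟩
    · refine Or.inr ⟨hx.1, ?_⟩
      by_contra hc
      exact hx.2 ⟨h, by omega⟩
  have h3 := sum_union_inter (s₁ := (TT X Y).filter (fun x => x.1 < z))
    (s₂ := (TT X Y).filter (fun x => x.2 < z)) (f := ll)
  have h4 : 0 ≤ ∑ x ∈ (TT X Y).filter (fun x => x.1 < z) ∩ (TT X Y).filter (fun x => x.2 < z),
      ll x := sum_nonneg fun _ _ => ll_nonneg _
  have h5 := small1 z X Y
  have h6 := small2 z X Y
  linarith

lemma lowerShort (L : ℝ) (z X Y : ℕ) (hz : 2 ≤ z) (hX : z ≤ X)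
    (hL : L = Real.log ((X + Y : ℕ) : ℝ)) :
    L * ∑ p ∈ (Ioc X (X + Y)).filter Nat.Prime, Real.log p + PS X Y - 2 * SP z X Y ≤
      SS L z X Y := by
  have h1 := PS_le z X Y
  unfold SS
  have h2 : ∀ n ∈ (Ioc X (X + Y)).filter (Rough z),
      (if n.Prime then L * Real.log n else 0) + ∑ x ∈ n.divisorsAntidiagonal,
        vonMangoldt x.1 * vonMangoldt x.2 ≤ lam L n := by
    intro n hn
    rw [mem_filter, mem_Ioc] at hn
    rw [lam_eq L n (by omega)]
    have hn0 : (0 : ℝ) < n := by exact_mod_cast (by omega : 0 < n)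
    have hln : Real.log n ≤ L := by
      rw [hL]
      exact Real.log_le_log hn0 (by exact_mod_cast hn.1.2)
    refine add_le_add ?_ le_rfl
    split_ifs with h
    · rw [ArithmeticFunction.vonMangoldt_apply_prime h, mul_comm]
      exact mul_le_mul_of_nonneg_left (by linarith) (Real.log_natCast_nonneg _)
    · have := Real.log_natCast_nonneg n
      exact mul_nonneg vonMangoldt_nonneg (by linarith)
  have h3 := sum_le_sum h2
  rw [sum_add_distrib, ← sum_filter] at h3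
  have h4 : ((Ioc X (X + Y)).filter (Rough z)).filter Nat.Prime =
      (Ioc X (X + Y)).filter Nat.Prime := by
    ext n
    simp only [mem_filter, mem_Ioc]
    constructor
    · rintro ⟨⟨h5, -⟩, h6⟩
      exact ⟨h5, h6⟩
    · rintro ⟨h5, h6⟩
      exact ⟨⟨h5, rough_prime h6 (by omega)⟩, h6⟩
  rw [h4, ← mul_sum] at h3
  linarith

/-- the pairs with a small prime contribute little -/
lemma SP_le {C₂ Z lx : ℝ} {z X Y : ℕ} (hz : 2 ≤ z)
    (hM : ∀ N : ℕ, 1 ≤ N →
      |∑ p ∈ (Finset.Icc 1 N).filter Nat.Prime, Real.log p / p - Real.log N| ≤ C₂)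
    (hlx : 0 < lx) (hL : Real.log ((X + Y : ℕ) : ℝ) ≤ 2 * lx)
    (hBT : ∀ A B : ℕ, Z ≤ B →
      (((Ioc A (A + B)).filter Nat.Prime).card : ℝ) ≤ 3 * B / Real.log B)
    (hZ : ∀ p : ℕ, 1 ≤ p → p ≤ z → p ≤ Y ∧ Z ≤ ((Y / p + 1 : ℕ) : ℝ) ∧
      lx / 2 ≤ Real.log ((Y / p + 1 : ℕ) : ℝ)) :
    SP z X Y ≤ 24 * Y * (Real.log z + C₂) := by
  unfold SP
  have hL0 : 0 ≤ Real.log ((X + Y : ℕ) : ℝ) := Real.log_natCast_nonneg _
  have h1 : ∀ p ∈ (Icc 1 z).filter Nat.Prime, Real.log p *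
      ∑ q ∈ (Ioc (X / p) ((X + Y) / p)).filter Nat.Prime, Real.log q ≤
      24 * Y * (Real.log p / p) := by
    intro p hp
    rw [mem_filter, mem_Icc] at hp
    obtain ⟨⟨hp1, hp2⟩, hpp⟩ := hp
    have hp0 : (0 : ℝ) < p := by exact_mod_cast hp1
    obtain ⟨z0, z1, z2⟩ := hZ p hp1 hp2
    have h2 := hBT (X / p) (Y / p + 1) z1
    have hsub : (Ioc (X / p) ((X + Y) / p)).filter Nat.Prime ⊆
        (Ioc (X / p) (X / p + (Y / p + 1))).filter Nat.Prime := by
      refine filter_subset_filter _ (Ioc_subset_Ioc_right ?_)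
      have := Nat.add_div_le_add_div X Y p
      have h3 : (X + Y) / p ≤ X / p + Y / p + 1 := by
        rw [Nat.add_div hp1]
        split_ifs <;> omega
      omega
    have h4 : ∑ q ∈ (Ioc (X / p) ((X + Y) / p)).filter Nat.Prime, Real.log q ≤
        (3 * ((Y / p + 1 : ℕ) : ℝ) / Real.log ((Y / p + 1 : ℕ) : ℝ)) *
          Real.log ((X + Y : ℕ) : ℝ) := by
      calc ∑ q ∈ (Ioc (X / p) ((X + Y) / p)).filter Nat.Prime, Real.log q ≤
          ∑ q ∈ (Ioc (X / p) ((X + Y) / p)).filter Nat.Prime, Real.log ((X + Y : ℕ) : ℝ) := by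
            refine sum_le_sum fun q hq => ?_
            rw [mem_filter, mem_Ioc] at hq
            refine Real.log_le_log (by exact_mod_cast hq.2.pos) ?_
            exact_mod_cast hq.1.2.trans (Nat.div_le_self _ _)
        _ = (((Ioc (X / p) ((X + Y) / p)).filter Nat.Prime).card : ℝ) *
            Real.log ((X + Y : ℕ) : ℝ) := by rw [sum_const, nsmul_eq_mul]
        _ ≤ _ := by
            apply mul_le_mul_of_nonneg_right _ hL0
            refine le_trans ?_ h2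
            exact_mod_cast card_le_card hsub
    have hY1 : ((Y / p + 1 : ℕ) : ℝ) ≤ 2 * (Y / p) := by
      have h5 : ((Y / p : ℕ) : ℝ) ≤ Y / p := Nat.cast_div_le
      have h6 : (1 : ℝ) ≤ Y / p := by
        rw [le_div_iff₀ hp0, one_mul]
        exact_mod_cast z0
      push_cast
      linarith
    have h5 : (3 * ((Y / p + 1 : ℕ) : ℝ) / Real.log ((Y / p + 1 : ℕ) : ℝ)) *
        Real.log ((X + Y : ℕ) : ℝ) ≤ 24 * (Y / p) := by
      have hl0 : 0 < Real.log ((Y / p + 1 : ℕ) : ℝ) := by linarith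
      calc _ ≤ (3 * (2 * (Y / p)) / (lx / 2)) * (2 * lx) := by
            apply mul_le_mul _ hL hL0 (by positivity)
            exact div_le_div₀ (by positivity) (by linarith) (by linarith) z2
        _ = 24 * (Y / p) := by field_simp; ring
    have h6 := mul_le_mul_of_nonneg_left (h4.trans h5) (Real.log_natCast_nonneg p)
    refine h6.trans (le_of_eq ?_)
    ring
  refine (sum_le_sum h1).trans ?_
  rw [← mul_sum]
  apply mul_le_mul_of_nonneg_left _ (by positivity)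
  have := (abs_le.1 (hM z (by omega))).2
  linarith

end Pool.Agent.Y895.PS
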