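import Pool.Agent.Y895.PS.R2
import Pool.Agent.Y895.PM.G2

set_option autoImplicit false

/-!
# Integers with prime rough part in short blocks, with the right constant
-/

open Filter Topology Finset

namespace Pool.Agent.Y895.PS

open Pool.Agent.Y895.PM (cnt fn fn_eq sm bg bg_sum bg_nonneg sm_le_fn)
open Pool.Agent.H305R2 (roughPart roughPart_mul roughPart_prime SM SM_pos VV ZZ SMz mem_SMz
  sum_le_VV VV_le VV_tendsto ZZ_le_exp ZZ_nonneg)

/-- the ceiling of `B / d` -/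
def lo (d B : ℕ) : ℕ := (B + d - 1) / d

lemma lo_le_iff {d : ℕ} (hd : 1 ≤ d) (B l : ℕ) : lo d B ≤ l ↔ B ≤ d * l := by
  unfold lo
  rw [← Nat.lt_succ_iff, Nat.div_lt_iff_lt_mul hd, Nat.succ_mul, mul_comm d l]
  omega

lemma lo_ge {d : ℕ} (hd : 1 ≤ d) (B : ℕ) : (B : ℝ) / d ≤ lo d B := by
  have h := (lo_le_iff hd B (lo d B)).1 le_rfl
  have hd0 : (0 : ℝ) < d := by exact_mod_cast hd
  rw [div_le_iff₀ hd0, mul_comm]
  exact_mod_cast h

lemma lo_le {d : ℕ} (hd : 1 ≤ d) (B : ℕ) : (lo d B : ℝ) ≤ (B : ℝ) / d + 1 := by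
  have hd0 : (0 : ℝ) < d := by exact_mod_cast hd
  have h : lo d B * d ≤ B + d - 1 := Nat.div_mul_le_self _ _
  have h2 : lo d B * d ≤ B + d := by omega
  have h3 : (lo d B : ℝ) * d ≤ B + d := by exact_mod_cast h2
  rw [← sub_le_iff_le_add, le_div_iff₀ hd0]
  linarith

lemma lo_mono {d : ℕ} (hd : 1 ≤ d) {B E : ℕ} (h : B ≤ E) : lo d B ≤ lo d E :=
  Nat.div_le_div_right (by omega)

open Classical in
/-- The integers of a block with prime rough part and small smooth part. -/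
lemma sm_sum (q B L S0 : ℕ) (hB : ∀ d ∈ SMz q (S0 : ℝ), q < lo d B) :
    ∑ k ∈ range L, sm q ((S0 : ℝ) + 1) (B + k) =
      ∑ d ∈ SMz q (S0 : ℝ), (((Ico (lo d B) (lo d (B + L))).filter Nat.Prime).card : ℝ) := by
  set S : ℝ := (S0 : ℝ) with hS
  have hS0 : 0 ≤ S := Nat.cast_nonneg S0
  have hlt : ∀ n : ℕ, (n : ℝ) < S + 1 ↔ (n : ℝ) ≤ S := by
    intro n
    constructor
    · intro h
      rw [hS] at h ⊢
      have h1 : n < S0 + 1 := by exact_mod_cast h
      have h2 : n ≤ S0 := by omega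
      exact_mod_cast h2
    · intro h
      linarith
  unfold sm
  rw [Finset.sum_boole]
  have e : ((range L).filter (fun k => (roughPart q (B + k)).Prime ∧
      (((B + k) / roughPart q (B + k) : ℕ) : ℝ) < S + 1)).card =
      ((SMz q S).sigma (fun d => (Ico (lo d B) (lo d (B + L))).filter Nat.Prime)).card := by
    refine Finset.card_nbij' (fun k => (⟨(B + k) / roughPart q (B + k), roughPart q (B + k)⟩ :
      Σ _ : ℕ, ℕ)) (fun x => x.1 * x.2 - B) ?_ ?_ ?_ ?_
    · intro k hk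
      rw [Finset.mem_coe, mem_filter, mem_range] at hk
      obtain ⟨h1, h2, h3⟩ := hk
      obtain ⟨g1, s, g2, g3⟩ := roughPart_prime h2
      have g4 : (B + k) / roughPart q (B + k) = s := by
        conv_lhs => rw [g3]
        rw [← g3]
        exact Nat.div_eq_of_eq_mul_left h2.pos g3
      have g5 : 1 ≤ s := SM_pos g2
      rw [Finset.mem_coe, mem_sigma]
      show (B + k) / roughPart q (B + k) ∈ SMz q S ∧ roughPart q (B + k) ∈
        (Ico (lo ((B + k) / roughPart q (B + k)) B)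
          (lo ((B + k) / roughPart q (B + k)) (B + L))).filter Nat.Prime
      rw [g4] at h3 ⊢
      refine ⟨(mem_SMz hS0).2 ⟨g2, (hlt _).1 h3⟩, ?_⟩
      rw [mem_filter, mem_Ico]
      refine ⟨⟨(lo_le_iff g5 _ _).2 (by omega), ?_⟩, h2⟩
      by_contra h
      have := (lo_le_iff g5 _ _).1 (not_lt.1 h)
      omega
    · intro x hx
      rw [Finset.mem_coe, mem_sigma, mem_filter, mem_Ico, mem_SMz hS0] at hx
      obtain ⟨⟨h1, h2⟩, ⟨h3, h4⟩, h5⟩ := hx
      have h6 : 1 ≤ x.1 := SM_pos h1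
      have h7 := (lo_le_iff h6 _ _).1 h3
      have h8 : x.1 * x.2 < B + L := by
        by_contra h
        exact absurd ((lo_le_iff h6 _ _).2 (not_lt.1 h)) (not_le.2 h4)
      have h9 : q < x.2 := lt_of_lt_of_le (hB x.1 ((mem_SMz hS0).2 ⟨h1, h2⟩)) h3
      rw [Finset.mem_coe, mem_filter, mem_range]
      show x.1 * x.2 - B < L ∧ (roughPart q (B + (x.1 * x.2 - B))).Prime ∧
        (((B + (x.1 * x.2 - B)) / roughPart q (B + (x.1 * x.2 - B)) : ℕ) : ℝ) < S + 1
      rw [Nat.add_sub_cancel' h7, roughPart_mul h1 h5 h9, Nat.mul_div_cancel _ h5.pos]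
      exact ⟨by omega, h5, (hlt _).2 h2⟩
    · intro k hk
      rw [Finset.mem_coe, mem_filter, mem_range] at hk
      obtain ⟨h1, h2, h3⟩ := hk
      obtain ⟨g1, s, g2, g3⟩ := roughPart_prime h2
      show (B + k) / roughPart q (B + k) * roughPart q (B + k) - B = k
      have : roughPart q (B + k) ∣ B + k := ⟨s, by rw [mul_comm]; exact g3⟩
      rw [Nat.div_mul_cancel this]
      omega
    · intro x hx
      rw [Finset.mem_coe, mem_sigma, mem_filter, mem_Ico, mem_SMz hS0] at hx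
      obtain ⟨⟨h1, h2⟩, ⟨h3, h4⟩, h5⟩ := hx
      have h6 : 1 ≤ x.1 := SM_pos h1
      have h7 := (lo_le_iff h6 _ _).1 h3
      have h9 : q < x.2 := lt_of_lt_of_le (hB x.1 ((mem_SMz hS0).2 ⟨h1, h2⟩)) h3
      obtain ⟨d, l⟩ := x
      simp only at h1 h2 h3 h4 h5 h6 h7 h9 ⊢
      rw [Nat.add_sub_cancel' h7, roughPart_mul h1 h5 h9, Nat.mul_div_cancel _ h5.pos]
  rw [e, Finset.card_sigma]
  push_cast
  rfl

lemma ev_exp {k : ℝ} (hk : 0 < k) (M : ℝ) : ∀ᶠ q : ℕ in atTop, M * q < Real.exp (k * q) := by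
  filter_upwards [tendsto_natCast_atTop_atTop.eventually_ge_atTop (2 * |M| / k ^ 2)] with q hq
  have h1 := Real.quadratic_le_exp_of_nonneg (show 0 ≤ k * (q : ℝ) by positivity)
  rw [div_le_iff₀ (by positivity)] at hq
  have h2 : (0 : ℝ) ≤ q := Nat.cast_nonneg q
  have h3 := le_abs_self M
  have h4 : 0 ≤ k * (q : ℝ) := by positivity
  have h5 : 2 * |M| * q ≤ q * k ^ 2 * q := mul_le_mul_of_nonneg_right hq h2
  have h6 : M * q ≤ |M| * q := mul_le_mul_of_nonneg_right h3 h2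
  nlinarith

/-- sizes -/
lemma sizes {θ a ε C : ℝ} (hθ : 0 < θ) (ha : 0 < a) : ∀ᶠ q : ℕ in atTop,
      Real.log 2 + |Real.log (8 / ε)| + 1 ≤ θ / 8 * (q * a) ∧
      (q : ℝ) < Real.exp (q * a / 2) ∧
      16 * C * a * q / ε ≤ Real.exp (5 * θ * (q * a) / 32) ∧
      ZZ q ≤ Real.exp (θ / 32 * (q * a)) := by
  filter_upwards [tendsto_natCast_atTop_atTop.eventually_ge_atTop
    ((Real.log 2 + |Real.log (8 / ε)| + 1) / (θ / 8 * a)), ev_exp (show 0 < a / 2 by positivity) 1,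
    ev_exp (show 0 < 5 * θ * a / 32 by positivity) (16 * C * a / ε),
    ZZ_le_exp (show 0 < θ / 32 * a by positivity)] with q h1 h2 h3 h4
  rw [div_le_iff₀ (by positivity)] at h1
  refine ⟨by linarith, ?_, ?_, ?_⟩
  · have e : (q : ℝ) * a / 2 = a / 2 * q := by ring
    rw [e]
    linarith
  · have e : 5 * θ * ((q : ℝ) * a) / 32 = 5 * θ * a / 32 * q := by ring
    have e2 : 16 * C * a * q / ε = 16 * C * a / ε * q := by ring
    rw [e, e2]
    exact h3.le
  · have e : θ / 32 * ((q : ℝ) * a) = θ / 32 * a * q := by ring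
    rw [e]
    exact h4

end Pool.Agent.Y895.PS
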