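import Pool.Agent.Y895.PS.T1

set_option autoImplicit false

/-!
# Integers with prime rough part in short blocks: the right constant
-/

open Filter Topology Finset

namespace Pool.Agent.Y895.PS

open Pool.Agent.Y895.PM (cnt fn fn_eq sm bg bg_sum bg_nonneg sm_le_fn)
open Pool.Agent.H305R2 (roughPart roughPart_mul roughPart_prime SM SM_pos VV ZZ SMz mem_SMz
  sum_le_VV VV_le VV_tendsto ZZ_le_exp ZZ_nonneg)

lemma card_SMz (q S0 : ℕ) : ((SMz q (S0 : ℝ)).card : ℝ) ≤ S0 := by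
  classical
  unfold SMz
  have h := Finset.card_le_card (Finset.filter_subset (fun n => n ∈ SM q) (Icc 1 ⌊(S0 : ℝ)⌋₊))
  rw [Nat.floor_natCast, Nat.card_Icc, Nat.add_sub_cancel] at h
  rw [Nat.floor_natCast]
  exact_mod_cast h

/-- one cofactor -/
lemma one_d {θ a x e α C : ℝ} {K0 q B L d : ℕ} (hθ : 0 < θ) (hθ1 : θ < 1 / 8) (ha : a = Real.log α)
    (hx : x = (q : ℝ) * a) (hx0 : 0 < x) (hK0 : 1 ≤ K0) (hKL : 4 * K0 * L ≤ B)
    (hBC : (B : ℝ) ≤ C * α ^ q) (h1 : 2 * Real.log 2 ≤ θ / 4 * x)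
    (h2 : (q : ℝ) < Real.exp (x / 2)) (hL : Real.exp (x * (1 - θ / 16)) ≤ L) (hd1 : 1 ≤ d)
    (hd2 : (d : ℝ) ≤ 2 * Real.exp (θ / 2 * x))
    (hP0 : ∀ B L : ℕ, K0 * L ≤ B →
      (B : ℝ) ≤ C * α ^ q → (q : ℝ) * (1 - θ) * Real.log α ≤ Real.log L →
      (1 - e) / Real.log α * (1 / q) * L ≤ (((Ico B (B + L)).filter Nat.Prime).card : ℝ) ∧
      (((Ico B (B + L)).filter Nat.Prime).card : ℝ) ≤ (1 + e) / Real.log α * (1 / q) * L)
    (he0 : 0 < e) (he1 : e < 1) (ha0 : 0 < a) :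
    q < lo d B ∧
    (1 - e) / a * (1 / q) * ((L : ℝ) / d - 1) ≤
      (((Ico (lo d B) (lo d (B + L))).filter Nat.Prime).card : ℝ) ∧
    (((Ico (lo d B) (lo d (B + L))).filter Nat.Prime).card : ℝ) ≤
      (1 + e) / a * (1 / q) * ((L : ℝ) / d + 1) := by
  have hd0 : (0 : ℝ) < d := by exact_mod_cast hd1
  have hy : θ * x ≤ x / 8 := by nlinarith
  have hlog2 : 0 < Real.log 2 := Real.log_pos (by norm_num)
  have hLpos : (0 : ℝ) < L := lt_of_lt_of_le (Real.exp_pos _) hL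
  have hd3 : (d : ℝ) ≤ Real.exp (Real.log 2 + θ / 2 * x) := by
    rw [Real.exp_add, Real.exp_log (by norm_num)]
    exact hd2
  -- `2 d exp (x (1 - θ)) ≤ L`
  have k1 : 2 * (d * Real.exp (x * (1 - θ))) ≤ L := by
    have : 2 * (d * Real.exp (x * (1 - θ))) ≤
        Real.exp (Real.log 2 + (Real.log 2 + θ / 2 * x) + x * (1 - θ)) := by
      rw [Real.exp_add, Real.exp_add (Real.log 2), Real.exp_log (by norm_num), ← mul_assoc]
      apply mul_le_mul_of_nonneg_right _ (Real.exp_pos _).le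
      exact mul_le_mul_of_nonneg_left hd3 (by norm_num)
    refine this.trans ((Real.exp_le_exp.2 ?_).trans hL)
    nlinarith
  have k2 : d * Real.exp (x / 2) ≤ L := by
    have : d * Real.exp (x / 2) ≤ Real.exp ((Real.log 2 + θ / 2 * x) + x / 2) := by
      rw [Real.exp_add]
      exact mul_le_mul_of_nonneg_right hd3 (Real.exp_pos _).le
    refine this.trans ((Real.exp_le_exp.2 ?_).trans hL)
    nlinarith
  have k3 : 2 * (d : ℝ) ≤ L := by
    have h3 : 1 ≤ Real.exp (x * (1 - θ)) := Real.one_le_exp (by nlinarith)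
    nlinarith
  have hKLr : 4 * (K0 : ℝ) * L ≤ B := by exact_mod_cast hKL
  have hK0r : (1 : ℝ) ≤ K0 := by exact_mod_cast hK0
  have hLB : (L : ℝ) ≤ B := by nlinarith
  have hlo := lo_ge hd1 B
  have hlo2 := lo_le hd1 B
  have hlo3 := lo_ge hd1 (B + L)
  have hlo4 := lo_le hd1 (B + L)
  have hmono := lo_mono hd1 (Nat.le_add_right B L)
  push_cast at hlo3 hlo4
  rw [add_div] at hlo3 hlo4
  have hBd : (L : ℝ) / d ≤ B / d := by gcongr
  obtain ⟨M, hM⟩ := Nat.exists_eq_add_of_le hmono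
  have hMr : (lo d (B + L) : ℝ) = lo d B + M := by exact_mod_cast hM
  have hM1 : (L : ℝ) / d - 1 ≤ M := by linarith
  have hM2 : (M : ℝ) ≤ L / d + 1 := by linarith
  have hLd2 : 2 ≤ (L : ℝ) / d := by
    rw [le_div_iff₀ hd0]
    exact k3
  have g1 : q < lo d B := by
    have h3 : Real.exp (x / 2) ≤ L / d := by
      rw [le_div_iff₀ hd0]
      linarith
    have h4 : (q : ℝ) < lo d B := by linarith
    exact_mod_cast h4
  have g2 : K0 * M ≤ lo d B := by
    have h3 : (K0 : ℝ) * M ≤ K0 * (L / d + 1) := mul_le_mul_of_nonneg_left hM2 (by linarith)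
    have h4 : (K0 : ℝ) * (L / d + 1) ≤ K0 * (2 * (L / d)) :=
      mul_le_mul_of_nonneg_left (by linarith) (by linarith)
    have h5 : 4 * (K0 : ℝ) * (L / d) ≤ B / d := by
      rw [← mul_div_assoc]
      gcongr
    have h6 : 0 ≤ (K0 : ℝ) * (L / d) := by positivity
    have h7 : (K0 : ℝ) * M ≤ lo d B := by nlinarith
    exact_mod_cast h7
  have g3 : (lo d B : ℝ) ≤ C * α ^ q := by
    have h3 : lo d B ≤ B := (lo_le_iff hd1 B B).2 (Nat.le_mul_of_pos_left B hd1)
    have h4 : (lo d B : ℝ) ≤ B := by exact_mod_cast h3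
    exact h4.trans hBC
  have hMpos : (0 : ℝ) < M := by linarith
  have g4 : (q : ℝ) * (1 - θ) * Real.log α ≤ Real.log M := by
    rw [Real.le_log_iff_exp_le hMpos]
    have e1 : (q : ℝ) * (1 - θ) * Real.log α = x * (1 - θ) := by
      rw [hx, ha]
      ring
    rw [e1]
    have h3 : 2 * Real.exp (x * (1 - θ)) ≤ L / d := by
      rw [le_div_iff₀ hd0]
      linarith
    linarith
  have key := hP0 (lo d B) M g2 g3 g4
  rw [hM]
  rw [← ha] at key
  have hq0 : (0 : ℝ) ≤ 1 / q := by positivity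
  refine ⟨g1, le_trans ?_ key.1, key.2.trans ?_⟩
  · apply mul_le_mul_of_nonneg_left hM1
    have : 0 ≤ (1 - e) / a := div_nonneg (by linarith) ha0.le
    positivity
  · apply mul_le_mul_of_nonneg_left hM2
    have : 0 ≤ (1 + e) / a := div_nonneg (by linarith) ha0.le
    positivity

end Pool.Agent.Y895.PS
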