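import Pool.Agent.Y895.PS.T2

set_option autoImplicit false

/-!
# The number of integers with prime rough part in a short block
-/

open Filter Topology Finset

namespace Pool.Agent.Y895.PS

open Pool.Agent.Y895.PM (cnt fn fn_eq sm bg bg_sum bg_nonneg sm_le_fn)
open Pool.Agent.H305R2 (roughPart roughPart_mul roughPart_prime SM SM_pos VV ZZ SMz mem_SMz
  sum_le_VV VV_le VV_tendsto ZZ_le_exp ZZ_nonneg)

/-- the constant of the upper bound -/
lemma up_const {e A M : ℝ} (he0 : 0 < e) (he1 : e ≤ 1 / 8) (hM : 1 ≤ M) (hA : 0 < A) :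
    (1 + e) * A * ((1 + e) * M + e) + e * A ≤ (1 + 8 * e) * M * A := by
  have h1 : (1 + e) * ((1 + e) * M + e) + e ≤ (1 + 8 * e) * M := by
    have h2 : e * 1 ≤ e * M := mul_le_mul_of_nonneg_left hM he0.le
    have h3 : e * (e * 1) ≤ e * (e * M) := mul_le_mul_of_nonneg_left h2 he0.le
    have h4 : e * (e * M) ≤ 1 / 8 * (e * M) := mul_le_mul_of_nonneg_right he1 (by positivity)
    have h5 : 0 ≤ e * M := by positivity
    nlinarith
  have := mul_le_mul_of_nonneg_right h1 hA.le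
  linarith

/-- the constant of the lower bound -/
lemma low_const {e A M : ℝ} (he0 : 0 < e) (he1 : e ≤ 1 / 8) (hM : 1 ≤ M) (hA : 0 < A) :
    (1 - 8 * e) * M * A ≤ (1 - e) * A * ((1 - e) * M - e - e) := by
  have h1 : (1 - 8 * e) * M ≤ (1 - e) * ((1 - e) * M - e - e) := by
    have h2 : e * 1 ≤ e * M := mul_le_mul_of_nonneg_left hM he0.le
    have h5 : 0 ≤ e * M := by positivity
    have h6 : 0 ≤ e * (e * M) := by positivity
    nlinarith
  have := mul_le_mul_of_nonneg_right h1 hA.le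
  linarith

/-- **Integers with prime rough part in short blocks.** -/
theorem cnt_asy : ∀ ε : ℝ, 0 < ε → ε ≤ 1 → ∃ (δ : ℝ) (K : ℕ), 0 < δ ∧ δ < 1 / 8 ∧ 1 ≤ K ∧
    ∀ α : ℝ, 1 < α → ∀ C : ℝ, 0 < C → ∃ P : ℕ, ∀ q ≥ P, ∀ B L : ℕ, K * L ≤ B →
    (B : ℝ) ≤ C * α ^ q → (q : ℝ) * (1 - δ) * Real.log α ≤ Real.log L →
    (1 - ε) * (Real.exp Real.eulerMascheroniConstant / Real.log α) * (Real.log q / q) * L ≤
      cnt q B L ∧
    cnt q B L ≤
      (1 + ε) * (Real.exp Real.eulerMascheroniConstant / Real.log α) * (Real.log q / q) * L := by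
  intro ε hε hε1
  set e := ε / 8 with he
  have he0 : 0 < e := by positivity
  have he1 : e ≤ 1 / 8 := by linarith
  have heε : 8 * e = ε := by rw [he]; ring
  obtain ⟨θ, K0, hθ, hθ1, hK0, hpr⟩ := cnt_pr e he0 (by linarith)
  refine ⟨θ / 16, 4 * K0, by positivity, by linarith, by omega, fun α hα C hC => ?_⟩
  have ha : 0 < Real.log α := Real.log_pos hα
  have hα0 : 0 < α := by linarith
  set a := Real.log α with haa
  set G := Real.exp Real.eulerMascheroniConstant with hG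
  have hG1 : 1 ≤ G := Real.one_le_exp (by
    have := Real.one_half_lt_eulerMascheroniConstant
    linarith)
  have hG0 : 0 < G := by linarith
  obtain ⟨P0, hP0⟩ := hpr α hα C hC
  have hV : ∀ᶠ q : ℕ in atTop, (1 - e) * (G * Real.log q) ≤ Pool.Agent.H305R2.VV q ∧
      Pool.Agent.H305R2.VV q ≤ (1 + e) * (G * Real.log q) := by
    have h1 := VV_tendsto.eventually_lt_const (show G < (1 + e) * G by nlinarith)
    have h2 := VV_tendsto.eventually_const_lt (show (1 - e) * G < G by nlinarith)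
    filter_upwards [h1, h2, eventually_ge_atTop 2] with q h1 h2 h3
    have hl : 0 < Real.log (q : ℝ) := Real.log_pos (by exact_mod_cast (by omega : 1 < q))
    rw [div_lt_iff₀ hl] at h1
    rw [lt_div_iff₀ hl] at h2
    exact ⟨by linarith, by linarith⟩
  have hl1 : ∀ᶠ q : ℕ in atTop, 1 ≤ Real.log (q : ℝ) :=
    (Real.tendsto_log_atTop.comp tendsto_natCast_atTop_atTop).eventually_ge_atTop 1
  obtain ⟨P, hP⟩ := ((hV.and (hl1.and (sizes (C := C) (ε := ε) hθ ha))).and
    (eventually_ge_atTop (max P0 2))).exists_forall_of_atTop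
  refine ⟨P, fun q hq B L hKL hBC hL => ?_⟩
  obtain ⟨⟨⟨hV1, hV2⟩, hlq, g1, g2, g3, g4⟩, g5⟩ := hP q hq
  have hqP0 : P0 ≤ q := le_trans (le_max_left _ _) g5
  have hq2 : 2 ≤ q := le_trans (le_max_right _ _) g5
  have hq0 : (0 : ℝ) < q := by positivity
  set x := (q : ℝ) * a with hx
  have hx0 : 0 < x := by positivity
  have habs := abs_nonneg (Real.log (8 / ε))
  have habs2 := le_abs_self (Real.log (8 / ε))
  have hlog2 : 0 < Real.log 2 := Real.log_pos (by norm_num)
  have hy : θ * x ≤ x / 8 := by nlinarith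
  have hLpos : (0 : ℝ) < L := by
    by_contra h
    have h1 : (L : ℝ) = 0 := le_antisymm (not_lt.1 h) (Nat.cast_nonneg L)
    rw [h1, Real.log_zero] at hL
    have : 0 < (q : ℝ) * (1 - θ / 16) * a := by
      have : 0 < 1 - θ / 16 := by linarith
      positivity
    linarith
  have hLx : Real.exp (x * (1 - θ / 16)) ≤ L := by
    rw [← Real.le_log_iff_exp_le hLpos]
    refine le_trans (le_of_eq ?_) hL
    rw [hx]
    ring
  have hKLr : 4 * (K0 : ℝ) * L ≤ B := by exact_mod_cast hKL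
  have hK0r : (1 : ℝ) ≤ K0 := by exact_mod_cast hK0
  have hLB : (L : ℝ) ≤ B := by nlinarith
  have hαx : α ^ q = Real.exp x := by
    rw [hx, Real.exp_nat_mul, haa, Real.exp_log hα0]
  set S0 := ⌈Real.exp (θ / 2 * x)⌉₊ with hS0
  have s1 : Real.exp (θ / 2 * x) ≤ S0 := Nat.le_ceil _
  have s2 : (S0 : ℝ) ≤ 2 * Real.exp (θ / 2 * x) := by
    have h1 := Nat.ceil_lt_add_one (Real.exp_pos (θ / 2 * x)).le
    have h2 : 1 ≤ Real.exp (θ / 2 * x) := Real.one_le_exp (by positivity)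
    rw [← hS0] at h1
    linarith
  have s0 : (0 : ℝ) < S0 := lt_of_lt_of_le (Real.exp_pos _) s1
  have hd : ∀ d ∈ SMz q (S0 : ℝ), q < lo d B ∧
      (1 - e) / a * (1 / q) * ((L : ℝ) / d - 1) ≤
        (((Ico (lo d B) (lo d (B + L))).filter Nat.Prime).card : ℝ) ∧
      (((Ico (lo d B) (lo d (B + L))).filter Nat.Prime).card : ℝ) ≤
        (1 + e) / a * (1 / q) * ((L : ℝ) / d + 1) := by
    intro d hdm
    obtain ⟨h1, h2⟩ := (mem_SMz s0.le).1 hdm
    exact one_d hθ hθ1 haa hx hx0 hK0 hKL hBC (by linarith) g2 hLx (SM_pos h1)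
      (h2.trans s2) (hP0 q hqP0) he0 (by linarith) ha
  have hs := sm_sum q B L S0 fun d hdm => (hd d hdm).1
  set D := SMz q (S0 : ℝ) with hD
  -- the small terms
  have he_exp : Real.exp (-Real.log (8 / ε)) = e := by
    rw [Real.exp_neg, Real.exp_log (by positivity), inv_div]
  have hrp : ∀ S : ℝ, Real.exp (θ / 2 * x) ≤ S →
      S ^ (-(1 / 2) : ℝ) * ZZ q ≤ Real.exp (-(7 / 32 * (θ * x))) := by
    intro S hS
    have h1 := Real.rpow_le_rpow_of_nonpos (Real.exp_pos (θ / 2 * x)) hS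
      (show (-(1 / 2) : ℝ) ≤ 0 by norm_num)
    rw [← Real.exp_mul] at h1
    calc S ^ (-(1 / 2) : ℝ) * ZZ q ≤ Real.exp (θ / 2 * x * (-(1 / 2))) *
          Real.exp (θ / 32 * x) := mul_le_mul h1 g4 (ZZ_nonneg q) (Real.exp_pos _).le
      _ = Real.exp (-(7 / 32 * (θ * x))) := by rw [← Real.exp_add]; congr 1; ring
  have htail : (S0 : ℝ) ^ (-(1 / 2) : ℝ) * ZZ q ≤ e := by
    refine (hrp S0 s1).trans ?_
    rw [← he_exp]
    apply Real.exp_le_exp.2
    nlinarith
  have hcard : (D.card : ℝ) ≤ e * L := by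
    refine (card_SMz q S0).trans (s2.trans ?_)
    have h1 : 2 * Real.exp (θ / 2 * x) = Real.exp (Real.log 2 + θ / 2 * x) := by
      rw [Real.exp_add, Real.exp_log (by norm_num)]
    have h2 : e * Real.exp (x * (1 - θ / 16)) =
        Real.exp (-Real.log (8 / ε) + x * (1 - θ / 16)) := by
      rw [Real.exp_add, he_exp]
    rw [h1]
    refine le_trans ?_ (mul_le_mul_of_nonneg_left hLx he0.le)
    rw [h2]
    apply Real.exp_le_exp.2
    nlinarith
  have hB1 : 1 ≤ B := by
    have : (0 : ℝ) < B := by linarith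
    exact_mod_cast this
  set A := L / (a * q) with hA
  have hA0 : 0 < A := by positivity
  have hbg : ∑ k ∈ range L, bg q ((S0 : ℝ) + 1) (B + k) ≤ e * A := by
    have h1 := bg_sum (p := q) (A := B) (L := L) (X := B + L) (S := (S0 : ℝ) + 1) (by linarith)
      hB1 le_rfl
    refine h1.trans ?_
    have h2 := hrp ((S0 : ℝ) + 1) (by linarith)
    have h3 : ((B + L : ℕ) : ℝ) ≤ 2 * C * Real.exp x := by
      push_cast
      rw [← hαx]
      linarith
    have h4 : ((B + L : ℕ) : ℝ) * (((S0 : ℝ) + 1) ^ (-(1 / 2) : ℝ) * ZZ q) ≤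
        2 * C * Real.exp x * Real.exp (-(7 / 32 * (θ * x))) :=
      mul_le_mul h3 h2 (mul_nonneg (by positivity) (ZZ_nonneg q)) (by positivity)
    refine h4.trans ?_
    have h5 : Real.exp x * Real.exp (-(7 / 32 * (θ * x))) =
        Real.exp (x * (1 - θ / 16)) * Real.exp (-(5 * θ * x / 32)) := by
      rw [← Real.exp_add, ← Real.exp_add]
      congr 1
      ring
    rw [mul_assoc, h5]
    have h6 : 2 * C * Real.exp (-(5 * θ * x / 32)) ≤ e / (a * q) := by
      rw [Real.exp_neg, ← div_eq_mul_inv, div_le_div_iff₀ (Real.exp_pos _) (by positivity), he]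
      rw [div_le_iff₀ hε] at g3
      linarith
    calc 2 * C * (Real.exp (x * (1 - θ / 16)) * Real.exp (-(5 * θ * x / 32))) =
          Real.exp (x * (1 - θ / 16)) * (2 * C * Real.exp (-(5 * θ * x / 32))) := by ring
      _ ≤ L * (e / (a * q)) := mul_le_mul hLx h6 (by positivity) hLpos.le
      _ = e * A := by rw [hA]; ring
  have hcnt : cnt q B L = ∑ k ∈ range L, sm q ((S0 : ℝ) + 1) (B + k) +
      ∑ k ∈ range L, bg q ((S0 : ℝ) + 1) (B + k) := by
    unfold cnt
    rw [← Finset.sum_add_distrib]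
    exact Finset.sum_congr rfl fun k _ => fn_eq q _ _
  have hbg0 : 0 ≤ ∑ k ∈ range L, bg q ((S0 : ℝ) + 1) (B + k) :=
    Finset.sum_nonneg fun k _ => bg_nonneg _ _ _
  have hM1 : 1 ≤ G * Real.log q := by nlinarith
  have hsumV : ∑ d ∈ D, (d : ℝ)⁻¹ ≤ Pool.Agent.H305R2.VV q := sum_le_VV q D fun n hn => ((mem_SMz s0.le).1 hn).1
  have hVsum : Pool.Agent.H305R2.VV q ≤ ∑ d ∈ D, (d : ℝ)⁻¹ + e := (Pool.Agent.H305R2.VV_le q s0).trans (by linarith)
  have e1 : ∀ c : ℝ, ∑ d ∈ D, c * ((L : ℝ) / d + 1) = c * (L * ∑ d ∈ D, (d : ℝ)⁻¹ + D.card) := by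
    intro c
    rw [← Finset.mul_sum, Finset.sum_add_distrib, Finset.mul_sum]
    simp [div_eq_mul_inv]
  have e2 : ∀ c : ℝ, ∑ d ∈ D, c * ((L : ℝ) / d - 1) = c * (L * ∑ d ∈ D, (d : ℝ)⁻¹ - D.card) := by
    intro c
    rw [← Finset.mul_sum, Finset.sum_sub_distrib, Finset.mul_sum]
    simp [div_eq_mul_inv]
  constructor
  · have h1 : ∑ k ∈ range L, sm q ((S0 : ℝ) + 1) (B + k) ≤ cnt q B L := by rw [hcnt]; linarith
    refine le_trans ?_ h1
    rw [hs]
    have h2 := Finset.sum_le_sum fun d hdm => (hd d hdm).2.1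
    rw [e2] at h2
    refine le_trans ?_ h2
    have h3 : (1 - e) / a * (1 / q) * (L * ((1 - e) * (G * Real.log q) - e - e)) ≤
        (1 - e) / a * (1 / q) * (L * ∑ d ∈ D, (d : ℝ)⁻¹ - D.card) := by
      apply mul_le_mul_of_nonneg_left
      · have h4 : (L : ℝ) * ((1 - e) * (G * Real.log q) - e) ≤ L * ∑ d ∈ D, (d : ℝ)⁻¹ :=
          mul_le_mul_of_nonneg_left (by linarith) hLpos.le
        linarith
      · have : 0 ≤ (1 - e) / a := div_nonneg (by linarith) ha.le
        positivity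
    refine le_trans ?_ h3
    have h5 := low_const he0 he1 hM1 hA0
    rw [heε] at h5
    calc _ = (1 - ε) * (G * Real.log q) * A := by rw [hA]; field_simp
      _ ≤ _ := h5
      _ = _ := by rw [hA]; field_simp
  · rw [hcnt, hs]
    have h2 := Finset.sum_le_sum fun d hdm => (hd d hdm).2.2
    rw [e1] at h2
    have h3 : (1 + e) / a * (1 / q) * (L * ∑ d ∈ D, (d : ℝ)⁻¹ + D.card) ≤
        (1 + e) / a * (1 / q) * (L * ((1 + e) * (G * Real.log q) + e)) := by
      apply mul_le_mul_of_nonneg_left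
      · have h4 : (L : ℝ) * ∑ d ∈ D, (d : ℝ)⁻¹ ≤ L * ((1 + e) * (G * Real.log q)) :=
          mul_le_mul_of_nonneg_left (by linarith) hLpos.le
        linarith
      · positivity
    have h5 := up_const he0 he1 hM1 hA0
    rw [heε] at h5
    calc _ ≤ (1 + e) / a * (1 / q) * (L * ((1 + e) * (G * Real.log q) + e)) + e * A := by linarith
      _ = (1 + e) * A * ((1 + e) * (G * Real.log q) + e) + e * A := by rw [hA]; field_simp
      _ ≤ _ := h5
      _ = _ := by rw [hA]; field_simp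

end Pool.Agent.Y895.PS
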